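import Pool.Agent.Work.MP_3d425c_gt.Sm.K0
import Pool.Agent.Work.MP_3d425c_gt.Gl.Tree

-- merged part: Pool.Agent.Work.MP_3d425c_gt.Sm.A4
section
/-! Block A4: discrete tautness. Plan: LEMMA: δ : ℝ → Y continuous on [s0,s1] and every t has a
neighbourhood in [s0,s1] on which s ≤ s' implies H (δ t) (δ s) ≤ H (δ t) (δ s'); then
ReflTransGen W (δ s0) (δ s1) (real induction; L.nhds for d < 1; L.compat changes the base point).
For y lift the leaf path α from p y to γ 0 (from y to y1), lift γ from y1 (γ~ 1 = g • y1 since the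
fibres are orbits), and use g • (reverse of α~) from g • y1 to g • y, again a lift of a leaf path.
y2 = γ~ s0 for a small s0 > 0 gives the strict step. -/

namespace Pool.Agent.Work.MP_3d425c_gt.Sm
open Set Relation Metric Topology Filter
open scoped RealInnerProductSpace Manifold ContDiff

theorem a4_ind {r : ℝ → ℝ → Prop} {a b : ℝ} (hab : a ≤ b)
    (h : ∀ t ∈ Icc a b, ∀ᶠ q : ℝ × ℝ in 𝓝 (t, t), q.1 ∈ Icc a b → q.2 ∈ Icc a b → q.1 ≤ q.2 →
      r q.1 q.2) : ReflTransGen r a b := by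
  set S := {s | s ∈ Icc a b ∧ ReflTransGen r a s}
  have ha : a ∈ S := ⟨left_mem_Icc.2 hab, .refl⟩
  have hB : BddAbove S := ⟨b, fun s hs => hs.1.2⟩
  have hc : sSup S ∈ Icc a b := ⟨le_csSup hB ha, csSup_le ⟨a, ha⟩ fun s hs => hs.1.2⟩
  obtain ⟨ε, hε, hq⟩ := Metric.eventually_nhds_iff.1 (h _ hc)
  obtain ⟨s, hs, hs'⟩ := exists_lt_of_lt_csSup ⟨a, ha⟩ (sub_lt_self (sSup S) hε)
  have hle := le_csSup hB hs
  have hm : min b (sSup S + ε / 2) ∈ Icc a b :=
    ⟨le_min hab (by linarith [hc.1]), min_le_left _ _⟩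
  have h1 : sSup S ≤ min b (sSup S + ε / 2) := le_min hc.2 (by linarith)
  have h2 : min b (sSup S + ε / 2) ∈ S := by
    refine ⟨hm, hs.2.tail (hq (y := (s, _)) ?_ hs.1 hm (hle.trans h1))⟩
    rw [Prod.dist_eq, max_lt_iff, Real.dist_eq, Real.dist_eq, abs_lt, abs_lt]
    have := min_le_right b (sSup S + ε / 2)
    refine ⟨⟨?_, ?_⟩, ?_, ?_⟩ <;> dsimp only <;> linarith
  have h3 := le_csSup hB h2
  rcases min_choice b (sSup S + ε / 2) with e | e
  · exact e ▸ h2.2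
  · rw [e] at h3; linarith

theorem a4_near {Y : Type} [TopologicalSpace Y] {η : ℝ} (L : LM Y 300 η) {δ : ℝ → Y}
    (hδ : Continuous δ) (t : ℝ) : ∀ᶠ q : ℝ × ℝ in 𝓝 (t, t),
      L.d (δ t) (δ q.1) < 1 / 2 ∧ L.d (δ t) (δ q.2) < 1 / 2 := by
  have : ∀ᶠ s in 𝓝 t, L.d (δ t) (δ s) < 1 / 2 :=
    hδ.continuousAt.preimage_mem_nhds (L.nhds (δ t) _ (by norm_num))
  exact this.prod_nhds this

theorem a4_path {Y : Type} [TopologicalSpace Y] {η : ℝ} (L : LM Y 300 η) {δ : ℝ → Y}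
    (hδ : Continuous δ) {a b : ℝ} (hab : a ≤ b)
    (h : ∀ t ∈ Icc a b, ∀ᶠ q : ℝ × ℝ in 𝓝 (t, t), q.1 ∈ Icc a b → q.2 ∈ Icc a b → q.1 ≤ q.2 →
      L.H (δ t) (δ q.1) ≤ L.H (δ t) (δ q.2)) : ReflTransGen L.W (δ a) (δ b) := by
  refine ReflTransGen.lift δ (fun _ _ h => h) a b
    (a4_ind (r := fun s s' => L.W (δ s) (δ s')) hab fun t ht => ?_)
  filter_upwards [h t ht, a4_near L hδ t] with q hq hd h1 h2 h3
  have := L.tri (δ q.1) (δ t) (δ q.2)
  rw [L.symm _ (δ t)] at this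
  refine ⟨by linarith [hd.1, hd.2], L.compat_le (by linarith [hd.1]) (by linarith [hd.2])
    (by rw [L.d_self]; norm_num) (by linarith [hd.1, hd.2]) (hq h1 h2 h3)⟩

theorem a4_leaf {M Y : Type} [TopologicalSpace M] [TopologicalSpace Y] (p : Y → M)
    {A : Set (OpenPartialHomeomorph M ((ℝ × ℝ) × ℝ))} {η : ℝ} (L : LM Y 300 η)
    (hL : ∀ a, ∃ f ∈ A, p a ∈ f.source ∧ ∀ y, L.H a y = (f (p y)).2) {Γ : unitInterval → Y}
    (hΓ : Continuous Γ) (h : ∀ t, ∀ e ∈ A, p (Γ t) ∈ e.source →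
      ∀ᶠ s in 𝓝 t, (e (p (Γ s))).2 = (e (p (Γ t))).2) : ReflTransGen L.W (Γ 0) (Γ 1) := by
  have hc : Continuous (projIcc (0 : ℝ) 1 zero_le_one) := continuous_projIcc
  have := a4_path L (hΓ.comp hc) zero_le_one fun t _ => ?_
  · simpa using this
  obtain ⟨f, hf, h1, h2⟩ := hL (Γ (projIcc 0 1 zero_le_one t))
  have h3 := hc.continuousAt.eventually (h _ f hf h1)
  filter_upwards [h3.prod_nhds h3] with q hq _ _ _
  simp only [Function.comp, h2, hq.1, hq.2, le_refl]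

theorem lm_taut {M Y G : Type} [TopologicalSpace M] [TopologicalSpace Y] [Group G] [MulAction G Y]
    (p : Y → M) (hp : IsQuotientCoveringMap p G)
    {A : Set (OpenPartialHomeomorph M ((ℝ × ℝ) × ℝ))} (hT : Taut A) {η : ℝ} (L : LM Y 300 η)
    (hL : ∀ a, ∃ f ∈ A, p a ∈ f.source ∧ ∀ y, L.H a y = (f (p y)).2) : L.Taut G := by
  intro y
  obtain ⟨γ, hγ, hper, ⟨α, hα⟩, htr⟩ := hT (p y)
  obtain ⟨Γ, hΓ, hΓ0⟩ := hp.isCoveringMap.exists_path_lifts α.toContinuousMap y α.source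
  have hΓ' : ∀ t, p (Γ t) = α t := fun t => congrFun hΓ t
  obtain ⟨Δ, hΔ, hΔ0⟩ := hp.isCoveringMap.exists_path_lifts
    ⟨fun t : unitInterval => γ t, hγ.comp continuous_subtype_val⟩ (Γ 1) (by simp [hΓ'])
  have hΔ' : ∀ t, p (Δ t) = γ t := fun t => congrFun hΔ t
  obtain ⟨g, hg⟩ : Δ 1 ∈ MulAction.orbit G (Γ 1) := by
    refine hp.apply_eq_iff_mem_orbit.1 ?_
    have := hper 0
    rw [zero_add] at this
    simp [hΔ', hΓ', this]
  have hpg : ∀ z, p (g • z) = p z := fun z => hp.apply_eq_iff_mem_orbit.2 ⟨g, rfl⟩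
  have hc : Continuous (projIcc (0 : ℝ) 1 zero_le_one) := continuous_projIcc
  set δ : ℝ → Y := fun s => Δ (projIcc 0 1 zero_le_one s) with hδ
  have hδc : Continuous δ := Δ.continuous.comp hc
  have hpδ : ∀ s ∈ Icc (0 : ℝ) 1, p (δ s) = γ s := fun s hs => by
    simp only [hδ, hΔ', projIcc_of_mem _ hs]
  have hlt : ∀ t ∈ Icc (0 : ℝ) 1, ∀ᶠ q : ℝ × ℝ in 𝓝 (t, t), q.1 ∈ Icc (0 : ℝ) 1 →
      q.2 ∈ Icc (0 : ℝ) 1 → q.1 < q.2 → L.H (δ t) (δ q.1) < L.H (δ t) (δ q.2) := fun t ht => by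
    obtain ⟨f, hf, h1, h2⟩ := hL (δ t)
    filter_upwards [htr t f hf (hpδ t ht ▸ h1)] with q hq h3 h4 h5
    rw [h2, h2, hpδ _ h3, hpδ _ h4]
    exact hq h5
  have h0 : δ 0 = Γ 1 := by simp [hδ, hΔ0]
  have h1 : δ 1 = g • Γ 1 := by simp [hδ, ← hg]
  obtain ⟨ε, hε, hq⟩ := Metric.eventually_nhds_iff.1
    ((hlt 0 (left_mem_Icc.2 zero_le_one)).and (a4_near L hδc 0))
  have hs : 0 < min 1 (ε / 2) := lt_min one_pos (half_pos hε)
  obtain ⟨h2, -, h3⟩ := hq (y := (0, min 1 (ε / 2))) (by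
    rw [Prod.dist_eq, max_lt_iff, dist_self, Real.dist_eq, sub_zero, abs_of_pos hs]
    exact ⟨hε, (min_le_right _ _).trans_lt (half_lt_self hε)⟩)
  refine ⟨g, δ 0, δ (min 1 (ε / 2)), ?_, by linarith,
    h2 (left_mem_Icc.2 zero_le_one) ⟨hs.le, min_le_left _ _⟩ hs, .trans (b := δ 1) ?_ ?_⟩
  · rw [h0]
    conv_lhs => rw [← hΓ0]
    exact a4_leaf p L hL Γ.continuous (by simpa only [hΓ'] using hα)
  · refine a4_path L hδc (min_le_left _ _) fun t ht => ?_
    filter_upwards [hlt t ⟨hs.le.trans ht.1, ht.2⟩] with q hq h4 h5 h6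
    rcases h6.eq_or_lt with e | e
    · rw [e]
    · exact (hq ⟨hs.le.trans h4.1, h4.2⟩ ⟨hs.le.trans h5.1, h5.2⟩ e).le
  · have := a4_leaf p L hL (Γ := fun t => g • Γ (unitInterval.symm t))
      ((hp.continuous_const_smul g).comp (Γ.continuous.comp unitInterval.continuous_symm))
      fun t e he h => by
        simp only [hpg, hΓ'] at h ⊢
        exact unitInterval.continuous_symm.continuousAt.eventually (hα _ e he h)
    simpa [h1, hΓ0] using this

end Pool.Agent.Work.MP_3d425c_gt.Sm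
end

-- merged part: Pool.Agent.Work.MP_3d425c_gt.Sm.B1
section
/-! Block B1: the net and the height margin. Plan: take t from Inv.cpt, a maximal subset t' of t such
that distinct points of G • t' are at distance ≥ 1 (Inv.far handles one orbit); G • t' is
1.1-dense. Move the points a of t' one after the other (induction over subsets of t') to
χ a (s • l a), s ∈ [0, 1/10]: for an already moved point q of the invariant set with d a q < 131 (at
most N, `pack`) the bad s satisfy |s - ⟪l a, ψ a q⟫| < 2 δ (otherwise Ab by cone_ψ and compat, since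
δ - η > 133 η), a set of diameter 4 δ ≤ τ; `avoid N`. Ab is invariant under G (Inv.d, Inv.H); a pair
in one orbit at distance < 130 is trivial by Inv.far. -/

namespace Pool.Agent.Work.MP_3d425c_gt.Sm
open Set Relation Metric Topology Filter
open scoped RealInnerProductSpace

section
variable {Y : Type} [TopologicalSpace Y] {η δ : ℝ} (L : LM Y 300 η)

theorem b1_ab (h0 : 0 < η) (h1 : δ ≤ 1) (h2 : 200 * η ≤ δ) {a p q : Y} (hp : L.d a p < 140)
    (hq : L.d a q < 140) (hd : L.d p q < 130)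
    (h : ⟪L.l a, L.ψ a q⟫ + 2 * δ ≤ ⟪L.l a, L.ψ a p⟫) : L.Ab δ p q := by
  intro z hz
  have e1 := L.symm z p
  have t1 := L.tri a p z
  have t2 := L.tri z p q
  have hz' : L.d a z < 300 - 1 := by linarith
  have hp' : L.d a p < 300 - 1 := by linarith
  have hq' : L.d a q < 300 - 1 := by linarith
  refine L.compat a p q z hq' hz' (by linarith) (by linarith) (L.cone_ψ a hq' hz' ?_)
  have k1 := (abs_le.1 (L.d_ψ a hz' hp')).1
  have k2 := (abs_le.1 (L.d_ψ a hz' hq')).1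
  have k3 := abs_real_inner_le_norm (L.l a) (L.ψ a z - L.ψ a p)
  rw [L.unit, one_mul, inner_sub_right] at k3
  have k4 := (abs_le.1 k3).1
  have k5 : η * ‖L.ψ a z - L.ψ a q‖ ≤ η * 132 := mul_le_mul_of_nonneg_left (by linarith) h0.le
  rw [inner_sub_right]
  linarith

/-- separated, with robustly different heights when close -/
def b1_R (δ : ℝ) (p q : Y) : Prop :=
  1 / 2 ≤ L.d p q ∧ (L.d p q < 130 → L.Ab δ p q ∨ L.Ab δ q p)

theorem b1_symm {p q : Y} (h : b1_R L δ p q) : b1_R L δ q p := by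
  refine ⟨L.symm p q ▸ h.1, fun k => (h.2 (L.symm q p ▸ k)).symm⟩

variable {G : Type} [Group G] [MulAction G Y]

theorem b1_abg (hI : L.Inv G) (g : G) {p q : Y} (h : L.Ab δ p q) : L.Ab δ (g • p) (g • q) := by
  intro z hz
  have e : z = g • g⁻¹ • z := (smul_inv_smul g z).symm
  rw [e, hI.d] at hz
  rw [e, hI.H, hI.H]
  exact h _ hz

theorem b1_smul (hI : L.Inv G) (g : G) {p q : Y} (h : b1_R L δ p q) :
    b1_R L δ (g • p) (g • q) := by
  refine ⟨(hI.d g p q).symm ▸ h.1, fun k => ?_⟩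
  rw [hI.d] at k
  exact (h.2 k).imp (b1_abg L hI g) (b1_abg L hI g)

theorem b1_orb (hI : L.Inv G) (g h : G) {a : Y} (hne : g • a ≠ h • a) :
    b1_R L δ (g • a) (h • a) := by
  have k : 300 ≤ L.d (g • a) (h • a) := by
    by_contra c
    have e : h • a = (h * g⁻¹) • g • a := by rw [mul_smul, inv_smul_smul]
    rw [e] at c hne
    rw [hI.far _ _ (not_le.1 c), one_smul] at hne
    exact hne rfl
  exact ⟨by linarith, fun c => absurd c (by linarith)⟩

end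

theorem b1_move : ∃ δ > 0, δ ≤ 1 ∧ ∀ η, 0 < η → η ≤ 1 / 1000 → 200 * η ≤ δ →
    ∀ (Y : Type) [TopologicalSpace Y] (L : LM Y 300 η) (V : Set Y) (a : Y),
      V.Pairwise (b1_R L δ) → (∀ q ∈ V, 1 ≤ L.d a q) →
        ∃ b, L.d a b < 1 ∧ ∀ q ∈ V, b1_R L δ b q := by
  obtain ⟨N, hN⟩ := pack
  obtain ⟨τ, hτ, hav⟩ := avoid N (show (0 : ℝ) < 1 / 10 by norm_num)
  refine ⟨min 1 (τ / 4), by positivity, min_le_left _ _, fun η h0 h1 h2 Y _ L V a hV ha => ?_⟩
  have m1 : min 1 (τ / 4) ≤ 1 := min_le_left _ _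
  have m2 : min 1 (τ / 4) ≤ τ / 4 := min_le_right _ _
  generalize min 1 (τ / 4) = δ at *
  obtain ⟨f1, f2⟩ := hN Y η L h1 a {q | q ∈ V ∧ L.d a q < 131}
    (fun p hp q hq ne => (hV hp.1 hq.1 ne).1) fun p hp => by linarith [hp.2]
  obtain ⟨s, hs, hB⟩ := hav Y _ (fun q => {s | |s - ⟪L.l a, L.ψ a q⟫| < 2 * δ}) f1 f2
    fun q _ x hx y hy => by
      have k1 := abs_lt.1 (show |x - ⟪L.l a, L.ψ a q⟫| < 2 * δ from hx)
      have k2 := abs_lt.1 (show |y - ⟪L.l a, L.ψ a q⟫| < 2 * δ from hy)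
      rw [abs_le]
      constructor <;> linarith [k1.1, k1.2, k2.1, k2.2]
  have n1 : ‖s • L.l a‖ = s := by rw [norm_smul, L.unit, mul_one, Real.norm_of_nonneg hs.1]
  have n2 : ‖s • L.l a‖ < 300 := by linarith [hs.2]
  have d1 := (abs_le.1 (L.d_χ a n2)).2
  have e1 : ⟪L.l a, L.ψ a (L.χ a (s • L.l a))⟫ = s := by
    rw [L.left a _ (mem_ball_zero_iff.2 n2), real_inner_smul_right, real_inner_self_eq_norm_sq,
      L.unit, one_pow, mul_one]
  generalize L.χ a (s • L.l a) = b at *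
  have d2 : L.d a b < 1 / 2 := by linarith [hs.2]
  refine ⟨b, by linarith, fun q hq => ?_⟩
  have t1 := L.tri a b q
  refine ⟨by linarith [ha q hq], fun k => ?_⟩
  have k1 : L.d a q < 131 := by linarith
  have k2 : 2 * δ ≤ |s - ⟪L.l a, L.ψ a q⟫| := not_lt.1 (hB q ⟨hq, k1⟩)
  rcases le_abs.1 k2 with k3 | k3
  · exact Or.inl (b1_ab L h0 m1 h2 (a := a) (by linarith) (by linarith) k (by linarith))
  · exact Or.inr (b1_ab L h0 m1 h2 (a := a) (by linarith) (by linarith) (L.symm b q ▸ k)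
      (by linarith))

theorem net1 : ∃ δ > 0, δ ≤ 1 ∧ ∃ η0 > 0, ∀ η, 0 < η → η ≤ η0 → ∀ (Y : Type) [TopologicalSpace Y]
    (G : Type) [Group G] [MulAction G Y] (L : LM Y 300 η), L.Inv G →
      ∃ V : SubMulAction G Y, L.Net G V ∧ L.G2 V δ := by
  obtain ⟨δ, h0, h1, hm⟩ := b1_move
  refine ⟨δ, h0, h1, min (1 / 1000) (δ / 200), by positivity,
    fun η e0 e1 Y _ G _ _ L hI => ?_⟩
  have e2 : η ≤ 1 / 1000 := e1.trans (min_le_left _ _)
  have e3 : 200 * η ≤ δ := by linarith [e1.trans (min_le_right _ _)]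
  have key : ∀ t : Set Y, t.Finite → ∃ V : SubMulAction G Y,
      (∃ s : Set Y, s.Finite ∧ ∀ p ∈ V, ∃ g : G, g • p ∈ s) ∧ (V : Set Y).Pairwise (b1_R L δ) ∧
        ∀ a ∈ t, ∃ p ∈ V, L.d a p < 1 := by
    intro t ht
    induction t, ht using Set.Finite.induction_on with
    | empty => exact ⟨⊥, ⟨∅, finite_empty, fun p hp => hp.elim⟩, fun p hp => hp.elim,
        fun a ha => ha.elim⟩
    | @insert a t _ _ ih =>
      obtain ⟨V, ⟨s, hs, hf⟩, hp, hc⟩ := ih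
      by_cases h : ∃ p ∈ V, L.d a p < 1
      · exact ⟨V, ⟨s, hs, hf⟩, hp, forall_mem_insert.2 ⟨h, hc⟩⟩
      · push Not at h
        obtain ⟨b, hb, hR⟩ := hm η e0 e2 e3 Y L V a hp h
        have hR' : ∀ (g : G), ∀ q ∈ V, b1_R L δ (g • b) q := fun g q hq => by
          have := b1_smul L hI g (hR _ (V.smul_mem g⁻¹ hq))
          rwa [smul_inv_smul] at this
        refine ⟨⟨{p | p ∈ V ∨ ∃ g : G, p = g • b}, ?_⟩, ⟨insert b s, hs.insert b, ?_⟩, ?_,
          forall_mem_insert.2 ⟨⟨b, Or.inr ⟨1, (one_smul G b).symm⟩, hb⟩, fun c k => ?_⟩⟩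
        · rintro g p (k | ⟨h, rfl⟩)
          · exact Or.inl (V.smul_mem g k)
          · exact Or.inr ⟨g * h, (mul_smul g h b).symm⟩
        · rintro p (k | ⟨g, rfl⟩)
          · exact (hf p k).imp fun g k => Or.inr k
          · exact ⟨g⁻¹, Or.inl (inv_smul_smul g b)⟩
        · rintro p (k | ⟨g, rfl⟩) q (k' | ⟨g', rfl⟩) ne
          · exact hp k k' ne
          · exact b1_symm L (hR' g' p k)
          · exact hR' g q k'
          · exact b1_orb L hI g g' ne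
        · obtain ⟨p, k1, k2⟩ := hc c k
          exact ⟨p, Or.inl k1, k2⟩
  obtain ⟨t, ht, hc⟩ := hI.cpt
  obtain ⟨V, hf, hp, hd⟩ := key t ht
  refine ⟨V, ⟨hf, fun p k q k' ne => (hp k k' ne).1, fun y => ?_⟩,
    fun p k q k' ne => (hp k k' ne).2⟩
  obtain ⟨g, a, ha, k⟩ := hc y
  obtain ⟨p, k1, k2⟩ := hd a ha
  refine ⟨g • p, V.smul_mem g k1, ?_⟩
  have t1 := L.tri y (g • a) (g • p)
  rw [hI.d] at t1
  linarith

end Pool.Agent.Work.MP_3d425c_gt.Sm
end

-- merged part: Pool.Agent.Work.MP_3d425c_gt.Sm.B2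
section
/-! Block B2: Euclidean lemmas on almost equal powers.
`noncol`: three separated points with small weights and equal powers are not collinear: if
P 2 - P 0 = λ (P 1 - P 0) then λ (λ - 1) ‖P 1 - P 0‖² = (w 2 - w 0) - λ (w 1 - w 0), the left side is at
least (1 + |λ|)/18 and the right side at most (1 + |λ|)/50.
`sliver`: compactness (a continuous positive function on a compact set has a positive minimum): in the
exact case u - v ≠ 0 is orthogonal to all differences, the three points other than m are not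
collinear, so P m lies in their plane (dimension 3), u - u' is orthogonal to that plane, w m = w' m.
`width`: test G4 at y' = χ a (ψ a y + (3/2) • n), n a unit vector.
`centre`: n ↦ (⟪n, P i - P 0⟫) is injective, so onto. -/

namespace Pool.Agent.Work.MP_3d425c_gt.Sm
open Set Relation Metric Topology Filter
open scoped RealInnerProductSpace

theorem b2_id {ι : Type} (P : ι → E3) (w w' : ι → ℝ) (u u' : E3) (i j : ι) :
    pw P w u i - pw P w u j - (pw P w' u' i - pw P w' u' j) =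
      -2 * ⟪u - u', P i - P j⟫ - (w i - w' i) + (w j - w' j) := by
  unfold pw
  simp only [norm_sub_sq_real, inner_sub_left, inner_sub_right]
  ring

theorem noncol (P : Fin 3 → E3) (w : Fin 3 → ℝ) (u : E3) (hs : ∀ i j, i ≠ j → 1 / 3 ≤ ‖P i - P j‖)
    (hw : ∀ i, |w i| ≤ 1 / 100) (he : ∀ i j, pw P w u i = pw P w u j) :
    LinearIndependent ℝ ![P 1 - P 0, P 2 - P 0] := by
  have a1 := hs 1 0 (by decide)
  have a2 := hs 2 0 (by decide)
  have a3 := hs 2 1 (by decide)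
  rw [LinearIndependent.pair_iff' (norm_pos_iff.1 (by linarith))]
  intro t ht
  have e1 := he 1 0
  have e2 := he 2 0
  unfold pw at e1 e2
  rw [show u - P 1 = (u - P 0) - (P 1 - P 0) by abel, norm_sub_sq_real] at e1
  rw [show u - P 2 = (u - P 0) - (P 2 - P 0) by abel, norm_sub_sq_real, ← ht, inner_smul_right,
    norm_smul, mul_pow, Real.norm_eq_abs, sq_abs] at e2
  rw [show P 2 - P 1 = (P 2 - P 0) - (P 1 - P 0) by abel, ← ht,
    show t • (P 1 - P 0) - (P 1 - P 0) = (t - 1) • (P 1 - P 0) by rw [sub_smul, one_smul],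
    norm_smul, Real.norm_eq_abs] at a3
  rw [← ht, norm_smul, Real.norm_eq_abs] at a2
  generalize ‖P 1 - P 0‖ = a at *
  generalize ⟪u - P 0, P 1 - P 0⟫ = b at *
  have k : t * (t - 1) * a ^ 2 = (w 2 - w 0) - t * (w 1 - w 0) := by
    linear_combination e2 - t * e1
  have k1 : |t| * a * (|t - 1| * a) ≤ 1 / 50 + |t| * (1 / 50) := by
    have z1 : |w 2 - w 0| ≤ 1 / 50 := (abs_sub _ _).trans (by linarith [hw 2, hw 0])
    have z2 : |w 1 - w 0| ≤ 1 / 50 := (abs_sub _ _).trans (by linarith [hw 1, hw 0])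
    have z3 := abs_sub (w 2 - w 0) (t * (w 1 - w 0))
    rw [← k, abs_mul, abs_mul, abs_mul, abs_of_nonneg (sq_nonneg a)] at z3
    linarith [mul_le_mul_of_nonneg_left z2 (abs_nonneg t)]
  rcases le_total |t| 2 with c | c
  · linarith [mul_le_mul a2 a3 (by norm_num) (by linarith)]
  · linarith [mul_le_mul (mul_le_mul_of_nonneg_left a1 (abs_nonneg t)) a3 (by norm_num)
      (by linarith)]

theorem b2_le {z A B : E3} (hA : ⟪z, A⟫ = 0) (hB : ⟪z, B⟫ = 0) :
    Submodule.span ℝ (range ![A, B]) ≤ (ℝ ∙ z)ᗮ := by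
  refine Submodule.span_le.2 ?_
  rintro _ ⟨i, rfl⟩
  refine Submodule.mem_orthogonal_singleton_iff_inner_right.2 ?_
  fin_cases i
  exacts [hA, hB]

theorem b2_plane {n z A B C : E3} (hn : n ≠ 0) (h : LinearIndependent ℝ ![A, B])
    (nA : ⟪n, A⟫ = 0) (nB : ⟪n, B⟫ = 0) (nC : ⟪n, C⟫ = 0) (zA : ⟪z, A⟫ = 0) (zB : ⟪z, B⟫ = 0) :
    ⟪z, C⟫ = 0 := by
  haveI : Fact (Module.finrank ℝ E3 = 2 + 1) := ⟨by simp⟩
  have e := Submodule.eq_of_le_of_finrank_eq (b2_le nA nB) (by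
    rw [finrank_span_eq_card h, Submodule.finrank_orthogonal_span_singleton (n := 2) hn,
      Fintype.card_fin])
  exact Submodule.mem_orthogonal_singleton_iff_inner_right.1
    (b2_le zA zB (e ▸ Submodule.mem_orthogonal_singleton_iff_inner_right.2 nC))

theorem b2_exact (P : Fin 4 → E3) (w w' : Fin 4 → ℝ) (u v u' : E3) (m : Fin 4)
    (hs : ∀ i j, i ≠ j → 1 / 3 ≤ ‖P i - P j‖) (hw : ∀ i, |w i| ≤ 1 / 100)
    (he : ∀ i, i ≠ m → w i = w' i) (huv : 1 / 2 ≤ ‖u - v‖) (h1 : ∀ i j, pw P w u i = pw P w u j)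
    (h2 : ∀ i j, pw P w v i = pw P w v j) (h3 : ∀ i j, pw P w' u' i = pw P w' u' j) :
    w m = w' m := by
  have n1 : ∀ i j, ⟪u - v, P i - P j⟫ = 0 := fun i j => by
    linarith [b2_id P w w u v i j, h1 i j, h2 i j]
  have n2 : ∀ i j, ⟪u - u', P (m.succAbove i) - P (m.succAbove j)⟫ = 0 := fun i j => by
    linarith [b2_id P w w' u u' (m.succAbove i) (m.succAbove j), h1 (m.succAbove i) (m.succAbove j),
      h3 (m.succAbove i) (m.succAbove j), he _ (m.succAbove_ne i), he _ (m.succAbove_ne j)]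
  have li := noncol (fun i => P (m.succAbove i)) (fun i => w (m.succAbove i)) u
    (fun i j h => hs _ _ fun e => h (Fin.succAbove_right_injective e)) (fun i => hw _)
    fun i j => h1 _ _
  have k := b2_plane (norm_pos_iff.1 (by linarith)) li (n1 _ _) (n1 _ _) (n1 m (m.succAbove 0))
    (n2 _ _) (n2 _ _)
  linarith [b2_id P w w' u u' m (m.succAbove 0), h1 m (m.succAbove 0), h3 m (m.succAbove 0),
    he _ (m.succAbove_ne 0)]

theorem b2_cl {X : Type} [TopologicalSpace X] {ι : Sort*} {p : ι → X → Prop}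
    (h : ∀ i, IsClosed {x | p i x}) : IsClosed {x | ∀ i, p i x} := by
  rw [setOf_forall]
  exact isClosed_iInter h

theorem sliver {τ : ℝ} (hτ : 0 < τ) : ∃ δ > 0, ∀ (P : Fin 4 → E3) (w w' : Fin 4 → ℝ) (u v u' : E3)
    (m : Fin 4), (∀ i, ‖P i‖ ≤ 20) → ‖u‖ ≤ 20 → ‖v‖ ≤ 20 → ‖u'‖ ≤ 20 →
    (∀ i j, i ≠ j → 1 / 3 ≤ ‖P i - P j‖) → (∀ i, |w i| ≤ 1 / 100) → (∀ i, |w' i| ≤ 1 / 100) →
    (∀ i, i ≠ m → w i = w' i) → 1 / 2 ≤ ‖u - v‖ → (∀ i j, |pw P w u i - pw P w u j| ≤ δ) →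
    (∀ i j, |pw P w v i - pw P w v j| ≤ δ) → (∀ i j, |pw P w' u' i - pw P w' u' j| ≤ δ) →
    |w m - w' m| ≤ τ := by
  let K : Fin 4 → Set (((Fin 4 → E3) × (Fin 4 → ℝ) × (Fin 4 → ℝ)) × E3 × E3 × E3) := fun m =>
    closedBall 0 20 ∩ {x | (∀ i j, i ≠ j → 1 / 3 ≤ ‖x.1.1 i - x.1.1 j‖) ∧
      (∀ i, |x.1.2.1 i| ≤ 1 / 100) ∧ (∀ i, i ≠ m → x.1.2.1 i = x.1.2.2 i) ∧
      1 / 2 ≤ ‖x.2.1 - x.2.2.1‖ ∧ τ ≤ |x.1.2.1 m - x.1.2.2 m|}
  let f : ((Fin 4 → E3) × (Fin 4 → ℝ) × (Fin 4 → ℝ)) × E3 × E3 × E3 → ℝ := fun x =>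
    ∑ i, ∑ j, (|pw x.1.1 x.1.2.1 x.2.1 i - pw x.1.1 x.1.2.1 x.2.1 j| +
      |pw x.1.1 x.1.2.1 x.2.2.1 i - pw x.1.1 x.1.2.1 x.2.2.1 j| +
      |pw x.1.1 x.1.2.2 x.2.2.2 i - pw x.1.1 x.1.2.2 x.2.2.2 j|)
  have hK : IsCompact (⋃ m, K m) := isCompact_iUnion fun m => (isCompact_closedBall _ _).inter_right
    ((b2_cl fun i => b2_cl fun j => b2_cl fun _ => isClosed_le (by fun_prop) (by fun_prop)).and
      ((b2_cl fun i => isClosed_le (by fun_prop) (by fun_prop)).and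
        ((b2_cl fun i => b2_cl fun _ => isClosed_eq (by fun_prop) (by fun_prop)).and
          ((isClosed_le (by fun_prop) (by fun_prop)).and
            (isClosed_le (by fun_prop) (by fun_prop))))))
  have hf : Continuous f := by
    unfold f pw
    fun_prop
  obtain ⟨a, a0, ha⟩ := hK.exists_forall_le' hf.continuousOn (a := 0) fun x hx => by
    obtain ⟨m, -, k1, k2, k3, k4, k5⟩ := mem_iUnion.1 hx
    by_contra c
    have z := fun i j => (Finset.single_le_sum (fun j _ => by positivity) (Finset.mem_univ j)).trans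
      ((Finset.single_le_sum (fun i _ => Finset.sum_nonneg fun j _ => by positivity)
        (Finset.mem_univ i)).trans (not_lt.1 c))
    have e := b2_exact x.1.1 x.1.2.1 x.1.2.2 x.2.1 x.2.2.1 x.2.2.2 m k1 k2 k3 k4
      (fun i j => sub_eq_zero.1 (abs_nonpos_iff.1 (le_trans
        ((le_add_of_nonneg_right (abs_nonneg _)).trans (le_add_of_nonneg_right (abs_nonneg _)))
        (z i j))))
      (fun i j => sub_eq_zero.1 (abs_nonpos_iff.1 (le_trans
        ((le_add_of_nonneg_left (abs_nonneg _)).trans (le_add_of_nonneg_right (abs_nonneg _)))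
        (z i j))))
      fun i j => sub_eq_zero.1 (abs_nonpos_iff.1 (le_trans
        (le_add_of_nonneg_left (by positivity)) (z i j)))
    rw [e, sub_self, abs_zero] at k5
    linarith
  refine ⟨a / 49, by positivity, fun P w w' u v u' m h1 h2 h3 h4 h5 h6 h7 h8 h9 g1 g2 g3 => ?_⟩
  by_contra c
  have z := ha ((P, w, w'), u, v, u') (mem_iUnion.2 ⟨m, ?_, h5, h6, h8, h9, (not_le.1 c).le⟩)
  · have y : f ((P, w, w'), u, v, u') ≤ ∑ _i : Fin 4, ∑ _j : Fin 4, 3 * (a / 49) :=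
      Finset.sum_le_sum fun i _ => Finset.sum_le_sum fun j _ => by
        linarith [g1 i j, g2 i j, g3 i j]
    simp only [Finset.sum_const, Finset.card_univ, Fintype.card_fin, nsmul_eq_mul,
      Nat.cast_ofNat] at y
    linarith
  · simp only [mem_closedBall_zero_iff, norm_prod_le_iff,
      pi_norm_le_iff_of_nonneg (show (0 : ℝ) ≤ 20 by norm_num), Real.norm_eq_abs]
    exact ⟨⟨h1, fun i => by linarith [h6 i], fun i => by linarith [h7 i]⟩, h2, h3, h4⟩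

/-- powers on `Y` and in a chart -/
theorem LM.pw_close {Y : Type} [TopologicalSpace Y] {η : ℝ} (L : LM Y 300 η) (h1 : η ≤ 1 / 1000)
    (a : Y) {u : E3} (hu : ‖u‖ < 300) {y : Y} (hy : L.d a y < 299) (h6 : L.d (L.χ a u) y ≤ 5) :
    |L.d (L.χ a u) y ^ 2 - ‖u - L.ψ a y‖ ^ 2| ≤ 11 * η := by
  have k := L.d_χψ a hu (y := y) (by linarith)
  have k0 := L.nonneg (L.χ a u) y
  rw [sq_sub_sq, abs_mul, abs_of_nonneg (add_nonneg k0 (norm_nonneg _))]
  exact mul_le_mul (by linarith [(abs_le.1 k).1]) k (abs_nonneg _) (by norm_num)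

theorem LM.width {Y : Type} [TopologicalSpace Y] {η δ : ℝ} (L : LM Y 300 η) (hη : 0 < η)
    (h1 : η ≤ 1 / 1000) (hδ : 200 * η ≤ δ) (w : Y → ℝ) (p : Fin 4 → Y)
    (h4 : ∀ y y', (∀ i, L.d y (p i) ≤ 3) → (∀ i, L.d y' (p i) ≤ 5) → 1 ≤ L.d y y' →
      L.NE w δ y p → ¬ L.NE w δ y' p) (a y : Y) (hy : ∀ i, L.d y (p i) ≤ 3) (ha : L.d a y < 100)
    (hn : L.NE w (δ / 4) y p) (n : E3) :
    ∃ i j, δ / 8 * ‖n‖ ≤ |⟪n, L.ψ a (p i) - L.ψ a (p j)⟫| := by
  rcases eq_or_ne n 0 with rfl | n0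
  · exact ⟨0, 0, by simp⟩
  have n1 : 0 < ‖n‖ := norm_pos_iff.2 n0
  obtain ⟨e, he⟩ : ∃ e : E3, e = (3 / 2 / ‖n‖) • n := ⟨_, rfl⟩
  have e1 : ‖e‖ = 3 / 2 := by
    rw [he, norm_smul, Real.norm_of_nonneg (by positivity), div_mul_cancel₀ _ n1.ne']
  have u1 : ‖L.ψ a y‖ < 101 := by linarith [(abs_le.1 (L.norm_ψ a (y := y) (by linarith))).1]
  have u2 : ‖L.ψ a y + e‖ < 300 := by linarith [norm_add_le (L.ψ a y) e]
  have r := (L.right a y (by linarith)).2
  have d1 := abs_le.1 (L.d_χψ a u2 (y := y) (by linarith))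
  rw [add_sub_cancel_left, e1] at d1
  have d2 : ∀ i, L.d (L.χ a (L.ψ a y + e)) (p i) ≤ 5 := fun i => by
    linarith [L.tri (L.χ a (L.ψ a y + e)) y (p i), hy i]
  have d3 : ∀ i, L.d a (p i) < 299 := fun i => by linarith [L.tri a y (p i), hy i]
  have k := h4 y _ hy d2 (by rw [L.symm]; linarith) fun i j => (hn i j).trans (by linarith)
  unfold LM.NE at k
  push Not at k
  obtain ⟨i, j, k⟩ := k
  refine ⟨i, j, ?_⟩
  have c1 := fun i => abs_le.1 (L.pw_close h1 a u2 (d3 i) (d2 i))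
  have c2 := fun i => abs_le.1 (L.pw_close h1 a (u := L.ψ a y) (by linarith) (d3 i)
    (by rw [r]; linarith [hy i]))
  rw [r] at c2
  have c3 := abs_le.1 (hn i j)
  have c4 := b2_id (fun i => L.ψ a (p i)) (fun i => w (p i)) (fun i => w (p i)) (L.ψ a y + e)
    (L.ψ a y) i j
  rw [add_sub_cancel_left] at c4
  have c5 : ⟪e, L.ψ a (p i) - L.ψ a (p j)⟫ * ‖n‖ = 3 / 2 * ⟪n, L.ψ a (p i) - L.ψ a (p j)⟫ := by
    rw [he, real_inner_smul_left]
    field_simp
  have c6 : 3 / 16 * δ ≤ |⟪e, L.ψ a (p i) - L.ψ a (p j)⟫| := by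
    unfold pw at c4
    rcases lt_abs.1 k with k | k
    · exact le_abs.2 (Or.inr (by linarith [c1 i, c1 j, c2 i, c2 j]))
    · exact le_abs.2 (Or.inl (by linarith [c1 i, c1 j, c2 i, c2 j]))
  have c7 := congrArg abs c5
  rw [abs_mul, abs_mul, abs_of_pos n1, abs_of_pos (by norm_num : (0 : ℝ) < 3 / 2)] at c7
  linarith [mul_le_mul_of_nonneg_right c6 n1.le]

theorem centre (P : Fin 4 → E3) (w : Fin 4 → ℝ) (u : E3) {c θ : ℝ} (hc : 0 < c)
    (hw : ∀ n : E3, ∃ i j, c * ‖n‖ ≤ |⟪n, P i - P j⟫|)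
    (hθ : ∀ i j, |pw P w u i - pw P w u j| ≤ θ) :
    ∃ u', c * ‖u' - u‖ ≤ θ / 2 ∧ ∀ i j, pw P w u' i = pw P w u' j := by
  let f : E3 →ₗ[ℝ] (Fin 3 → ℝ) := LinearMap.pi fun i => innerₛₗ ℝ (P i.succ - P 0)
  have hf : ∀ z i, f z i = ⟪z, P i.succ - P 0⟫ := fun z i => by
    rw [real_inner_comm]
    rfl
  have sp : ∀ (z : E3) i j, ⟪z, P i - P j⟫ = ⟪z, P i - P 0⟫ - ⟪z, P j - P 0⟫ := fun z i j => by
    rw [← inner_sub_right, sub_sub_sub_cancel_right]
  have inj : Function.Injective f := (injective_iff_map_eq_zero f).2 fun z hz => by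
    have a : ∀ i, ⟪z, P i - P 0⟫ = 0 := Fin.cases (by simp) fun i => by rw [← hf, hz]; rfl
    obtain ⟨i, j, k⟩ := hw z
    rw [sp, a, a, sub_self, abs_zero] at k
    exact norm_le_zero_iff.1 (le_of_mul_le_mul_left (by linarith) hc)
  obtain ⟨z, hz⟩ := (LinearMap.injective_iff_surjective_of_finrank_eq_finrank (by simp)).1 inj
    fun i => (pw P w u i.succ - pw P w u 0) / 2
  have a : ∀ i, ⟪z, P i - P 0⟫ = (pw P w u i - pw P w u 0) / 2 :=
    Fin.cases (by simp) fun i => by rw [← hf, hz]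
  refine ⟨u + z, ?_, fun i j => ?_⟩
  · obtain ⟨i, j, k⟩ := hw z
    rw [sp, a, a, ← sub_div, sub_sub_sub_cancel_right, abs_div, abs_two] at k
    rw [add_sub_cancel_left]
    linarith [hθ i j]
  · have k := b2_id P w w (u + z) u i j
    rw [add_sub_cancel_left, sp, a, a] at k
    linarith

end Pool.Agent.Work.MP_3d425c_gt.Sm
end

-- merged part: Pool.Agent.Work.MP_3d425c_gt.Sm.B3
section
/-! Block B3: the weights. Plan: N from `pack`, τ from `avoid (N^4 + N^5) (1/100)`, δ4 = half the δ of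
`sliver τ`, δ5 and η0 small against δ4 τ. Induction over finite sets O of orbits of V (Net.fin):
there is an invariant w, |w| ≤ 1/100, such that G4 and G5 hold for all tuples with orbits in O. New
orbit with representative v: change w on that orbit to t. A tuple p meeting the orbit can be
translated so that p m = v; the other points are at distance ≤ 6 from v, so in other orbits
(Inv.far), and there are at most N^4 + N^5 such tuples. For each the bad t form a set of diameter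
≤ τ: by `sliver` in the chart at v for 4-tuples; for 5-tuples the base p ∘ m.succAbove satisfies G4
already, `width` gives (δ4/8) ‖u - u'‖ ≤ δ5 + 22 η for the two centres, so
|t - t'| ≤ 2 (δ5 + 22 η) + 13 ‖u - u'‖. -/

namespace Pool.Agent.Work.MP_3d425c_gt.Sm
open Set Relation Metric Topology Filter
open scoped RealInnerProductSpace

section
variable {Y : Type} [TopologicalSpace Y] {η : ℝ} (L : LM Y 300 η)

/-- the condition on one tuple of four points -/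
def b3_G4 (w : Y → ℝ) (δ : ℝ) (p : Fin 4 → Y) : Prop :=
  ∀ y y', (∀ i, L.d y (p i) ≤ 3) → (∀ i, L.d y' (p i) ≤ 5) → 1 ≤ L.d y y' →
    L.NE w δ y p → ¬ L.NE w δ y' p

/-- the condition on one tuple of five points -/
def b3_G5 (w : Y → ℝ) (δ : ℝ) (p : Fin 5 → Y) : Prop :=
  ∀ y, (∀ i, L.d y (p i) ≤ 3) → ¬ L.NE w δ y p

theorem b3_congr {n : ℕ} {w w' : Y → ℝ} {δ : ℝ} {p : Fin n → Y} (h : ∀ i, w (p i) = w' (p i))
    (y : Y) : L.NE w δ y p ↔ L.NE w' δ y p := by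
  simp only [LM.NE, h]

theorem b3_six {n : ℕ} {p : Fin n → Y} {y : Y} (h : ∀ i, L.d y (p i) ≤ 3) (m i : Fin n) :
    L.d (p m) (p i) ≤ 6 := by
  have h1 := L.tri (p m) y (p i)
  rw [L.symm (p m) y] at h1
  linarith [h m, h i]

theorem b3_pw (h1 : η ≤ 1 / 1000) {n : ℕ} {p : Fin n → Y} {m : Fin n}
    (h6 : ∀ i, L.d (p m) (p i) ≤ 6) {y : Y} (h : ∀ i, L.d y (p i) ≤ 5) {w : Y → ℝ} {δ : ℝ}
    (hn : L.NE w δ y p) (i j : Fin n) :
    |pw (fun i => L.ψ (p m) (p i)) (fun i => w (p i)) (L.ψ (p m) y) i -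
      pw (fun i => L.ψ (p m) (p i)) (fun i => w (p i)) (L.ψ (p m) y) j| ≤ δ + 22 * η := by
  have hy := L.right (p m) y (by rw [L.symm]; linarith [h m])
  have k : ∀ i, |L.d y (p i) ^ 2 - ‖L.ψ (p m) y - L.ψ (p m) (p i)‖ ^ 2| ≤ 11 * η := fun i => by
    have := L.pw_close h1 (p m) (mem_ball_zero_iff.1 hy.1) (y := p i) (by linarith [h6 i])
      (by rw [hy.2]; exact h i)
    rwa [hy.2] at this
  have a := abs_le.1 (k i)
  have b := abs_le.1 (k j)
  have c := abs_le.1 (hn i j)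
  simp only [pw]
  exact abs_le.2 ⟨by linarith [a.1, b.2, c.1, a.2, b.1, c.2],
    by linarith [a.1, b.2, c.1, a.2, b.1, c.2]⟩

theorem b3_norm (h1 : η ≤ 1 / 1000) {a y : Y} (h : L.d a y ≤ 6) : ‖L.ψ a y‖ ≤ 13 / 2 := by
  have := abs_le.1 (L.norm_ψ a (y := y) (by linarith))
  linarith [this.1]

theorem b3_id {ι : Type} (P : ι → E3) (w w' : ι → ℝ) (u u' : E3) (i j : ι) :
    (pw P w u i - pw P w u j) - (pw P w' u' i - pw P w' u' j) =
      -2 * ⟪u - u', P i - P j⟫ - (w i - w' i) + (w j - w' j) := by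
  simp only [pw, norm_sub_sq_real, inner_sub_left, inner_sub_right]
  ring

theorem b3_four {δ τ : ℝ} (h1 : η ≤ 1 / 1000) (hη : 44 * η ≤ δ)
    (hs : ∀ (P : Fin 4 → E3) (w w' : Fin 4 → ℝ) (u v u' : E3)
    (m : Fin 4), (∀ i, ‖P i‖ ≤ 20) → ‖u‖ ≤ 20 → ‖v‖ ≤ 20 → ‖u'‖ ≤ 20 →
    (∀ i j, i ≠ j → 1 / 3 ≤ ‖P i - P j‖) → (∀ i, |w i| ≤ 1 / 100) → (∀ i, |w' i| ≤ 1 / 100) →
    (∀ i, i ≠ m → w i = w' i) → 1 / 2 ≤ ‖u - v‖ → (∀ i j, |pw P w u i - pw P w u j| ≤ δ) →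
    (∀ i j, |pw P w v i - pw P w v j| ≤ δ) → (∀ i j, |pw P w' u' i - pw P w' u' j| ≤ δ) →
    |w m - w' m| ≤ τ) {p : Fin 4 → Y} (sep : ∀ i j, i ≠ j → 1 / 2 ≤ L.d (p i) (p j))
    {w w' : Y → ℝ} (hw : ∀ y, |w y| ≤ 1 / 100) (hw' : ∀ y, |w' y| ≤ 1 / 100) (m : Fin 4)
    (e : ∀ i, i ≠ m → w (p i) = w' (p i)) (b : ¬ b3_G4 L w (δ / 2) p)
    (b' : ¬ b3_G4 L w' (δ / 2) p) : |w (p m) - w' (p m)| ≤ τ := by
  simp only [b3_G4, not_forall, not_not] at b b'
  obtain ⟨y, y', a1, a2, a3, a4, a5⟩ := b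
  obtain ⟨z, -, c1, -, -, c4, -⟩ := b'
  have h6 := b3_six L a1 m
  have d1 : L.d (p m) y ≤ 6 := by rw [L.symm]; linarith [a1 m]
  have d2 : L.d (p m) y' ≤ 6 := by rw [L.symm]; linarith [a2 m]
  have d3 : L.d (p m) z ≤ 6 := by rw [L.symm]; linarith [c1 m]
  refine hs (fun i => L.ψ (p m) (p i)) (fun i => w (p i)) (fun i => w' (p i)) (L.ψ (p m) y)
    (L.ψ (p m) y') (L.ψ (p m) z) m (fun i => by linarith [b3_norm L h1 (h6 i)])
    (by linarith [b3_norm L h1 d1]) (by linarith [b3_norm L h1 d2])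
    (by linarith [b3_norm L h1 d3]) (fun i j k => ?_) (fun i => hw _) (fun i => hw' _) e ?_
    (fun i j => (b3_pw L h1 h6 (fun i => by linarith [a1 i]) a4 i j).trans (by linarith))
    (fun i j => (b3_pw L h1 h6 a2 a5 i j).trans (by linarith))
    (fun i j => (b3_pw L h1 h6 (fun i => by linarith [c1 i]) c4 i j).trans (by linarith))
  · have := abs_le.1 (L.d_ψ (p m) (x := p i) (y := p j) (by linarith [h6 i]) (by linarith [h6 j]))
    linarith [this.2, sep i j k]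
  · have := abs_le.1 (L.d_ψ (p m) (x := y) (y := y') (by linarith) (by linarith))
    linarith [this.2]

theorem b3_five {δ4 δ5 τ : ℝ} (h0 : 0 < η) (h1 : η ≤ 1 / 1000) (h2 : 200 * η ≤ δ4)
    (h3 : 22 * η ≤ δ5) (h4 : δ5 ≤ δ4 / 4) (h5 : δ5 ≤ τ / 8) (h7 : δ5 ≤ δ4 * τ / 416)
    {p : Fin 5 → Y} {w w' w0 : Y → ℝ} (m : Fin 5)
    (e : ∀ i, w (p (m.succAbove i)) = w0 (p (m.succAbove i)))
    (e' : ∀ i, w' (p (m.succAbove i)) = w0 (p (m.succAbove i)))
    (g : b3_G4 L w0 δ4 fun i => p (m.succAbove i)) (b : ¬ b3_G5 L w δ5 p)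
    (b' : ¬ b3_G5 L w' δ5 p) : |w (p m) - w' (p m)| ≤ τ := by
  simp only [b3_G5, not_forall, not_not] at b b'
  obtain ⟨y, a1, a2⟩ := b
  obtain ⟨z, c1, c2⟩ := b'
  have h6 := b3_six L a1 m
  have k1 := b3_pw L h1 h6 (fun i => by linarith [a1 i]) a2
  have k2 := b3_pw L h1 h6 (fun i => by linarith [c1 i]) c2
  obtain ⟨i, j, k3⟩ := L.width h0 h1 h2 w0 _ g (p m) y (fun i => a1 _)
    (by rw [L.symm]; linarith [a1 m])
    ((b3_congr L e y).1 fun i j => (a2 _ _).trans h4) (L.ψ (p m) y - L.ψ (p m) z)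
  have id := b3_id (fun i => L.ψ (p m) (p i)) (fun i => w (p i)) (fun i => w' (p i))
    (L.ψ (p m) y) (L.ψ (p m) z)
  have i1 := id (m.succAbove i) (m.succAbove j)
  have i2 := id m (m.succAbove 0)
  simp only [e, e'] at i1 i2
  have l1 := abs_le.1 (k1 (m.succAbove i) (m.succAbove j))
  have l2 := abs_le.1 (k2 (m.succAbove i) (m.succAbove j))
  have l3 := abs_le.1 (k1 m (m.succAbove 0))
  have l4 := abs_le.1 (k2 m (m.succAbove 0))
  have n1 : δ4 / 8 * ‖L.ψ (p m) y - L.ψ (p m) z‖ ≤ 2 * δ5 :=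
    k3.trans (abs_le.2 ⟨by linarith [l1.1, l1.2, l2.1, l2.2], by linarith [l1.1, l1.2, l2.1, l2.2]⟩)
  have n2 : ‖L.ψ (p m) y - L.ψ (p m) z‖ ≤ τ / 26 :=
    le_of_mul_le_mul_left (a := δ4 / 8) (by linarith) (by linarith)
  have n3 : ‖L.ψ (p m) (p m) - L.ψ (p m) (p (m.succAbove 0))‖ ≤ 13 / 2 := by
    rw [L.ψ_self (by norm_num), zero_sub, norm_neg]
    exact b3_norm L h1 (h6 _)
  have n4 := abs_le.1 ((abs_real_inner_le_norm (L.ψ (p m) y - L.ψ (p m) z) _).trans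
    (mul_le_mul n2 n3 (norm_nonneg _) (by linarith)))
  exact abs_le.2 ⟨by linarith [l3.1, l3.2, l4.1, l4.2, n4.1, n4.2],
    by linarith [l3.1, l3.2, l4.1, l4.2, n4.1, n4.2]⟩

variable {G : Type} [Group G] [MulAction G Y]

theorem b3_mv (hI : L.Inv G) {w : Y → ℝ} (hw : ∀ (g : G) p, w (g • p) = w p) (g : G) {n : ℕ}
    (δ : ℝ) (y : Y) (p : Fin n → Y) : L.NE w δ (g • y) (fun i => g • p i) ↔ L.NE w δ y p := by
  simp only [LM.NE, hI.d, hw]

theorem b3_mv4 (hI : L.Inv G) {w : Y → ℝ} (hw : ∀ (g : G) p, w (g • p) = w p) (g : G) {δ : ℝ}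
    {p : Fin 4 → Y} (h : b3_G4 L w δ fun i => g • p i) : b3_G4 L w δ p := by
  intro y y' a1 a2 a3 a4 a5
  exact h (g • y) (g • y') (fun i => by rw [hI.d]; exact a1 i) (fun i => by rw [hI.d]; exact a2 i)
    (by rw [hI.d]; exact a3) ((b3_mv L hI hw g δ y p).2 a4) ((b3_mv L hI hw g δ y' p).2 a5)

theorem b3_mv5 (hI : L.Inv G) {w : Y → ℝ} (hw : ∀ (g : G) p, w (g • p) = w p) (g : G) {δ : ℝ}
    {p : Fin 5 → Y} (h : b3_G5 L w δ fun i => g • p i) : b3_G5 L w δ p := by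
  intro y a1 a2
  exact h (g • y) (fun i => by rw [hI.d]; exact a1 i) ((b3_mv L hI hw g δ y p).2 a2)

/-- tuples of distinct points of `V` with orbits that meet `t` -/
def b3_T (V : SubMulAction G Y) (t : Set Y) {n : ℕ} (p : Fin n → Y) : Prop :=
  Function.Injective p ∧ (∀ i, p i ∈ V) ∧ ∀ i, ∃ g : G, g • p i ∈ t

omit [TopologicalSpace Y] in
theorem b3_T.mv {V : SubMulAction G Y} {t : Set Y} {n : ℕ} {p : Fin n → Y} (h : b3_T V t p)
    (g : G) : b3_T V t fun i => g • p i :=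
  ⟨(MulAction.injective g).comp h.1, fun i => V.smul_mem g (h.2.1 i), fun i =>
    (h.2.2 i).elim fun g' k => ⟨g' * g⁻¹, by rwa [mul_smul, inv_smul_smul]⟩⟩

omit [TopologicalSpace Y] in
theorem b3_T.old {V : SubMulAction G Y} {t : Set Y} {v : Y} {n : ℕ} {p : Fin n → Y}
    (h : b3_T V (insert v t) p) (k : ∀ i, ¬ ∃ g : G, g • p i = v) : b3_T V t p :=
  ⟨h.1, h.2.1, fun i => (h.2.2 i).imp fun g a => a.resolve_left fun b => k i ⟨g, b⟩⟩

theorem b3_far (hI : L.Inv G) {n : ℕ} {p : Fin n → Y} (h : Function.Injective p) {m i : Fin n}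
    (hd : L.d (p m) (p i) < 299) (hi : i ≠ m) : ¬ ∃ g : G, g • p i = p m := by
  rintro ⟨g, e⟩
  have := hI.far g (p i) (by rw [e, L.symm]; linarith)
  rw [this, one_smul] at e
  exact hi (h e)

end

theorem net2 : ∃ δ4 > 0, ∃ δ5 > 0, ∃ η0 > 0, ∀ η, 0 < η → η ≤ η0 →
    ∀ (Y : Type) [TopologicalSpace Y] (G : Type) [Group G] [MulAction G Y] (L : LM Y 300 η),
      L.Inv G → ∀ V : SubMulAction G Y, L.Net G V → ∃ w : Y → ℝ, (∀ (g : G) p, w (g • p) = w p) ∧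
        (∀ p, |w p| ≤ 1 / 100) ∧ L.G4 V w δ4 ∧ L.G5 V w δ5 := by
  classical
  obtain ⟨N, hN⟩ := pack
  obtain ⟨τ, τ0, hτ⟩ := avoid (N ^ 4 + N ^ 5) (show (0 : ℝ) < 1 / 100 by norm_num)
  obtain ⟨δ, δ0, hδ⟩ := sliver τ0
  obtain ⟨δ5, p0, p1, p2, p3⟩ : ∃ δ5 : ℝ, 0 < δ5 ∧ δ5 ≤ δ / 2 / 4 ∧ δ5 ≤ τ / 8 ∧
      δ5 ≤ δ / 2 * τ / 416 :=
    ⟨min (δ / 2 / 4) (min (τ / 8) (δ / 2 * τ / 416)), by positivity, min_le_left _ _,
      (min_le_right _ _).trans (min_le_left _ _), (min_le_right _ _).trans (min_le_right _ _)⟩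
  refine ⟨δ / 2, by positivity, δ5, p0, min (1 / 1000) (δ5 / 100), by positivity,
    fun η η0 hη Y _ G _ _ L hI V hV => ?_⟩
  have h1 := hη.trans (min_le_left _ _)
  have h2 := hη.trans (min_le_right _ _)
  have key : ∀ t : Set Y, t.Finite → ∃ w : Y → ℝ, (∀ (g : G) p, w (g • p) = w p) ∧
      (∀ p, |w p| ≤ 1 / 100) ∧ (∀ p, b3_T V t p → b3_G4 L w (δ / 2) p) ∧
      ∀ p, b3_T V t p → b3_G5 L w δ5 p := by
    intro t ht
    induction t, ht using Set.Finite.induction_on with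
    | empty =>
      exact ⟨fun _ => 0, fun _ _ => rfl, fun _ => by norm_num,
        fun p h => (h.2.2 0).elim fun _ k => k.elim, fun p h => (h.2.2 0).elim fun _ k => k.elim⟩
    | @insert v t _ _ ih =>
      obtain ⟨w, w1, w2, w4, w5⟩ := ih
      obtain ⟨W, W1, W2⟩ : ∃ W : ℝ → Y → ℝ, (∀ s y, (∃ g : G, g • y = v) → W s y = s) ∧
          ∀ s y, (¬ ∃ g : G, g • y = v) → W s y = w y :=
        ⟨fun s y => if ∃ g : G, g • y = v then s else w y, fun _ _ h => if_pos h,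
          fun _ _ h => if_neg h⟩
      have W3 : ∀ s (g : G) p, W s (g • p) = W s p := fun s g p => by
        by_cases h : ∃ g : G, g • p = v
        · rw [W1 s p h, W1 s _ (h.elim fun g' k => ⟨g' * g⁻¹, by rwa [mul_smul, inv_smul_smul]⟩)]
        · rw [W2 s p h, W2 s _ fun ⟨g', k⟩ => h ⟨g' * g, by rwa [mul_smul]⟩, w1]
      have W4 : ∀ s ∈ Icc (0 : ℝ) (1 / 100), ∀ y, |W s y| ≤ 1 / 100 := fun s hs y => by
        by_cases h : ∃ g : G, g • y = v
        · rw [W1 s y h, abs_of_nonneg hs.1]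
          exact hs.2
        · rw [W2 s y h]
          exact w2 y
      have W5 : ∀ s, W s v = s := fun s => W1 s v ⟨1, one_smul _ _⟩
      obtain ⟨f1, f2⟩ := hN Y η L h1 v {q | q ∈ V ∧ L.d v q < 299}
        (fun p hp q hq => hV.sep p hp.1 q hq.1) fun p hp => hp.2
      rw [ncard_eq_toFinset_card _ f1] at f2
      have mem : ∀ {n : ℕ} (p : Fin n → Y), p ∈ Fintype.piFinset (fun _ : Fin n => f1.toFinset) ↔
          ∀ i, p i ∈ V ∧ L.d v (p i) < 299 := fun p => by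
        simp only [Fintype.mem_piFinset, Finite.mem_toFinset, mem_setOf_eq]
      obtain ⟨s, hs, hB⟩ := hτ ((Fin 4 → Y) ⊕ (Fin 5 → Y))
        ↑((Fintype.piFinset fun _ : Fin 4 => f1.toFinset).disjSum
          (Fintype.piFinset fun _ : Fin 5 => f1.toFinset))
        (Sum.elim
          (fun p => {s | s ∈ Icc (0 : ℝ) (1 / 100) ∧ b3_T V (insert v t) p ∧ (∃ m, p m = v) ∧
            ¬ b3_G4 L (W s) (δ / 2) p})
          fun p => {s | s ∈ Icc (0 : ℝ) (1 / 100) ∧ b3_T V (insert v t) p ∧ (∃ m, p m = v) ∧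
            ¬ b3_G5 L (W s) δ5 p})
        (Finset.finite_toSet _)
        (by
          rw [ncard_coe_finset, Finset.card_disjSum, Fintype.card_piFinset_const,
            Fintype.card_piFinset_const]
          exact add_le_add (Nat.pow_le_pow_left f2 4) (Nat.pow_le_pow_left f2 5))
        (by
          rintro (p | p) hp s ⟨a1, a2, ⟨m, rfl⟩, a4⟩ s' ⟨c1, -, -, c4⟩
          · have hp' := (mem p).1 (Finset.inl_mem_disjSum.1 hp)
            have := b3_four L h1 (by linarith) hδ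
              (fun i j k => hV.sep _ (a2.2.1 i) _ (a2.2.1 j) (a2.1.ne k)) (W4 s a1) (W4 s' c1) m
              (fun i k => by
                rw [W2 s _ (b3_far L hI a2.1 (hp' i).2 k), W2 s' _ (b3_far L hI a2.1 (hp' i).2 k)])
              a4 c4
            rwa [W5, W5] at this
          · have hp' := (mem p).1 (Finset.inr_mem_disjSum.1 hp)
            have far := fun i => b3_far L hI a2.1 (hp' (m.succAbove i)).2 (m.succAbove_ne i)
            have := b3_five L η0 h1 (by linarith) (by linarith) p1 p2 p3 m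
              (fun i => W2 s _ (far i)) (fun i => W2 s' _ (far i))
              (w4 _ (b3_T.old ⟨a2.1.comp Fin.succAbove_right_injective, fun i => a2.2.1 _,
                fun i => a2.2.2 _⟩ far)) a4 c4
            rwa [W5, W5] at this)
      refine ⟨W s, W3 s, W4 s hs, fun p hp => ?_, fun p hp => ?_⟩
      · by_cases h : ∃ m, ∃ g : G, g • p m = v
        · obtain ⟨m, g, e⟩ := h
          refine b3_mv4 L hI (W3 s) g fun y y' a1 a2 a3 a4 a5 => ?_
          refine hB (Sum.inl fun i => g • p i) (Finset.inl_mem_disjSum.2 ((mem _).2 fun i =>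
            ⟨(hp.mv g).2.1 i, ?_⟩)) ⟨hs, hp.mv g, ⟨m, e⟩, fun k => k y y' a1 a2 a3 a4 a5⟩
          have := b3_six L a1 m i
          rw [e] at this
          linarith
        · have k : ∀ i, ¬ ∃ g : G, g • p i = v := fun i a => h ⟨i, a⟩
          intro y y' a1 a2 a3 a4 a5
          exact w4 p (hp.old k) y y' a1 a2 a3 ((b3_congr L (fun i => W2 s _ (k i)) y).1 a4)
            ((b3_congr L (fun i => W2 s _ (k i)) y').1 a5)
      · by_cases h : ∃ m, ∃ g : G, g • p m = v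
        · obtain ⟨m, g, e⟩ := h
          refine b3_mv5 L hI (W3 s) g fun y a1 a2 => ?_
          refine hB (Sum.inr fun i => g • p i) (Finset.inr_mem_disjSum.2 ((mem _).2 fun i =>
            ⟨(hp.mv g).2.1 i, ?_⟩)) ⟨hs, hp.mv g, ⟨m, e⟩, fun k => k y a1 a2⟩
          have := b3_six L a1 m i
          rw [e] at this
          linarith
        · have k : ∀ i, ¬ ∃ g : G, g • p i = v := fun i a => h ⟨i, a⟩
          intro y a1 a2
          exact w5 p (hp.old k) y a1 ((b3_congr L (fun i => W2 s _ (k i)) y).1 a2)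
  obtain ⟨t, ht, hc⟩ := hV.fin
  obtain ⟨w, w1, w2, w4, w5⟩ := key t ht
  exact ⟨w, w1, w2, fun p a b => w4 p ⟨a, b, fun i => hc _ (b i)⟩,
    fun p a b => w5 p ⟨a, b, fun i => hc _ (b i)⟩⟩

end Pool.Agent.Work.MP_3d425c_gt.Sm
end

-- merged part: Pool.Agent.Work.MP_3d425c_gt.Sm.C
section
/-! Block C: from the margins to exact statements in every chart. Plan. eu: fin by `pack`; gen: five
nearest points are within 2 of u (den), have equal powers, so NE (22 η) at χ a u, against G5.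
ht: if Ab δ2 p q and ⟪l, P p - P q⟫ < δ2/4, then z = χ a (P p - (δ2/2) • l) has d z p ≤ δ2 and
H a z < H a q by the cone, against Ab and compat; so |⟪l, P p - P q⟫| ≥ δ2/4 > 121 η.
trans: y = χ a u, σ = {p 0..p 3}, NE (22 η) y p; `width` and `centre` in the chart b give an exact
centre u' within C η / δ4 of ψ b y. For q ∈ S b outside σ: if d y q > 2.6 its power is larger
outright; otherwise q ∈ S a, so pw u' q - pw u' (p 0) ≥ - κ, κ small, and G5 for (p, q) at χ b u'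
gives |pw u' q - pw u' (p 0)| > δ5 - 22 η > κ. -/

namespace Pool.Agent.Work.MP_3d425c_gt.Sm
open Set Relation Metric Topology Filter
open scoped RealInnerProductSpace

theorem c_enum {ι : Type} {s : Set ι} {n : ℕ} (h : s.ncard = n + 1) :
    ∃ p : Fin (n + 1) → ι, Function.Injective p ∧ range p = s := by
  have hf : s.Finite := finite_of_ncard_ne_zero (by omega)
  have : Finite s := hf
  let e : s ≃ Fin (n + 1) := Finite.equivFinOfCardEq (by rw [Nat.card_coe_set_eq, h])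
  refine ⟨fun i => (e.symm i).1, Subtype.val_injective.comp e.symm.injective, ?_⟩
  ext x
  constructor
  · rintro ⟨i, rfl⟩
    exact (e.symm i).2
  · intro hx
    exact ⟨e ⟨x, hx⟩, by simp⟩

theorem c_move (u v P Q : E3) :
    |(‖v - Q‖ ^ 2 - ‖v - P‖ ^ 2) - (‖u - Q‖ ^ 2 - ‖u - P‖ ^ 2)| ≤ 2 * (‖v - u‖ * ‖P - Q‖) := by
  have e : (‖v - Q‖ ^ 2 - ‖v - P‖ ^ 2) - (‖u - Q‖ ^ 2 - ‖u - P‖ ^ 2) = 2 * ⟪v - u, P - Q⟫ := by
    simp only [norm_sub_sq_real, inner_sub_left, inner_sub_right]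
    ring
  rw [e, abs_mul, abs_two]
  have := abs_real_inner_le_norm (v - u) (P - Q)
  linarith

section
variable {Y : Type} [TopologicalSpace Y] {η : ℝ} (L : LM Y 300 η) {G : Type} [Group G]
  [MulAction G Y] {V : SubMulAction G Y} {w : Y → ℝ}

theorem c_den (h1 : η ≤ 1 / 1000) (hn : L.Net G V) (a : Y) {u : E3} (hu : ‖u‖ < 50) :
    ∃ q ∈ L.S V a, ‖u - L.P V a q‖ < 3 / 2 := by
  obtain ⟨p, hp, hd⟩ := hn.den (L.χ a u)
  have h2 := abs_le.1 (L.d_χ a (u := u) (by linarith))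
  have h3 := L.tri a (L.χ a u) p
  have h4 : L.d a p < 60 := by linarith [h2.2]
  refine ⟨⟨p, hp⟩, h4, ?_⟩
  have h5 := abs_le.1 (L.d_χψ a (u := u) (by linarith) (y := p) (by linarith))
  show ‖u - L.ψ a p‖ < 3 / 2
  linarith [h5.1]

theorem c_near (h1 : η ≤ 1 / 1000) (hn : L.Net G V) (hw : ∀ p, |w p| ≤ 1 / 100) (a : Y) {u : E3}
    (hu : ‖u‖ < 50) {p : V} (hp : p ∈ L.N V w a u) : L.d (L.χ a u) p.1 ≤ 2 := by
  obtain ⟨q, hq, hd⟩ := c_den L h1 hn a hu
  have h2 : ‖u - L.ψ a p.1‖ ^ 2 - w p.1 ≤ ‖u - L.P V a q‖ ^ 2 - w q.1 := hp.2 q hq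
  have h3 : L.d a p.1 < 60 := hp.1
  have h4 := abs_le.1 (hw p.1)
  have h5 := abs_le.1 (hw q.1)
  have h6 := abs_le.1 (L.d_χψ a (u := u) (by linarith) (y := p.1) (by linarith))
  have h7 : ‖u - L.P V a q‖ ^ 2 ≤ (3 / 2) ^ 2 := pow_le_pow_left₀ (norm_nonneg _) hd.le 2
  have h8 : ‖u - L.ψ a p.1‖ ≤ 19 / 10 := by
    by_contra c
    have : (19 / 10 : ℝ) ^ 2 ≤ ‖u - L.ψ a p.1‖ ^ 2 :=
      pow_le_pow_left₀ (by norm_num) (not_le.1 c).le 2
    linarith [h4.2, h5.1]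
  linarith [h6.2]

theorem c_le (h1 : η ≤ 1 / 1000) (hn : L.Net G V) (hw : ∀ p, |w p| ≤ 1 / 100) (a : Y) {u : E3}
    (hu : ‖u‖ < 50) {p q : V} (hp : p ∈ L.N V w a u) (hq : q ∈ L.S V a)
    (hd : L.d (L.χ a u) q.1 ≤ 5) :
    L.d (L.χ a u) p.1 ^ 2 - w p.1 ≤ L.d (L.χ a u) q.1 ^ 2 - w q.1 + 22 * η := by
  have h2 : ‖u - L.ψ a p.1‖ ^ 2 - w p.1 ≤ ‖u - L.ψ a q.1‖ ^ 2 - w q.1 := hp.2 q hq
  have h3 : L.d a p.1 < 60 := hp.1
  have h4 : L.d a q.1 < 60 := hq
  have h5 := c_near L h1 hn hw a hu hp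
  have h6 := abs_le.1 (L.pw_close h1 a (u := u) (by linarith) (y := p.1) (by linarith) (by linarith))
  have h7 := abs_le.1 (L.pw_close h1 a (u := u) (by linarith) (y := q.1) (by linarith) hd)
  linarith [h6.2, h7.1]

theorem c_ne (h1 : η ≤ 1 / 1000) (hn : L.Net G V) (hw : ∀ p, |w p| ≤ 1 / 100) (a : Y) {u : E3}
    (hu : ‖u‖ < 50) {n : ℕ} {p : Fin n → V} (hp : ∀ i, p i ∈ L.N V w a u) {δ : ℝ}
    (hδ : 22 * η ≤ δ) : L.NE w δ (L.χ a u) fun i => (p i).1 := by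
  intro i j
  have h2 := c_le L h1 hn hw a hu (hp i) (hp j).1 (by linarith [c_near L h1 hn hw a hu (hp j)])
  have h3 := c_le L h1 hn hw a hu (hp j) (hp i).1 (by linarith [c_near L h1 hn hw a hu (hp i)])
  rw [abs_le]
  constructor <;> linarith

theorem c_eu {δ5 : ℝ} (h1 : η ≤ 1 / 1000) (hn : L.Net G V) (hw : ∀ p, |w p| ≤ 1 / 100)
    (h5 : L.G5 V w δ5) (hδ : 22 * η ≤ δ5) (a : Y) :
    Eu (L.S V a) (L.P V a) fun p => w p.1 := by
  refine ⟨?_, ?_, fun p => hw p.1, fun u hu => c_den L h1 hn a (mem_ball_zero_iff.1 hu), ?_⟩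
  · obtain ⟨N, hN⟩ := pack
    have := (hN Y η L h1 a {p | p ∈ V ∧ L.d a p < 60}
      (fun p hp q hq => hn.sep p hp.1 q hq.1) (fun p hp => by linarith [hp.2])).1
    refine (this.preimage (f := fun p : V => p.1) Subtype.val_injective.injOn).subset ?_
    exact fun p hp => ⟨p.2, hp⟩
  · intro p hp q hq ne
    have h2 : L.d a p.1 < 60 := hp
    have h3 : L.d a q.1 < 60 := hq
    have h4 := hn.sep p.1 p.2 q.1 q.2 (fun e => ne (Subtype.ext e))
    have h6 := abs_le.1 (L.d_ψ a (x := p.1) (y := q.1) (by linarith) (by linarith))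
    show 1 / 3 ≤ ‖L.ψ a p.1 - L.ψ a q.1‖
    linarith [h6.2]
  · intro u hu
    have hu' := mem_ball_zero_iff.1 hu
    by_contra c
    obtain ⟨t, ht, h6⟩ := exists_subset_card_eq (s := L.N V w a u) (n := 5) (not_le.1 c)
    obtain ⟨p, hp, rfl⟩ := c_enum (n := 4) h6
    have hm : ∀ i, p i ∈ L.N V w a u := fun i => ht ⟨i, rfl⟩
    exact h5 (fun i => (p i).1) (Subtype.val_injective.comp hp) (fun i => (p i).2) (L.χ a u)
      (fun i => by linarith [c_near L h1 hn hw a hu' (hm i)]) (c_ne L h1 hn hw a hu' hm hδ)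

theorem c_ab {δ2 : ℝ} (h0 : 0 < η) (h2' : δ2 ≤ 1) (hδ : 1000 * η ≤ δ2) {a p q : Y}
    (hp : L.d a p < 60) (hq : L.d a q < 60) (h : L.Ab δ2 p q) :
    δ2 / 4 ≤ ⟪L.l a, L.ψ a p - L.ψ a q⟫ := by
  by_contra c
  have c' := not_le.1 c
  have h1 : η ≤ 1 / 1000 := by linarith
  have np := abs_le.1 (L.norm_ψ a (y := p) (by linarith))
  have nq := abs_le.1 (L.norm_ψ a (y := q) (by linarith))
  have nl : ‖(δ2 / 2) • L.l a‖ = δ2 / 2 := by
    rw [norm_smul, L.unit, mul_one, Real.norm_eq_abs, abs_of_pos (by linarith)]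
  have nu : ‖L.ψ a p - (δ2 / 2) • L.l a‖ < 62 := by
    have := norm_sub_le (L.ψ a p) ((δ2 / 2) • L.l a)
    linarith [np.1]
  have h3 := abs_le.1 (L.d_χψ a (u := L.ψ a p - (δ2 / 2) • L.l a) (by linarith) (y := p)
    (by linarith))
  rw [sub_sub_cancel_left, norm_neg, nl] at h3
  have h4 := abs_le.1 (L.d_χ a (u := L.ψ a p - (δ2 / 2) • L.l a) (by linarith))
  have h5 := h (L.χ a (L.ψ a p - (δ2 / 2) • L.l a)) (by linarith [h3.2])
  have hpq : L.d p q < 120 := by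
    have := L.tri p a q
    rw [L.symm p a] at this
    linarith
  have h6 := L.compat p a q _ (by linarith) (by rw [L.symm]; linarith [h3.2]) (by linarith)
    (by linarith [h4.2]) h5
  have h7 := L.cone a (L.ψ a p - (δ2 / 2) • L.l a) (mem_ball_zero_iff.2 (by linarith)) (L.ψ a q)
    (L.right a q (by linarith)).1 (by
      have e : ⟪L.l a, L.ψ a q - (L.ψ a p - (δ2 / 2) • L.l a)⟫ =
          δ2 / 2 - ⟪L.l a, L.ψ a p - L.ψ a q⟫ := by
        simp only [inner_sub_right, inner_smul_right, real_inner_self_eq_norm_sq, L.unit]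
        ring
      have n2 := norm_sub_le (L.ψ a q) (L.ψ a p - (δ2 / 2) • L.l a)
      have n3 : ‖L.ψ a q - (L.ψ a p - (δ2 / 2) • L.l a)‖ ≤ 125 := by linarith [nq.1]
      have n4 := mul_le_mul_of_nonneg_left n3 h0.le
      rw [e]
      linarith)
  rw [(L.right a q (by linarith)).2] at h7
  linarith

theorem c_ht {δ2 : ℝ} (h0 : 0 < η) (h2' : δ2 ≤ 1) (hδ : 1000 * η ≤ δ2) (h2 : L.G2 V δ2) (a : Y) :
    ∀ p ∈ L.S V a, ∀ q ∈ L.S V a, p ≠ q →
      η * ‖L.P V a p - L.P V a q‖ < |⟪L.l a, L.P V a p - L.P V a q⟫| := by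
  intro p hp q hq ne
  have hp' : L.d a p.1 < 60 := hp
  have hq' : L.d a q.1 < 60 := hq
  have hpq : L.d p.1 q.1 < 120 := by
    have := L.tri p.1 a q.1
    rw [L.symm p.1 a] at this
    linarith
  have h3 := abs_le.1 (L.d_ψ a (x := p.1) (y := q.1) (by linarith) (by linarith))
  have n3 : ‖L.ψ a p.1 - L.ψ a q.1‖ ≤ 125 := by linarith [h3.1]
  have n4 := mul_le_mul_of_nonneg_left n3 h0.le
  show η * ‖L.ψ a p.1 - L.ψ a q.1‖ < |⟪L.l a, L.ψ a p.1 - L.ψ a q.1⟫|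
  rcases h2 p.1 p.2 q.1 q.2 (fun e => ne (Subtype.ext e)) (by linarith) with h | h
  · have := c_ab L h0 h2' hδ hp' hq' h
    exact lt_of_lt_of_le (by linarith) (le_abs_self _)
  · have := c_ab L h0 h2' hδ hq' hp' h
    rw [← neg_sub, inner_neg_right] at this
    exact lt_of_lt_of_le (by linarith) (neg_le_abs _)

theorem c_trans {δ4 δ5 : ℝ} (h0 : 0 < η) (h1 : η ≤ 1 / 1000) (hn : L.Net G V)
    (hw : ∀ p, |w p| ≤ 1 / 100) (h4 : L.G4 V w δ4) (h5 : L.G5 V w δ5) (e4 : 2000 * η ≤ δ4)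
    (e5 : 200 * η ≤ δ5) (e6 : 4000 * η ≤ δ4 * δ5) (a b : Y) (u : E3) (hu : ‖u‖ < 45)
    (hb : L.d b (L.χ a u) < 44) (hc : (L.N V w a u).ncard = 4) :
    ∃ u', ‖u' - L.ψ b (L.χ a u)‖ < 1 ∧ L.N V w b u' = L.N V w a u := by
  obtain ⟨p, hp, hr⟩ := c_enum (n := 3) hc
  have hu' : ‖u‖ < 50 := by linarith
  have hm : ∀ i, p i ∈ L.N V w a u := fun i => hr ▸ mem_range_self i
  have hd : ∀ i, L.d (L.χ a u) (p i).1 ≤ 2 := fun i => c_near L h1 hn hw a hu' (hm i)
  have hay := abs_le.1 (L.d_χ a (u := u) (by linarith))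
  have hne := c_ne L h1 hn hw a hu' hm (le_refl _)
  have hne4 := c_ne L h1 hn hw a hu' hm (δ := δ4 / 4) (by linarith)
  have hle : ∀ q : V, L.d (L.χ a u) q.1 ≤ 13 / 5 →
      L.d (L.χ a u) (p 0).1 ^ 2 - w (p 0).1 ≤ L.d (L.χ a u) q.1 ^ 2 - w q.1 + 22 * η := by
    intro q hq
    have := L.tri a (L.χ a u) q.1
    exact c_le L h1 hn hw a hu' (hm 0) (show L.d a q.1 < 60 by linarith [hay.2]) (by linarith)
  generalize L.χ a u = y at hb hd hne hne4 hle ⊢
  have hbp : ∀ i, L.d b (p i).1 < 46 := fun i => by linarith [L.tri b y (p i).1, hd i]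
  have hy := L.right b y (by linarith)
  have ny := abs_le.1 (L.norm_ψ b (y := y) (by linarith))
  have close : ∀ q : Y, L.d y q ≤ 5 → |L.d y q ^ 2 - ‖L.ψ b y - L.ψ b q‖ ^ 2| ≤ 11 * η := by
    intro q hq
    have := L.pw_close h1 b (u := L.ψ b y) (by linarith [ny.1]) (y := q)
      (by linarith [L.tri b y q]) (by rw [hy.2]; exact hq)
    rwa [hy.2] at this
  have hwd := L.width h0 h1 (δ := δ4) (by linarith) w (fun i => (p i).1)
    (h4 _ (Subtype.val_injective.comp hp) fun i => (p i).2) b y (fun i => by linarith [hd i])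
    (by linarith) hne4
  obtain ⟨u', hu1, hu2⟩ := centre (fun i => L.ψ b (p i).1) (fun i => w (p i).1) (L.ψ b y)
    (c := δ4 / 8) (θ := 44 * η) (by linarith) hwd (fun i j => by
      have a1 := abs_le.1 (close _ (by linarith [hd i] : L.d y (p i).1 ≤ 5))
      have a2 := abs_le.1 (close _ (by linarith [hd j] : L.d y (p j).1 ≤ 5))
      have a3 := abs_le.1 (hne i j)
      unfold pw
      rw [abs_le]
      constructor <;> linarith [a1.1, a1.2, a2.1, a2.2, a3.1, a3.2])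
  have p4 : 0 < δ4 := by linarith
  have r1 : ‖u' - L.ψ b y‖ ≤ 1 / 10 := by
    refine le_of_mul_le_mul_left (a := δ4) ?_ p4
    linarith
  have r2 : 10 * ‖u' - L.ψ b y‖ ≤ δ5 / 2 := by
    refine le_of_mul_le_mul_left (a := δ4) ?_ p4
    linarith
  have he : ∀ i j, ‖u' - L.ψ b (p i).1‖ ^ 2 - w (p i).1 = ‖u' - L.ψ b (p j).1‖ ^ 2 - w (p j).1 :=
    hu2
  have nu : ‖u'‖ < 46 := by
    have := norm_sub_norm_le u' (L.ψ b y)
    linarith [ny.1]
  have hyy := abs_le.1 (L.d_χψ b (u := u') (by linarith) (y := y) (by linarith))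
  have key : ∀ q ∈ L.S V b, q ∉ range p →
      ‖u' - L.ψ b (p 0).1‖ ^ 2 - w (p 0).1 < ‖u' - L.ψ b q.1‖ ^ 2 - w q.1 := by
    intro q hq hqr
    have hq' : L.d b q.1 < 60 := hq
    have b1 := abs_le.1 (L.d_ψ b (x := y) (y := q.1) (by linarith) (by linarith))
    have b2 := abs_le.1 (L.d_ψ b (x := y) (y := (p 0).1) (by linarith) (by linarith [hbp 0]))
    by_cases hfar : L.d y q.1 ≤ 13 / 5
    · by_contra c
      have c' := not_lt.1 c
      have a1 := abs_le.1 (close _ (by linarith [hd 0] : L.d y (p 0).1 ≤ 5))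
      have a2 := abs_le.1 (close _ (by linarith : L.d y q.1 ≤ 5))
      have a3 := hle q hfar
      have a4 := abs_le.1 (c_move (L.ψ b y) u' (L.ψ b (p 0).1) (L.ψ b q.1))
      have a5 : ‖L.ψ b (p 0).1 - L.ψ b q.1‖ ≤ 5 := by
        have := norm_sub_le_norm_sub_add_norm_sub (L.ψ b (p 0).1) (L.ψ b y) (L.ψ b q.1)
        rw [norm_sub_rev (L.ψ b (p 0).1) (L.ψ b y)] at this
        linarith [b1.1, b2.1, hd 0]
      have a6 := mul_le_mul_of_nonneg_left a5 (norm_nonneg (u' - L.ψ b y))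
      have hall : ∀ i : Fin 5, L.d y ((Fin.cons q p : Fin 5 → V) i).1 ≤ 13 / 5 ∧
          ‖u' - L.ψ b q.1‖ ^ 2 - w q.1 ≤ ‖u' - L.ψ b ((Fin.cons q p : Fin 5 → V) i).1‖ ^ 2 -
            w ((Fin.cons q p : Fin 5 → V) i).1 ∧
          ‖u' - L.ψ b ((Fin.cons q p : Fin 5 → V) i).1‖ ^ 2 - w ((Fin.cons q p : Fin 5 → V) i).1 ≤
            ‖u' - L.ψ b (p 0).1‖ ^ 2 - w (p 0).1 := by
        refine Fin.cases ?_ fun i => ?_
        · rw [Fin.cons_zero]
          exact ⟨hfar, le_refl _, c'⟩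
        · rw [Fin.cons_succ, he i 0]
          exact ⟨by linarith [hd i], c', le_refl _⟩
      have h3 : ∀ i : Fin 5, L.d (L.χ b u') ((Fin.cons q p : Fin 5 → V) i).1 ≤ 3 := fun i => by
        linarith [L.tri (L.χ b u') y ((Fin.cons q p : Fin 5 → V) i).1, (hall i).1, hyy.2]
      refine h5 (fun i => ((Fin.cons q p : Fin 5 → V) i).1)
        (Subtype.val_injective.comp (Fin.cons_injective_iff.2 ⟨hqr, hp⟩)) (fun i => Subtype.property _)
        (L.χ b u') h3 fun i j => ?_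
      have t1 := abs_le.1 (L.pw_close h1 b (u := u') (by linarith)
        (y := ((Fin.cons q p : Fin 5 → V) i).1)
        (by linarith [L.tri b y ((Fin.cons q p : Fin 5 → V) i).1, (hall i).1]) (by linarith [h3 i]))
      have t2 := abs_le.1 (L.pw_close h1 b (u := u') (by linarith)
        (y := ((Fin.cons q p : Fin 5 → V) j).1)
        (by linarith [L.tri b y ((Fin.cons q p : Fin 5 → V) j).1, (hall j).1]) (by linarith [h3 j]))
      rw [abs_le]
      constructor <;>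
        linarith [t1.1, t1.2, t2.1, t2.2, (hall i).2.1, (hall i).2.2, (hall j).2.1, (hall j).2.2,
          a1.1, a1.2, a2.1, a2.2, a4.1, a4.2]
    · have hfar' := not_le.1 hfar
      have a1 : ‖u' - L.ψ b (p 0).1‖ ≤ 11 / 5 := by
        have := norm_sub_le_norm_sub_add_norm_sub u' (L.ψ b y) (L.ψ b (p 0).1)
        linarith [b2.1, hd 0]
      have a2 : 12 / 5 ≤ ‖u' - L.ψ b q.1‖ := by
        have := norm_sub_le_norm_sub_add_norm_sub (L.ψ b y) u' (L.ψ b q.1)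
        rw [norm_sub_rev (L.ψ b y) u'] at this
        linarith [b1.2]
      have a3 := pow_le_pow_left₀ (norm_nonneg _) a1 2
      have a4 := pow_le_pow_left₀ (by norm_num) a2 2
      linarith [(abs_le.1 (hw (p 0).1)).1, (abs_le.1 (hw q.1)).2]
  refine ⟨u', by linarith, ?_⟩
  rw [← hr]
  ext q
  constructor
  · intro hq
    by_contra c
    have a1 := key q hq.1 c
    have a2 : ‖u' - L.ψ b q.1‖ ^ 2 - w q.1 ≤ ‖u' - L.ψ b (p 0).1‖ ^ 2 - w (p 0).1 :=
      hq.2 (p 0) (show L.d b (p 0).1 < 60 by linarith [hbp 0])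
    linarith
  · rintro ⟨i, rfl⟩
    refine ⟨show L.d b (p i).1 < 60 by linarith [hbp i], fun q hq => ?_⟩
    show ‖u' - L.ψ b (p i).1‖ ^ 2 - w (p i).1 ≤ ‖u' - L.ψ b q.1‖ ^ 2 - w q.1
    by_cases c : q ∈ range p
    · obtain ⟨j, rfl⟩ := c
      exact (he i j).le
    · rw [he i 0]
      exact (key q hq c).le
end

theorem good {δ2 δ4 δ5 : ℝ} (h2 : 0 < δ2) (h2' : δ2 ≤ 1) (h4 : 0 < δ4) (h5 : 0 < δ5) :
    ∃ η0 > 0, ∀ η, 0 < η → η ≤ η0 → ∀ (Y : Type) [TopologicalSpace Y] (G : Type) [Group G]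
      [MulAction G Y] (L : LM Y 300 η) (V : SubMulAction G Y) (w : Y → ℝ), L.Inv G → L.Net G V →
      (∀ (g : G) p, w (g • p) = w p) → (∀ p, |w p| ≤ 1 / 100) → L.G2 V δ2 → L.G4 V w δ4 →
      L.G5 V w δ5 → L.Good V w := by
  refine ⟨min (min (1 / 1000) (δ2 / 1000)) (min (δ4 / 2000) (min (δ5 / 200) (δ4 * δ5 / 4000))),
    by positivity, fun η h0 hη Y _ G _ _ L V w hi hn hwi hw g2 g4 g5 => ?_⟩
  simp only [le_min_iff] at hη
  obtain ⟨⟨e1, e2⟩, e4, e5, e6⟩ := hη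
  exact ⟨h0, e1, hi, hn, hwi, c_eu L e1 hn hw g5 (by linarith), c_ht L h0 h2' (by linarith) g2,
    fun a b u hu => c_trans L h0 e1 hn hw g4 g5 (by linarith) (by linarith) (by linarith) a b u
      (mem_ball_zero_iff.1 hu)⟩

end Pool.Agent.Work.MP_3d425c_gt.Sm
end

-- merged part: Pool.Agent.Work.MP_3d425c_gt.Sm.P2
section
/-! Block P2: the equator. For μ ≠ 0 orthogonal to l a vertex maximising μ (vmax) has
μ = α a i + β a j + γ a k with coefficients ≥ 0 (comb), so its triangle is mixed. A mixed triangle with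
i down, j up maximises μ = ⟪l, a j⟫ a i - ⟪l, a i⟫ a j, which is orthogonal to l and not 0 (test at the
interior point). {μ ≠ 0, μ ⊥ l} is preconnected (plane minus a point) and covered by the finitely
many closed sets {μ | the vertex of τ maximises μ}; `chain`. Two different vertices maximising one μ
share the support of the coefficients, which is mixed, so has two elements (three: equal by orth). -/

namespace Pool.Agent.Work.MP_3d425c_gt.Sm
open Set Relation Metric Topology Filter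
open scoped RealInnerProductSpace

variable {ι : Type} {I : Set ι} {a : ι → E3} {b : ι → ℝ}

theorem p2_sign {α β γ x y z : ℝ} (hα : 0 ≤ α) (hβ : 0 ≤ β) (hγ : 0 ≤ γ) (hx : x ≠ 0) (hy : y ≠ 0)
    (hz : z ≠ 0) (h0 : α * x + β * y + γ * z = 0) (hn : ¬ (α = 0 ∧ β = 0 ∧ γ = 0)) :
    (0 < α ∧ x < 0) ∨ (0 < β ∧ y < 0) ∨ (0 < γ ∧ z < 0) := by
  by_contra hc
  have k : ∀ {c w : ℝ}, 0 ≤ c → ¬ (0 < c ∧ w < 0) → 0 ≤ c * w := by
    intro c w hc0 hcw
    rcases hc0.eq_or_lt with e | e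
    · rw [← e]; simp
    · exact mul_nonneg hc0 (not_lt.1 fun hw => hcw ⟨e, hw⟩)
  have k1 := k hα fun e => hc (Or.inl e)
  have k2 := k hβ fun e => hc (Or.inr (Or.inl e))
  have k3 := k hγ fun e => hc (Or.inr (Or.inr e))
  refine hn ⟨?_, ?_, ?_⟩
  · exact (mul_eq_zero.1 (by linarith : α * x = 0)).resolve_right hx
  · exact (mul_eq_zero.1 (by linarith : β * y = 0)).resolve_right hy
  · exact (mul_eq_zero.1 (by linarith : γ * z = 0)).resolve_right hz

theorem p2_mixed (h : SP I a b) {l : E3} (hne : ∀ i ∈ I, ⟪l, a i⟫ ≠ 0) {μ u u' : E3} (hμ : μ ≠ 0)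
    (hlμ : ⟪l, μ⟫ = 0) (hu : u ∈ Pt I a b) (h3 : (Tg I a b u).ncard = 3)
    (hm : ∀ v ∈ Pt I a b, ⟪μ, v⟫ ≤ ⟪μ, u⟫) (hu' : u' ∈ Pt I a b) (he : ⟪μ, u⟫ ≤ ⟪μ, u'⟫) :
    ∃ i ∈ Tg I a b u ∩ Tg I a b u', ∃ j ∈ Tg I a b u ∩ Tg I a b u', ⟪l, a i⟫ < 0 ∧ 0 < ⟪l, a j⟫ := by
  obtain ⟨i, j, k, hij, hik, hjk, e⟩ := Set.ncard_eq_three.1 h3
  obtain ⟨α, β, γ, hα, hβ, hγ, eμ⟩ := h.comb hu hij hik hjk e hm
  have hi : i ∈ Tg I a b u := by rw [e]; simp
  have hj : j ∈ Tg I a b u := by rw [e]; simp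
  have hk : k ∈ Tg I a b u := by rw [e]; simp
  have ex : ∀ v : E3, ⟪μ, v⟫ = α * ⟪a i, v⟫ + β * ⟪a j, v⟫ + γ * ⟪a k, v⟫ := by
    intro v
    rw [eμ]; simp only [inner_add_left, real_inner_smul_left]
  have el : α * ⟪l, a i⟫ + β * ⟪l, a j⟫ + γ * ⟪l, a k⟫ = 0 := by
    rw [← hlμ, eμ]; simp only [inner_add_right, real_inner_smul_right]
  have hn : ¬ (α = 0 ∧ β = 0 ∧ γ = 0) := by
    rintro ⟨r1, r2, r3⟩
    apply hμ
    rw [eμ, r1, r2, r3]; simp
  rw [ex u, ex u', hi.2, hj.2, hk.2] at he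
  have li := hu' i hi.1
  have lj := hu' j hj.1
  have lk := hu' k hk.1
  have n1 := mul_nonneg hα (sub_nonneg.2 li)
  have n2 := mul_nonneg hβ (sub_nonneg.2 lj)
  have n3 := mul_nonneg hγ (sub_nonneg.2 lk)
  have ti : 0 < α → i ∈ Tg I a b u ∩ Tg I a b u' := fun p => ⟨hi, hi.1, by
    have : α * (b i - ⟪a i, u'⟫) = 0 := by nlinarith
    have := (mul_eq_zero.1 this).resolve_left p.ne'
    linarith⟩
  have tj : 0 < β → j ∈ Tg I a b u ∩ Tg I a b u' := fun p => ⟨hj, hj.1, by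
    have : β * (b j - ⟪a j, u'⟫) = 0 := by nlinarith
    have := (mul_eq_zero.1 this).resolve_left p.ne'
    linarith⟩
  have tk : 0 < γ → k ∈ Tg I a b u ∩ Tg I a b u' := fun p => ⟨hk, hk.1, by
    have : γ * (b k - ⟪a k, u'⟫) = 0 := by nlinarith
    have := (mul_eq_zero.1 this).resolve_left p.ne'
    linarith⟩
  have d : ∃ m ∈ Tg I a b u ∩ Tg I a b u', ⟪l, a m⟫ < 0 := by
    rcases p2_sign hα hβ hγ (hne i hi.1) (hne j hj.1) (hne k hk.1) el hn with q | q | q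
    · exact ⟨i, ti q.1, q.2⟩
    · exact ⟨j, tj q.1, q.2⟩
    · exact ⟨k, tk q.1, q.2⟩
  have d' : ∃ m ∈ Tg I a b u ∩ Tg I a b u', 0 < ⟪l, a m⟫ := by
    rcases p2_sign hα hβ hγ (neg_ne_zero.2 (hne i hi.1)) (neg_ne_zero.2 (hne j hj.1))
      (neg_ne_zero.2 (hne k hk.1)) (by linarith) hn with q | q | q
    · exact ⟨i, ti q.1, by linarith [q.2]⟩
    · exact ⟨j, tj q.1, by linarith [q.2]⟩
    · exact ⟨k, tk q.1, by linarith [q.2]⟩
  obtain ⟨m, hm1, hm2⟩ := d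
  obtain ⟨n, hn1, hn2⟩ := d'
  exact ⟨m, hm1, n, hn1, hm2, hn2⟩

theorem p2_conn {l : E3} (hl : l ≠ 0) : IsConnected {μ : E3 | μ ≠ 0 ∧ ⟪l, μ⟫ = 0} := by
  have : Fact (Module.finrank ℝ E3 = 2 + 1) := ⟨by simp⟩
  have f : Module.finrank ℝ (ℝ ∙ l)ᗮ = 2 := Submodule.finrank_orthogonal_span_singleton hl
  have r : 1 < Module.rank ℝ (ℝ ∙ l)ᗮ := by
    rw [← Module.finrank_eq_rank, f]; norm_num
  have c := (isConnected_compl_singleton_of_one_lt_rank r 0).image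
    (fun x : (ℝ ∙ l)ᗮ => (x : E3)) continuous_subtype_val.continuousOn
  have e : (fun x : (ℝ ∙ l)ᗮ => (x : E3)) '' {0}ᶜ = {μ : E3 | μ ≠ 0 ∧ ⟪l, μ⟫ = 0} := by
    ext μ
    constructor
    · rintro ⟨x, hx, rfl⟩
      exact ⟨fun e => hx (Subtype.ext e), Submodule.mem_orthogonal_singleton_iff_inner_right.1 x.2⟩
    · rintro ⟨h1, h2⟩
      exact ⟨⟨μ, Submodule.mem_orthogonal_singleton_iff_inner_right.2 h2⟩,
        fun e => h1 (congrArg Subtype.val e), rfl⟩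
  rwa [e] at c

/-- the directions maximised at the vertex of `τ` -/
def p2_A (I : Set ι) (a : ι → E3) (b : ι → ℝ) (τ : Set ι) : Set E3 :=
  {μ | ∀ u ∈ Pt I a b, τ = Tg I a b u → ∀ v ∈ Pt I a b, ⟪μ, v⟫ ≤ ⟪μ, u⟫}

theorem p2_closed (τ : Set ι) : IsClosed (p2_A I a b τ) := by
  unfold p2_A
  simp only [Set.ofPred_forall]
  refine isClosed_iInter fun u => isClosed_iInter fun _ => isClosed_iInter fun _ =>
    isClosed_iInter fun v => isClosed_iInter fun _ => isClosed_le ?_ ?_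
  · exact continuous_id.inner continuous_const
  · exact continuous_id.inner continuous_const

theorem p2_cov (h : SP I a b) (μ : E3) : ∃ τ ∈ Tr I a b, μ ∈ p2_A I a b τ := by
  obtain ⟨u, hu, h3, hm⟩ := h.vmax μ
  refine ⟨Tg I a b u, ⟨h3, u, hu, rfl⟩, fun u' _ e => ?_⟩
  have : u' - u = 0 := h.orth hu h3 fun i hi => by
    have hi' : i ∈ Tg I a b u' := e ▸ hi
    rw [inner_sub_right, hi.2, hi'.2, sub_self]
  rw [sub_eq_zero.1 this]
  exact hm

theorem p2_dir (h : SP I a b) {l : E3} {σ : Set ι} (hσ : σ ∈ Tr I a b)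
    (m1 : ∃ i ∈ σ, ∃ j ∈ σ, ⟪l, a i⟫ < 0 ∧ 0 < ⟪l, a j⟫) :
    ∃ μ, (μ ≠ 0 ∧ ⟪l, μ⟫ = 0) ∧ μ ∈ p2_A I a b σ := by
  obtain ⟨i, hi, j, hj, h1, h2⟩ := m1
  have ex : ∀ v : E3, ⟪⟪l, a j⟫ • a i - ⟪l, a i⟫ • a j, v⟫ =
      ⟪l, a j⟫ * ⟪a i, v⟫ - ⟪l, a i⟫ * ⟪a j, v⟫ := by
    intro v
    simp only [inner_sub_left, real_inner_smul_left]
  refine ⟨⟪l, a j⟫ • a i - ⟪l, a i⟫ • a j, ⟨fun e => ?_, ?_⟩, fun u _ e v hv => ?_⟩
  · obtain ⟨_, u, _, eu⟩ := hσ
    obtain ⟨o, ho⟩ := h.int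
    have ti : i ∈ Tg I a b u := eu ▸ hi
    have tj : j ∈ Tg I a b u := eu ▸ hj
    have e1 := ex u
    have e2 := ex o
    rw [e, inner_zero_left] at e1 e2
    rw [ti.2, tj.2] at e1
    have := mul_pos h2 (sub_pos.2 (ho i ti.1))
    have := mul_pos (neg_pos.2 h1) (sub_pos.2 (ho j tj.1))
    nlinarith
  · simp only [inner_sub_right, real_inner_smul_right]
    ring
  · have ti : i ∈ Tg I a b u := e ▸ hi
    have tj : j ∈ Tg I a b u := e ▸ hj
    rw [ex u, ex v, ti.2, tj.2]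
    have := mul_nonneg h2.le (sub_nonneg.2 (hv i ti.1))
    have := mul_nonneg (neg_pos.2 h1).le (sub_nonneg.2 (hv j tj.1))
    nlinarith

theorem SP.mid (h : SP I a b) {l : E3} (hl : l ≠ 0) (hne : ∀ i ∈ I, ⟪l, a i⟫ ≠ 0) :
    ∃ τ ∈ Tr I a b, ∃ i ∈ τ, ∃ j ∈ τ, ⟪l, a i⟫ < 0 ∧ 0 < ⟪l, a j⟫ := by
  obtain ⟨μ, h1, h2⟩ := (p2_conn hl).nonempty
  obtain ⟨u, hu, h3, hm⟩ := h.vmax μ
  obtain ⟨i, hi, j, hj, q⟩ := p2_mixed h hne h1 h2 hu h3 hm hu le_rfl
  exact ⟨Tg I a b u, ⟨h3, u, hu, rfl⟩, i, hi.1, j, hj.1, q⟩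

theorem SP.equ (h : SP I a b) {l : E3} (hl : l ≠ 0) (hne : ∀ i ∈ I, ⟪l, a i⟫ ≠ 0) {σ τ : Set ι}
    (hσ : σ ∈ Tr I a b) (hτ : τ ∈ Tr I a b) (m1 : ∃ i ∈ σ, ∃ j ∈ σ, ⟪l, a i⟫ < 0 ∧ 0 < ⟪l, a j⟫)
    (m2 : ∃ i ∈ τ, ∃ j ∈ τ, ⟪l, a i⟫ < 0 ∧ 0 < ⟪l, a j⟫) :
    ReflTransGen (Ad (Tr I a b) 2 fun f => ∃ i ∈ f, ∃ j ∈ f, ⟪l, a i⟫ < 0 ∧ 0 < ⟪l, a j⟫) σ τ := by
  obtain ⟨μ1, s1, a1⟩ := p2_dir h hσ m1
  obtain ⟨μ2, s2, a2⟩ := p2_dir h hτ m2
  refine chain (p2_conn hl).isPreconnected h.trfin (p2_A I a b) (fun k _ => p2_closed k)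
    (fun μ _ => p2_cov h μ) (fun ρ => ReflTransGen (Ad (Tr I a b) 2
      fun f => ∃ i ∈ f, ∃ j ∈ f, ⟪l, a i⟫ < 0 ∧ 0 < ⟪l, a j⟫) σ ρ) ?_ hσ hτ s1 s2 a1 a2
    ReflTransGen.refl
  intro ρ hρ ρ' hρ' μ hs b1 b2 q
  by_cases e : ρ = ρ'
  · exact e ▸ q
  obtain ⟨c3, u, hu, eu⟩ := hρ
  obtain ⟨c3', u', hu', eu'⟩ := id hρ'
  have mx := p2_mixed h hne hs.1 hs.2 hu (eu ▸ c3) (b1 u hu eu) hu' (b2 u' hu' eu' u hu)
  rw [← eu, ← eu'] at mx
  refine q.tail ⟨hρ', ?_, mx⟩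
  have f1 : ρ.Finite := Set.finite_of_ncard_ne_zero (by omega)
  have f2 : ρ'.Finite := Set.finite_of_ncard_ne_zero (by omega)
  obtain ⟨i, hi, j, hj, q1, q2⟩ := mx
  have hij : i ≠ j := by
    rintro rfl
    linarith
  have lo : 1 < (ρ ∩ ρ').ncard :=
    (Set.one_lt_ncard (f1.inter_of_left _)).2 ⟨i, hi, j, hj, hij⟩
  have up : (ρ ∩ ρ').ncard ≤ 3 := c3 ▸ Set.ncard_le_ncard inter_subset_left f1
  have ne3 : (ρ ∩ ρ').ncard ≠ 3 := fun e3 => e
    ((Set.eq_of_subset_of_ncard_le inter_subset_left (by omega) f1).symm.trans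
      (Set.eq_of_subset_of_ncard_le inter_subset_right (by omega) f2))
  omega

end Pool.Agent.Work.MP_3d425c_gt.Sm
end

-- merged part: Pool.Agent.Work.MP_3d425c_gt.Sm.K1
section
/-! Block K1: the local part. At a vertex v use Good.sp, tri_iff (σ ∋ v corresponds to σ \ {v}),
up_iff, ea_ne, and SP.two, SP.conn, SP.equ, SP.mid, SP.up (with l and with -l). A chain of triangles
with two common points gives a chain of tetrahedra with three common points. `two`: take a vertex of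
σ other than the omitted one as centre. `fin`: move a vertex into the finite set of Net.fin; σ lies in
the finite set S of that vertex. `free`: Inv.far. -/

namespace Pool.Agent.Work.MP_3d425c_gt.Sm
open Set Relation Metric Topology Filter
open scoped RealInnerProductSpace

variable {Y : Type} [TopologicalSpace Y] {η : ℝ} {L : LM Y 300 η} {G : Type} [Group G]
  [MulAction G Y] {V : SubMulAction G Y} {w : Y → ℝ}

/-- the dual sphere of the cell of `v` -/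
abbrev k1_Tr (L : LM Y 300 η) (V : SubMulAction G Y) (w : Y → ℝ) (v : V) : Set (Set V) :=
  Tr (L.S V v.1 \ {v}) (ea (L.P V v.1) v) (eb (L.P V v.1) (fun p => w p.1) v)

theorem k1_ins {ι : Type} {σ : Set ι} {v : ι} (hv : v ∈ σ) : insert v (σ \ {v}) = σ := by
  rw [insert_sdiff_singleton, insert_eq_of_mem hv]

theorem k1_del (h : L.Good V w) {σ : Set V} (hσ : σ ∈ L.T V w) {v : V} (hv : v ∈ σ) :
    σ \ {v} ∈ k1_Tr L V w v :=
  (h.tri_iff v _).2 ⟨fun c => c.2 rfl, by rwa [k1_ins hv]⟩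

theorem k1_chain (h : L.Good V w) (v : V) {Q Q' : Set V → Prop}
    (hQ : ∀ β ∈ k1_Tr L V w v, ∀ f ⊆ β, Q f → Q' (insert v f)) {α β : Set V}
    (c : ReflTransGen (Ad (k1_Tr L V w v) 2 Q) α β) :
    ReflTransGen (Ad (L.T V w) 3 Q') (insert v α) (insert v β) := by
  induction c with
  | refl => exact ReflTransGen.refl
  | @tail γ β _ k ih =>
    obtain ⟨k1, k2, k3⟩ := k
    obtain ⟨n1, n2⟩ := (h.tri_iff v β).1 k1
    refine ih.tail ⟨n2, ?_, ?_⟩
    · rw [← insert_inter_distrib, ncard_insert_of_notMem (fun c => n1 c.2)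
        (finite_of_ncard_ne_zero (by rw [k2]; norm_num)), k2]
    · rw [← insert_inter_distrib]
      exact hQ β k1 _ inter_subset_right k3

theorem k1_chain' (h : L.Good V w) {v : V} {Q Q' : Set V → Prop}
    (hQ : ∀ β ∈ k1_Tr L V w v, ∀ f ⊆ β, Q f → Q' (insert v f)) {σ τ : Set V} (h1 : v ∈ σ)
    (h2 : v ∈ τ) (c : ReflTransGen (Ad (k1_Tr L V w v) 2 Q) (σ \ {v}) (τ \ {v})) :
    ReflTransGen (Ad (L.T V w) 3 Q') σ τ := by
  have := k1_chain h v hQ c
  rwa [k1_ins h1, k1_ins h2] at this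

theorem k1_irr (v : V) : ¬ L.lt V v v := fun c => lt_irrefl _ c.2

theorem k1_d (h : L.Good V w) {v : V} {β : Set V} (hβ : β ∈ k1_Tr L V w v) {p : V} (hp : p ∈ β) :
    L.d v.1 p.1 < 10 :=
  (h.diam ((h.tri_iff v β).1 hβ).2 (mem_insert v β) (mem_insert_of_mem v hp)).trans (by norm_num)

theorem k1_l (L : LM Y 300 η) (a : Y) : L.l a ≠ 0 := fun c => by
  have := L.unit a
  rw [c, norm_zero] at this
  exact zero_ne_one this

theorem k1_S (h : L.Good V w) {σ : Set V} (hσ : σ ∈ L.T V w) {p q : V} (hp : p ∈ σ) (hq : q ∈ σ) :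
    q ∈ L.S V p.1 := (h.diam hσ hp hq).trans (by norm_num)

theorem k1_lt (h : L.Good V w) {σ : Set V} (hσ : σ ∈ L.T V w) {a p q : V} (ha : a ∈ σ) (hp : p ∈ σ)
    (hq : q ∈ σ) : L.lt V p q ↔ L.H a.1 p.1 < L.H a.1 q.1 :=
  h.lt_iff a.1 (k1_S h hσ ha hp) (k1_S h hσ ha hq) ((h.diam hσ hp hq).trans (by norm_num))

theorem k1_inv (h : L.Good V w) (g : G) {σ : Set V} (hσ : σ ∈ L.T V w) :
    (fun v => g • v) '' σ ∈ L.T V w := by
  obtain ⟨h4, a, u, hu, rfl⟩ := hσ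
  exact ⟨by rw [ncard_image_of_injective _ (MulAction.injective g), h4], g • a, u, hu,
    (h.N_smul g a u).symm⟩

theorem k1_mx (h : L.Good V w) {v : V} {β : Set V} (hβ : β ∈ k1_Tr L V w v) {f : Set V}
    (hf : f ⊆ β) (m : ∃ i ∈ f, ∃ j ∈ f, ⟪L.l v.1, ea (L.P V v.1) v i⟫ < 0 ∧
      0 < ⟪L.l v.1, ea (L.P V v.1) v j⟫) : Mx (L.lt V) (insert v f) v := by
  obtain ⟨i, hi, j, hj, m1, m2⟩ := m
  exact ⟨mem_insert v f, i, mem_insert_of_mem v hi, j, mem_insert_of_mem v hj,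
    (h.up_iff (k1_d h hβ (hf hi))).2.2 m1, (h.up_iff (k1_d h hβ (hf hj))).1.2 m2⟩

theorem k1_xm (h : L.Good V w) {v : V} {σ : Set V} (m : Mx (L.lt V) σ v) :
    ∃ i ∈ σ \ {v}, ∃ j ∈ σ \ {v}, ⟪L.l v.1, ea (L.P V v.1) v i⟫ < 0 ∧
      0 < ⟪L.l v.1, ea (L.P V v.1) v j⟫ := by
  obtain ⟨-, i, hi, j, hj, m1, m2⟩ := m
  refine ⟨i, ⟨hi, fun c => ?_⟩, j, ⟨hj, fun c => ?_⟩,
    (h.up_iff (by rw [L.symm]; exact m1.1)).2.1 m1, (h.up_iff m2.1).1.1 m2⟩
  · rw [mem_singleton_iff.1 c] at m1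
    exact k1_irr v m1
  · rw [mem_singleton_iff.1 c] at m2
    exact k1_irr v m2

theorem k1_up (h : L.Good V w) {v : V} {β : Set V} (hβ : β ∈ k1_Tr L V w v) :
    insert v β ∩ {a | L.lt V v a} = β ∩ {i | 0 < ⟪L.l v.1, ea (L.P V v.1) v i⟫} := by
  ext i
  constructor
  · rintro ⟨rfl | c, c'⟩
    · exact absurd c' (k1_irr _)
    · exact ⟨c, (h.up_iff (k1_d h hβ c)).1.1 c'⟩
  · rintro ⟨c, c'⟩
    exact ⟨Or.inr c, (h.up_iff (k1_d h hβ c)).1.2 c'⟩

theorem k1_dn (h : L.Good V w) {v : V} {β : Set V} (hβ : β ∈ k1_Tr L V w v) :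
    insert v β ∩ {a | L.lt V a v} = β ∩ {i | 0 < ⟪-L.l v.1, ea (L.P V v.1) v i⟫} := by
  ext i
  constructor
  · rintro ⟨rfl | c, c'⟩
    · exact absurd c' (k1_irr _)
    · refine ⟨c, ?_⟩
      have := (h.up_iff (k1_d h hβ c)).2.1 c'
      rw [mem_ofPred_eq, inner_neg_left]
      exact neg_pos.2 this
  · rintro ⟨c, c'⟩
    rw [mem_ofPred_eq, inner_neg_left] at c'
    exact ⟨Or.inr c, (h.up_iff (k1_d h hβ c)).2.2 (neg_pos.1 c')⟩

theorem k1_two (h : L.Good V w) {σ : Set V} (hσ : σ ∈ L.T V w) {v : V} (hv : v ∈ σ) :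
    ∃! x, x ∉ σ ∧ insert x (σ \ {v}) ∈ L.T V w := by
  obtain ⟨c, hc, hcv⟩ := exists_ne_of_one_lt_ncard (s := σ) (by rw [hσ.1]; norm_num) v
  have key : ∀ x, (x ∉ σ \ {c} ∧ insert x ((σ \ {c}) \ {v}) ∈ k1_Tr L V w c) ↔
      (x ∉ σ ∧ insert x (σ \ {v}) ∈ L.T V w) := fun x => by
    have e : insert c (insert x ((σ \ {c}) \ {v})) = insert x (σ \ {v}) := by
      ext y
      simp only [mem_insert_iff, Set.mem_sdiff, mem_singleton_iff]
      by_cases hy : y = c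
      · subst hy
        simp [hc, hcv]
      · simp [hy]
    rw [h.tri_iff, e]
    constructor
    · rintro ⟨a1, a2, a3⟩
      exact ⟨fun k => a1 ⟨k, fun k' => a2 (Or.inl (mem_singleton_iff.1 k').symm)⟩, a3⟩
    · rintro ⟨a1, a3⟩
      refine ⟨fun k => a1 k.1, ?_, a3⟩
      rintro (k | k)
      · exact a1 (k ▸ hc)
      · exact k.1.2 rfl
  have := (h.sp c).two (k1_del h hσ hc) (k := v) ⟨hv, fun k => hcv (mem_singleton_iff.1 k).symm⟩
  exact (existsUnique_congr key).1 this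

theorem LM.Good.sc0 (h : L.Good V w) : SC0 G (L.lt V) (L.T V w) := by
  refine ⟨fun σ hσ => hσ.1, fun u v a b => ?_, fun σ hσ u hu v hv => ?_,
    fun σ hσ u hu v hv x hx a b => ?_, fun g u v a => ?_, fun g σ hσ => k1_inv h g hσ, ?_,
    fun g v e => ?_, fun σ hσ v hv => k1_two h hσ hv, fun σ hσ τ hτ v h1 h2 => ?_,
    fun σ hσ τ hτ u v huv h1 h2 h3 h4 => ?_, fun σ hσ τ hτ v m1 m2 => ?_, fun v => ?_,
    fun v Γ _ Z hZ => ?_, fun v Γ _ Z hZ => ?_⟩
  · have := L.compat u.1 v.1 u.1 v.1 (by rw [L.d_self]; norm_num) (by linarith [a.1])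
      (by linarith [b.1]) (by rw [L.d_self]; norm_num) a.2
    exact lt_asymm this b.2
  · rcases lt_trichotomy (L.H u.1 u.1) (L.H u.1 v.1) with c | c | c
    · exact Or.inr (Or.inl ((k1_lt h hσ hu hu hv).2 c))
    · exact Or.inl (h.hne u.1 (k1_S h hσ hu hu) (k1_S h hσ hu hv) c)
    · exact Or.inr (Or.inr ((k1_lt h hσ hu hv hu).2 c))
  · exact (k1_lt h hσ hu hu hx).2 (((k1_lt h hσ hu hu hv).1 a).trans ((k1_lt h hσ hu hv hx).1 b))
  · exact ⟨(h.inv.d g u.1 v.1).trans_lt a.1,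
      ((h.inv.H g u.1 u.1).trans_lt a.2).trans_eq (h.inv.H g u.1 v.1).symm⟩
  · obtain ⟨t, ht, hp⟩ := h.net.fin
    refine ⟨⋃ a ∈ t, {s | s ⊆ L.S V a}, ht.biUnion fun a _ => (h.eu a).fin.finite_subsets,
      fun σ hσ => ?_⟩
    obtain ⟨p, hp'⟩ := nonempty_of_ncard_ne_zero (s := σ) (by rw [hσ.1]; norm_num)
    obtain ⟨g, hg⟩ := hp p.1 p.2
    exact ⟨g, mem_biUnion hg fun q hq =>
      k1_S h (k1_inv h g hσ) (p := g • p) (mem_image_of_mem _ hp') hq⟩
  · refine h.inv.far g v.1 ?_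
    have e' : g • v.1 = v.1 := congrArg Subtype.val e
    rw [e', L.d_self]
    norm_num
  · exact k1_chain' h (fun _ _ _ _ _ => trivial) h1 h2
      ((h.sp v).conn (k1_del h hσ h1) (k1_del h hτ h2))
  · refine k1_chain' h (fun β _ f _ k => ?_) h1 h3
      ((h.sp u).conn (k1_del h hσ h1) (k1_del h hτ h3))
    exact ⟨mem_insert u f, mem_insert_of_mem u (k ⟨⟨h2, huv.symm⟩, h4, huv.symm⟩)⟩
  · exact k1_chain' h (fun β hβ f hf k => k1_mx h hβ hf k) m1.1 m2.1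
      ((h.sp v).equ (k1_l L v.1) (h.ea_ne v) (k1_del h hσ m1.1) (k1_del h hτ m2.1) (k1_xm h m1)
        (k1_xm h m2))
  · obtain ⟨β, hβ, m⟩ := (h.sp v).mid (k1_l L v.1) (h.ea_ne v)
    exact ⟨insert v β, ((h.tri_iff v β).1 hβ).2, k1_mx h hβ Subset.rfl m⟩
  · obtain ⟨s, hs⟩ := (h.sp v).up (L.unit v.1) Z fun β hβ => by
      rw [← k1_up h hβ]
      exact hZ _ ((h.tri_iff v β).1 hβ).2 (mem_insert v β)
    refine ⟨s, fun σ hσ hv => ?_⟩
    have := hs _ (k1_del h hσ hv)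
    rwa [← k1_up h (k1_del h hσ hv), k1_ins hv] at this
  · obtain ⟨s, hs⟩ := (h.sp v).up (l := -L.l v.1) (by rw [norm_neg, L.unit]) Z fun β hβ => by
      rw [← k1_dn h hβ]
      exact hZ _ ((h.tri_iff v β).1 hβ).2 (mem_insert v β)
    refine ⟨s, fun σ hσ hv => ?_⟩
    have := hs _ (k1_del h hσ hv)
    rwa [← k1_dn h (k1_del h hσ hv), k1_ins hv] at this

end Pool.Agent.Work.MP_3d425c_gt.Sm
end

-- merged part: Pool.Agent.Work.MP_3d425c_gt.Sm.K2
section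
/-! Block K2: the global part. LC: for v, v' ∈ V with d v v' < 10, Eu.lc in the chart at v along the
segment from 0 = P v to P v' (Eu.self at both ends, Good.ext on the way) propagates any property
that passes between two vertices p, q of a tetrahedron with d v p, d v q < 13.
`conn`: Q v = all tetrahedra at v are reached from σ (star, mid); the sets {y | ∃ v, Q v, d y v < 2}
and the same with ¬ Q are open (nhds, tri), cover Y (Net.den) and are disjoint by LC.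
`sc`: for each a, Eu.sc with r = 40 (Good.ext) gives s a with Z p q = s a p * (s a q)⁻¹ for the edges
within 30 of a (of_T). Put Z' v v' = s v v * (s v v')⁻¹; by LC it equals s a v * (s a v')⁻¹ whenever
d a v, d a v' < 4.6 (propagate (s a p)⁻¹ * .. = constant: (s v p)⁻¹ * s a p does not change along
edges). `cech` with I y = {v | y ∈ χ v '' ball 0 4.5}, J y = {v | d y v < 4.6}. For p, q in a
tetrahedron p, q ∈ I q and Z' p q = Z p q. -/

namespace Pool.Agent.Work.MP_3d425c_gt.Sm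
open Set Relation Metric Topology Filter
open scoped RealInnerProductSpace

variable {Y : Type} [TopologicalSpace Y] {η : ℝ} {L : LM Y 300 η} {G : Type} [Group G]
  [MulAction G Y] {V : SubMulAction G Y} {w : Y → ℝ}

theorem k2_lc (h : L.Good V w) {v v' : V} (hd : L.d v.1 v'.1 < 10) (Q : V → Prop)
    (hQ : ∀ σ ∈ L.T V w, ∀ p ∈ σ, ∀ q ∈ σ, L.d v.1 p.1 < 13 → Q p → Q q) (h1 : Q v) : Q v' := by
  have e := h.small
  have hv : v ∈ L.S V v.1 := show L.d v.1 v.1 < 60 by rw [L.d_self]; norm_num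
  have hv' : v' ∈ L.S V v.1 := show L.d v.1 v'.1 < 60 by linarith
  refine (h.eu v.1).lc Q (x := L.P V v.1 v) (y := L.P V v.1 v') (fun u hu p hp q hq => ?_)
    (by rw [(h.eu v.1).self hv]; rfl) (by rw [(h.eu v.1).self hv']; rfl) h1
  have n1 : L.P V v.1 v ∈ ball (0 : E3) (10 + 1 / 100) := by
    rw [LM.P, L.ψ_self (by norm_num)]
    exact mem_ball_self (by norm_num)
  have n2 : L.P V v.1 v' ∈ ball (0 : E3) (10 + 1 / 100) := by
    have := abs_le.1 (L.norm_ψ v.1 (y := v'.1) (by linarith))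
    rw [mem_ball_zero_iff, LM.P]
    linarith [this.1]
  have n3 := mem_ball_zero_iff.1 ((convex_ball _ _).segment_subset n1 n2 hu)
  obtain ⟨u', -, k1, k2⟩ := h.ext v.1 (u := u) (by linarith)
  refine hQ _ k2 p (k1 hp) q (k1 hq) ?_
  have a1 := (h.eu v.1).near (by linarith) hp
  have a2 : L.d v.1 p.1 < 60 := hp.1
  have a3 := abs_le.1 (L.norm_ψ v.1 (y := p.1) (by linarith))
  have a4 := norm_sub_le u (u - L.P V v.1 p)
  rw [sub_sub_cancel, LM.P] at a4
  rw [LM.P] at a1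
  linarith [a3.2]

theorem k2_open (Q : V → Prop) : IsOpen {y | ∃ v, Q v ∧ L.d y v.1 < 2} := by
  refine isOpen_iff_mem_nhds.2 ?_
  rintro y ⟨v, hv, hd⟩
  filter_upwards [L.nhds y (2 - L.d y v.1) (by linarith)] with z hz
  refine ⟨v, hv, ?_⟩
  have := L.tri z y v.1
  rw [L.symm z y] at this
  linarith

theorem k2_all [PreconnectedSpace Y] (h : L.Good V w) (Q : V → Prop)
    (hQ : ∀ σ ∈ L.T V w, ∀ p ∈ σ, ∀ q ∈ σ, Q p → Q q) {v : V} (h1 : Q v) (v' : V) : Q v' := by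
  by_contra hn
  obtain ⟨y, -, ⟨p, p1, p2⟩, q, q1, q2⟩ := isPreconnected_univ _ _ (k2_open (L := L) Q)
    (k2_open (L := L) fun v => ¬ Q v) (fun y _ => by
      obtain ⟨p, hp, hd⟩ := h.net.den y
      by_cases c : Q ⟨p, hp⟩
      · exact Or.inl ⟨⟨p, hp⟩, c, by linarith⟩
      · exact Or.inr ⟨⟨p, hp⟩, c, by linarith⟩)
    ⟨v.1, mem_univ _, v, h1, by rw [L.d_self]; norm_num⟩
    ⟨v'.1, mem_univ _, v', hn, by rw [L.d_self]; norm_num⟩
  have := L.tri p.1 y q.1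
  rw [L.symm p.1 y] at this
  exact q1 (k2_lc h (by linarith) Q (fun σ a p hp q hq _ => hQ σ a p hp q hq) p1)

theorem k2_loc (h : L.Good V w) {Γ : Type} [Group Γ] (Z : V → V → Γ)
    (hZ : ∀ σ ∈ L.T V w, Coc Z σ) (a : Y) :
    ∃ s, ∀ σ ∈ L.T V w, ∀ p ∈ σ, L.d a p.1 < 30 → Cob Z s σ := by
  have e := h.small
  obtain ⟨s, hs⟩ := (h.eu a).sc 40 Z fun u hu => by
    obtain ⟨u', -, k1, k2⟩ := h.ext a (u := u) (by linarith [mem_ball_zero_iff.1 hu])
    exact fun i hi j hj k hk => hZ _ k2 i (k1 hi) j (k1 hj) k (k1 hk)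
  refine ⟨s, fun σ hσ p hp hd => ?_⟩
  obtain ⟨u, hu, rfl⟩ := h.of_T a hσ hp (by linarith)
  refine hs u (mem_ball_zero_iff.2 ?_)
  have a1 := (h.eu a).near (by linarith) hp
  have a3 := abs_le.1 (L.norm_ψ a (y := p.1) (by linarith))
  have a4 := norm_add_le (u - L.P V a p) (L.P V a p)
  rw [sub_add_cancel, LM.P] at a4
  rw [LM.P] at a1
  linarith [a3.1]

theorem k2_mem (h : L.Good V w) {v y : Y} (hd : L.d v y < 4.4) :
    y ∈ L.χ v '' ball (0 : E3) 4.5 := by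
  have e := h.small
  have a3 := abs_le.1 (L.norm_ψ v (y := y) (by linarith))
  exact ⟨L.ψ v y, mem_ball_zero_iff.2 (by linarith [a3.1]), (L.right v y (by linarith)).2⟩

theorem k2_sc [SimplyConnectedSpace Y] [LocallyPathConnectedSpace Y] (h : L.Good V w) (Γ : Type)
    [Group Γ] (Z : V → V → Γ) (hZ : ∀ σ ∈ L.T V w, Coc Z σ) : ∃ s, ∀ σ ∈ L.T V w, Cob Z s σ := by
  have e := h.small
  choose s hs using k2_loc h Z hZ
  have hc : ∀ a, ∀ v v' : V, L.d a v.1 < 4.6 → L.d a v'.1 < 4.6 →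
      s v.1 v * (s v.1 v')⁻¹ = s a v * (s a v')⁻¹ := fun a v v' h1 h2 => by
    have t1 := L.tri v.1 a v'.1
    rw [L.symm v.1 a] at t1
    have := k2_lc h (v := v) (v' := v') (by linarith)
      (fun p => (s v.1 p)⁻¹ * s a p = (s v.1 v)⁻¹ * s a v) (fun σ hσ p hp q hq hd hQ => by
        have t2 := L.tri a v.1 p.1
        have b1 := hs v.1 σ hσ p hp (by linarith) p hp q hq
        have b2 := hs a σ hσ p hp (by linarith) p hp q hq
        rw [← hQ]
        calc (s v.1 q)⁻¹ * s a q = (s v.1 p)⁻¹ * (s v.1 p * (s v.1 q)⁻¹) * s a q := by group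
          _ = (s v.1 p)⁻¹ * s a p := by rw [← b1, b2]; group) rfl
    calc s v.1 v * (s v.1 v')⁻¹ = s v.1 v * ((s v.1 v')⁻¹ * s a v') * (s a v')⁻¹ := by group
      _ = s a v * (s a v')⁻¹ := by rw [this]; group
  obtain ⟨s', hs'⟩ := cech (X := Y) (fun y => {v : V | y ∈ L.χ v.1 '' ball (0 : E3) 4.5})
    (fun y => {v : V | L.d y v.1 < 4.6}) (fun y => by
      obtain ⟨p, hp, hd⟩ := h.net.den y
      exact ⟨⟨p, hp⟩, k2_mem h (by rw [L.symm]; linarith)⟩) (fun y => by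
      filter_upwards [L.nhds y (1 / 20) (by norm_num)] with z hz
      rintro v ⟨u, hu, rfl⟩
      have a1 := mem_ball_zero_iff.1 hu
      have a2 := abs_le.1 (L.d_χ v.1 (u := u) (by linarith))
      have a3 := L.tri y (L.χ v.1 u) v.1
      rw [L.symm (L.χ v.1 u)] at a3
      show L.d y v.1 < 4.6
      linarith [a2.2])
    (fun v => (convex_ball (0 : E3) 4.5).isPreconnected.image _
      ((L.cont v.1).mono (ball_subset_ball (by norm_num))))
    (fun v v' => s v.1 v * (s v.1 v')⁻¹) fun x i hi j hj k hk => by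
      beta_reduce
      rw [hc x i j hi hj, hc x j k hj hk, hc x i k hi hk]
      group
  refine ⟨s', fun σ hσ p hp q hq => ?_⟩
  have := h.diam hσ hp hq
  rw [hs p.1 σ hσ p hp (by rw [L.d_self]; norm_num) p hp q hq]
  exact hs' q.1 p (k2_mem h (by linarith)) q (k2_mem h (by rw [L.d_self]; norm_num))

theorem LM.Good.sc [SimplyConnectedSpace Y] [LocallyPathConnectedSpace Y] (h : L.Good V w) :
    SC G (L.lt V) (L.T V w) := by
  have h0 := h.sc0
  refine ⟨h0, ?_, fun σ hσ τ hτ => ?_, k2_sc h⟩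
  · obtain ⟨b⟩ : Nonempty Y := inferInstance
    obtain ⟨u, -, -, k⟩ := h.ext b (u := 0) (by simp)
    exact ⟨_, k⟩
  · obtain ⟨p, hp⟩ := nonempty_of_ncard_ne_zero (s := σ) (by rw [h0.four σ hσ]; decide)
    obtain ⟨q, hq⟩ := nonempty_of_ncard_ne_zero (s := τ) (by rw [h0.four τ hτ]; decide)
    exact k2_all h (fun v => ∀ ρ ∈ L.T V w, v ∈ ρ →
      ReflTransGen (Ad (L.T V w) 3 fun _ => True) σ ρ)
      (fun ρ a p hp q hq hQ ρ' a' b => (hQ ρ a hp).trans (h0.star ρ a ρ' a' q hq b))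
      (fun ρ a b => h0.star σ hσ ρ a p hp b) q τ hτ hq

end Pool.Agent.Work.MP_3d425c_gt.Sm
end

-- merged part: Pool.Agent.Work.MP_3d425c_gt.Nh.Tree
section
/-! The tree of a nested family of walls. -/

namespace Pool.Agent.Work.MP_3d425c_gt.Nh
open Set

/-- A nested family: `lt` is inclusion of half spaces, `st` is the complement. -/
structure Poc (G : Type) {E : Type} [Group G] [MulAction G E] (lt : E → E → Prop) (st : E → E) :
    Prop where
  irr : ∀ e, ¬ lt e e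
  tr : ∀ {e f g}, lt e f → lt f g → lt e g
  inv : ∀ e, st (st e) = e
  ne : ∀ e, st e ≠ e
  nst : ∀ e, ¬ lt e (st e)
  anti : ∀ {e f}, lt e f → lt (st f) (st e)
  act : ∀ (g : G) {e f}, lt e f → lt (g • e) (g • f)
  ast : ∀ (g : G) e, st (g • e) = g • st e
  nest : ∀ e f, e = f ∨ e = st f ∨ lt e f ∨ lt e (st f) ∨ lt (st e) f ∨ lt (st e) (st f)
  fin : ∀ e f, {x | lt e x ∧ lt x f}.Finite

variable {G E : Type} [Group G] [MulAction G E] {lt : E → E → Prop} {st : E → E}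

/-- nothing lies between -/
def Nx (lt : E → E → Prop) (e f : E) : Prop := lt e f ∧ ∀ x, lt e x → ¬ lt x f

/-- some element reverses the wall -/
def Iv (G : Type) [Group G] [MulAction G E] (st : E → E) (e : E) : Prop := ∃ g : G, g • e = st e

/-- the half spaces that contain the head of `e` -/
def hs (lt : E → E → Prop) (st : E → E) (e : E) : Set E := {f | e = f ∨ lt e f ∨ lt (st e) f}

namespace Poc
variable (P : Poc G lt st)
include P

theorem anti' {e f : E} (h : lt (st f) (st e)) : lt e f := by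
  simpa only [P.inv] using P.anti h

theorem antil {e f : E} (h : lt (st e) f) : lt (st f) e := by
  simpa only [P.inv] using P.anti h

theorem antir {e f : E} (h : lt e (st f)) : lt f (st e) := by
  simpa only [P.inv] using P.anti h

theorem nst' (e : E) : ¬ lt (st e) e := fun h => P.nst (st e) (by rwa [P.inv])

theorem sep {e f : E} (h : lt e f) (k : lt e (st f)) : False := P.nst e (P.tr h (P.antir k))

theorem act_iff (g : G) {e f : E} : lt (g • e) (g • f) ↔ lt e f :=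
  ⟨fun h => by simpa only [inv_smul_smul] using P.act g⁻¹ h, P.act g⟩

theorem nx_act (g : G) {e f : E} (h : Nx lt e f) : Nx lt (g • e) (g • f) :=
  ⟨P.act g h.1, fun x a b => h.2 (g⁻¹ • x) (by simpa only [inv_smul_smul] using P.act g⁻¹ a)
    (by simpa only [inv_smul_smul] using P.act g⁻¹ b)⟩

theorem hs_or (e f : E) : f ∈ hs lt st e ∨ st f ∈ hs lt st e := by
  rcases P.nest e f with h | h | h | h | h | h
  exacts [.inl (.inl h), .inr (.inl h), .inl (.inr (.inl h)), .inr (.inr (.inl h)),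
    .inl (.inr (.inr h)), .inr (.inr (.inr h))]

theorem hs_not {e f : E} (a : f ∈ hs lt st e) (b : st f ∈ hs lt st e) : False := by
  rcases a with rfl | a | a <;> rcases b with b | b | b
  · exact P.ne _ b.symm
  · exact P.nst _ b
  · exact P.irr _ b
  · exact P.nst' f (b ▸ a)
  · exact P.sep a b
  · exact P.irr _ (P.tr a (P.anti' b))
  · rw [b, P.inv] at a
    exact P.irr _ a
  · exact P.irr _ (P.tr a (P.antir b))
  · exact P.sep a b

theorem hs_off {e f : E} (a : f ≠ e) (b : f ≠ st e) : f ∈ hs lt st e ↔ f ∈ hs lt st (st e) := by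
  simp only [hs, mem_ofPred_eq, P.inv, a.symm, b.symm, false_or, or_comm]

omit [Group G] [MulAction G E] P in
theorem hs_self (e : E) : e ∈ hs lt st e := .inl rfl

theorem hs_st (e : E) : e ∉ hs lt st (st e) := fun h => P.hs_not h (.inl rfl)

theorem hs_nx {e f : E} (h : Nx lt (st e) f) : hs lt st e = hs lt st f := by
  have k : hs lt st e ⊆ hs lt st f := by
    rintro x (rfl | a | a)
    · exact .inr (.inr (P.antil h.1))
    · exact .inr (.inr (P.tr (P.antil h.1) a))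
    · refine (P.hs_or f x).resolve_right ?_
      rintro (b | b | b)
      · exact P.sep a (b ▸ h.1)
      · exact P.sep a (P.tr h.1 b)
      · exact h.2 x a (P.anti' b)
  exact k.antisymm fun x a => (P.hs_or e x).resolve_right fun b => P.hs_not a (k b)

theorem hs_eq {e f : E} : hs lt st e = hs lt st f ↔ e = f ∨ Nx lt (st e) f := by
  refine ⟨fun h => ?_, fun h => h.elim (congrArg _) P.hs_nx⟩
  rcases (h.symm ▸ hs_self f : f ∈ hs lt st e) with a | a | a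
  · exact .inl a
  · rcases (h ▸ hs_self e : e ∈ hs lt st f) with b | b | b
    · exact .inl b.symm
    · exact (P.irr _ (P.tr a b)).elim
    · exact (P.nst' _ (P.tr b a)).elim
  · refine .inr ⟨a, fun x b c => ?_⟩
    rcases (h ▸ .inr (.inr b) : x ∈ hs lt st f) with rfl | d | d
    · exact P.irr _ c
    · exact P.irr _ (P.tr c d)
    · exact P.nst' _ (P.tr d c)

theorem hs_smul (g : G) (e f : E) : g • f ∈ hs lt st (g • e) ↔ f ∈ hs lt st e := by
  simp only [hs, mem_ofPred_eq, P.ast, P.act_iff, smul_left_cancel_iff]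

theorem hs_edge {e f : E} (a : hs lt st e = hs lt st f) (b : hs lt st (st e) = hs lt st (st f)) :
    e = f := by
  by_contra n
  have m : e ∈ hs lt st f := a ▸ hs_self e
  by_cases k : e = st f
  · exact P.hs_not (hs_self f) (k ▸ m)
  · exact P.hs_st e (b ▸ (P.hs_off n k).1 m)

/-- The tree whose oriented edges are the elements of the family. -/
theorem tree0 [Nonempty E] : ∃ (V : Type) (_ : MulAction G V) (T : SimpleGraph V) (hd : E → V),
    T.IsTree ∧ (∀ (g : G) e, hd (g • e) = g • hd e) ∧ Function.Surjective hd ∧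
    (∀ u v, T.Adj u v ↔ ∃ e, u = hd e ∧ v = hd (st e)) ∧
    (∀ e f, hd e = hd f ↔ e = f ∨ Nx lt (st e) f) ∧
    ∀ e f, hd e = hd f → hd (st e) = hd (st f) → e = f := by
  let s : Setoid E := Setoid.ker (hs lt st)
  have rs : ∀ (g : G) e f, s e f → s (g • e) (g • f) := fun g e f h => Set.ext fun x => by
    have h' : hs lt st e = hs lt st f := h
    rw [← smul_inv_smul g x, P.hs_smul, P.hs_smul, h']
  let _ : MulAction G (Quotient s) :=
    { smul := fun g => Quotient.map (g • ·) (rs g)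
      one_smul := fun q => Quotient.inductionOn q fun e => congrArg (Quotient.mk s) (one_smul G e)
      mul_smul := fun a b q => Quotient.inductionOn q fun e =>
        congrArg (Quotient.mk s) (mul_smul a b e) }
  have q : ∀ e f, Quotient.mk s e = Quotient.mk s f ↔ hs lt st e = hs lt st f := fun e f =>
    Quotient.eq
  let T : SimpleGraph (Quotient s) :=
    { Adj := fun u v => ∃ e, u = Quotient.mk s e ∧ v = Quotient.mk s (st e)
      symm := ⟨fun u v ⟨e, a, b⟩ => ⟨st e, b, by rwa [P.inv]⟩⟩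
      loopless := ⟨fun u ⟨e, a, b⟩ => P.hs_st e ((q _ _).1 (a.symm.trans b) ▸ hs_self e)⟩ }
  have ad : ∀ e, T.Adj (Quotient.mk s e) (Quotient.mk s (st e)) := fun e => ⟨e, rfl, rfl⟩
  have rl : ∀ n e f, lt e f → {x | lt e x ∧ lt x f}.ncard = n →
      T.Reachable (Quotient.mk s e) (Quotient.mk s f) := fun n => by
    induction n using Nat.strong_induction_on with
    | _ n ih =>
    intro e f h c
    by_cases z : ∃ x, lt e x ∧ lt x f
    · obtain ⟨x, a, b⟩ := z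
      refine (ih _ (c ▸ ncard_lt_ncard ?_ (P.fin e f)) e x a rfl).trans
        (ih _ (c ▸ ncard_lt_ncard ?_ (P.fin e f)) x f b rfl)
      · exact ⟨fun y k => ⟨k.1, P.tr k.2 b⟩, fun k => P.irr _ (k ⟨a, b⟩).2⟩
      · exact ⟨fun y k => ⟨P.tr a k.1, k.2⟩, fun k => P.irr _ (k ⟨a, b⟩).1⟩
    · have := (q (st e) f).2 (P.hs_nx (by rw [P.inv]; exact ⟨h, fun x a b => z ⟨x, a, b⟩⟩))
      exact this ▸ (ad e).reachable
  have cn : T.Connected := by
    have : Nonempty (Quotient s) := ‹Nonempty E›.map (Quotient.mk s)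
    refine ⟨fun u v => ?_⟩
    obtain ⟨e, rfl⟩ := u.exists_rep
    obtain ⟨f, rfl⟩ := v.exists_rep
    rcases P.nest e f with rfl | rfl | h | h | h | h
    · rfl
    · exact (ad f).reachable.symm
    · exact rl _ _ _ h rfl
    · exact (rl _ _ _ h rfl).trans (ad f).reachable.symm
    · exact (ad e).reachable.trans (rl _ _ _ h rfl)
    · exact ((ad e).reachable.trans (rl _ _ _ h rfl)).trans (ad f).reachable.symm
  refine ⟨Quotient s, inferInstance, T, Quotient.mk s, ⟨cn, ?_⟩, fun _ _ => rfl,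
    Quotient.mk_surjective, fun _ _ => Iff.rfl, fun e f => (q e f).trans P.hs_eq,
    fun e f a b => P.hs_edge ((q _ _).1 a) ((q _ _).1 b)⟩
  refine SimpleGraph.isAcyclic_iff_forall_adj_isBridge.2 ?_
  rintro _ _ ⟨e, rfl, rfl⟩
  refine SimpleGraph.isBridge_iff.2 fun r => ?_
  let F : Quotient s → Prop := Quotient.lift (fun f => e ∈ hs lt st f) fun a b h =>
    congrArg (e ∈ ·) (h : hs lt st a = hs lt st b)
  have k : ∀ u v, (T.deleteEdges {s(Quotient.mk s e, Quotient.mk s (st e))}).Reachable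
      u v → (F u ↔ F v) := fun u v r => by
    rw [SimpleGraph.reachable_iff_reflTransGen] at r
    induction r with
    | refl => rfl
    | tail _ a ih =>
      obtain ⟨⟨f, rfl, rfl⟩, n⟩ := SimpleGraph.deleteEdges_adj.1 a
      refine ih.trans (P.hs_off (fun c => n ?_) fun c => n ?_)
      · subst c
        rfl
      · subst c
        rw [P.inv]
        exact Sym2.eq_swap
  exact P.hs_st e ((k _ _ r).1 (hs_self e))

theorem iv_smul (g : G) {e : E} (h : Iv G st e) : Iv G st (g • e) :=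
  let ⟨a, k⟩ := h
  ⟨g * a * g⁻¹, by rw [mul_smul, mul_smul, inv_smul_smul, k, P.ast]⟩

theorem iv_iff (g : G) {e : E} : Iv G st (g • e) ↔ Iv G st e :=
  ⟨fun h => by simpa only [inv_smul_smul] using P.iv_smul g⁻¹ h, P.iv_smul g⟩

theorem iv_st {e : E} : Iv G st (st e) ↔ Iv G st e :=
  ⟨fun ⟨a, k⟩ => ⟨a⁻¹, by rw [inv_smul_eq_iff, k, P.inv]⟩,
    fun ⟨a, k⟩ => ⟨a⁻¹, by rw [inv_smul_eq_iff, P.inv, k]⟩⟩

end Poc

/-- The tree of a family: the edge of `e` joins `tl e` to `hd e`; for a reversed wall `tl e` is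
the midpoint. -/
structure Tr (G : Type) {E V : Type} [Group G] [MulAction G E] [MulAction G V]
    (lt : E → E → Prop) (st : E → E) (T : SimpleGraph V) (hd tl : E → V) : Prop where
  tree : T.IsTree
  act : ∀ (g : G) u v, T.Adj u v → T.Adj (g • u) (g • v)
  ninv : ∀ (g : G) u v, T.Adj u v → g • u = v → g • v ≠ u
  hde : ∀ (g : G) e, hd (g • e) = g • hd e
  tle : ∀ (g : G) e, tl (g • e) = g • tl e
  adj : ∀ e, T.Adj (hd e) (tl e)
  all : ∀ v, ∃ e, v = hd e ∨ Iv G st e ∧ v = tl e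
  edge : ∀ u v, T.Adj u v → ∃ e, u = hd e ∧ v = tl e ∨ v = hd e ∧ u = tl e
  uniq : ∀ e f, hd e = hd f → tl e = tl f → e = f
  hdq : ∀ e f, hd e = hd f ↔ e = f ∨ Nx lt (st e) f
  tl0 : ∀ e, ¬ Iv G st e → tl e = hd (st e)
  tl1 : ∀ e f, Iv G st e → hd f ≠ tl e
  tl2 : ∀ e f, Iv G st e → (tl e = tl f ↔ f = e ∨ f = st e)

theorem Poc.tree (P : Poc G lt st) [Nonempty E] :
    ∃ (V : Type) (_ : MulAction G V) (T : SimpleGraph V) (hd tl : E → V), Tr G lt st T hd tl := by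
  let D := {p : E × Prop // p.2 → Iv G st p.1}
  let _ : MulAction G D :=
    { smul := fun g p => ⟨(g • p.1.1, p.1.2), fun h => P.iv_smul g (p.2 h)⟩
      one_smul := fun p => Subtype.ext (Prod.ext (one_smul G p.1.1) rfl)
      mul_smul := fun a b p => Subtype.ext (Prod.ext (mul_smul a b p.1.1) rfl) }
  let l : D → D → Prop := fun p q => lt p.1.1 q.1.1 ∨ p.1.1 = q.1.1 ∧ ¬ p.1.2 ∧ q.1.2
  let s : D → D := fun p => ⟨(st p.1.1, Iv G st p.1.1 ∧ ¬ p.1.2), fun h => P.iv_st.2 h.1⟩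
  have ext : ∀ p q : D, p.1.1 = q.1.1 → (p.1.2 ↔ q.1.2) → p = q := fun p q a b =>
    Subtype.ext (Prod.ext a (propext b))
  have si : ∀ p, s (s p) = p := fun p => ext _ _ (P.inv _)
    ⟨fun h => by_contra fun n => h.2 ⟨P.iv_st.1 h.1, n⟩, fun h => ⟨P.iv_st.2 (p.2 h), fun k => k.2 h⟩⟩
  have an : ∀ {p q}, l p q → l (s q) (s p) := by
    rintro p q (h | ⟨a, b, c⟩)
    · exact .inl (P.anti h)
    · exact .inr ⟨congrArg st a.symm, fun k => k.2 c, a ▸ q.2 c, b⟩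
  have t3 : ∀ p q : D, p.1.1 = q.1.1 → p = q ∨ l p q ∨ l q p := fun p q h => by
    by_cases a : p.1.2 <;> by_cases b : q.1.2
    exacts [.inl (ext _ _ h (iff_of_true a b)), .inr (.inr (.inr ⟨h.symm, b, a⟩)),
      .inr (.inl (.inr ⟨h, a, b⟩)), .inl (ext _ _ h (iff_of_false a b))]
  have Q : Poc G l s := by
    refine ⟨fun p h => h.elim (P.irr _) fun k => k.2.1 k.2.2, ?_, si,
      fun p h => P.ne _ (congrArg (·.1.1) h), fun p h => h.elim (P.nst _) fun k => P.ne _ k.1.symm,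
      an, fun g p q h => h.imp (P.act g) fun k => ⟨congrArg (g • ·) k.1, k.2⟩,
      fun g p => ext _ _ (P.ast g _) (and_congr_left' (P.iv_iff g)), fun p q => ?_, fun p q => ?_⟩
    · rintro p q r (a | ⟨a, b, c⟩) (d | ⟨d, e, f⟩)
      exacts [.inl (P.tr a d), .inl (d ▸ a), .inl (a ▸ d), absurd c e]
    · rcases P.nest p.1.1 q.1.1 with h | h | h | h | h | h
      · rcases t3 p q h with k | k | k
        exacts [.inl k, .inr (.inr (.inl k)), .inr (.inr (.inr (.inr (.inr (an k)))))]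
      · rcases t3 p (s q) h with k | k | k
        exacts [.inr (.inl k), .inr (.inr (.inr (.inl k))),
          .inr (.inr (.inr (.inr (.inl (si q ▸ an k)))))]
      · exact .inr (.inr (.inl (.inl h)))
      · exact .inr (.inr (.inr (.inl (.inl h))))
      · exact .inr (.inr (.inr (.inr (.inl (.inl h)))))
      · exact .inr (.inr (.inr (.inr (.inr (.inl h)))))
    · refine Set.Finite.of_finite_image (f := Subtype.val) (((((P.fin p.1.1 q.1.1).insert
        p.1.1).insert q.1.1).prod finite_univ).subset ?_) Subtype.val_injective.injOn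
      rintro _ ⟨x, ⟨a | a, b | b⟩, rfl⟩
      exacts [⟨.inr (.inr ⟨a, b⟩), trivial⟩, ⟨.inl b.1, trivial⟩, ⟨.inr (.inl a.1.symm), trivial⟩,
        ⟨.inl b.1, trivial⟩]
  let o : E → D := fun e => ⟨(e, False), False.elim⟩
  have : Nonempty D := ‹Nonempty E›.map o
  obtain ⟨V, _, T, hd, t, eq, sj, ad, hq, un⟩ := Q.tree0
  have cs : ∀ p : D, p = o p.1.1 ∨ Iv G st p.1.1 ∧ p = s (o (st p.1.1)) := fun p => by
    by_cases a : p.1.2
    · exact .inr ⟨p.2 a, ext _ _ (P.inv _).symm (iff_of_true a ⟨P.iv_st.2 (p.2 a), id⟩)⟩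
    · exact .inl (ext _ _ rfl (iff_of_false a id))
  have mid : ∀ e (p : D), Iv G st e → (hd (s (o e)) = hd p ↔ p = s (o e) ∨ p = s (o (st e))) := by
    intro e p i
    rw [hq, si]
    refine or_congr eq_comm ⟨fun ⟨a, b⟩ => ?_, ?_⟩
    · rcases a with a | a
      · exact absurd (.inl (by rwa [← P.inv e] at a)) (b (s (o (st e)))
          (.inr ⟨(P.inv e).symm, id, P.iv_st.2 i, id⟩))
      · exact ext _ _ (a.1.symm.trans (P.inv e).symm) (iff_of_true a.2.2 ⟨P.iv_st.2 i, id⟩)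
    · rintro rfl
      refine ⟨.inr ⟨(P.inv e).symm, id, P.iv_st.2 i, id⟩, ?_⟩
      rintro x (a | a) (b | b)
      · exact P.irr _ (P.tr a (P.inv e ▸ b))
      · exact P.irr e (by rwa [b.1.trans (P.inv e)] at a)
      · rw [← a.1] at b
        have b' : lt e (st (st e)) := b
        exact P.irr e (by rwa [P.inv] at b')
      · exact b.2.1 a.2.2
  refine ⟨V, inferInstance, T, fun e => hd (o e), fun e => hd (s (o e)), t, fun g u v a => ?_,
    fun g u v a x y => ?_, fun g e => eq g (o e), fun g e => ?_, fun e => (ad _ _).2 ⟨_, rfl, rfl⟩,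
    fun v => ?_, fun u v a => ?_, fun e f a b => congrArg (·.1.1) (un _ _ a b), fun e f => ?_,
    fun e n => congrArg hd (ext _ _ rfl (iff_of_false (fun k => n k.1) id)), fun e f i c => ?_,
    fun e f i => (mid e _ i).trans ?_⟩
  · obtain ⟨p, rfl, rfl⟩ := (ad _ _).1 a
    exact (ad _ _).2 ⟨g • p, (eq g p).symm, by rw [Q.ast, eq]⟩
  · obtain ⟨p, rfl, rfl⟩ := (ad _ _).1 a
    have k := un (g • p) (s p) (by rw [eq, x]) (by rw [Q.ast, eq, y, si])
    have k2 : p.1.2 ↔ Iv G st p.1.1 ∧ ¬ p.1.2 := Iff.of_eq (congrArg (·.1.2) k)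
    have k1 : Iv G st p.1.1 := ⟨g, congrArg (·.1.1) k⟩
    tauto
  · rw [← eq, ← Q.ast]
    rfl
  · obtain ⟨p, rfl⟩ := sj v
    rcases cs p with k | ⟨i, k⟩
    exacts [⟨_, .inl (congrArg hd k)⟩, ⟨_, .inr ⟨P.iv_st.2 i, congrArg hd k⟩⟩]
  · obtain ⟨p, rfl, rfl⟩ := (ad _ _).1 a
    rcases cs p with k | ⟨-, k⟩
    · exact ⟨_, .inl ⟨congrArg hd k, congrArg (fun x => hd (s x)) k⟩⟩
    · exact ⟨_, .inr ⟨congrArg hd ((congrArg s k).trans (si _)), congrArg hd k⟩⟩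
  · rw [hq]
    refine or_congr ⟨congrArg fun x : D => x.1.1, congrArg o⟩ ⟨fun ⟨a, b⟩ => ⟨a.resolve_right fun k => k.2.2,
      fun x c d => b (o x) (.inl c) (.inl d)⟩, fun ⟨a, b⟩ => ⟨.inl a, ?_⟩⟩
    rintro x (c | c) (d | d)
    · exact b _ c d
    · exact d.2.2
    · exact c.2.1 ⟨P.iv_st.1 ((congrArg (Iv G st) c.1).mpr (x.2 c.2.2)), id⟩
    · exact d.2.2
  · rcases (mid e _ i).1 c.symm with k | k
    · exact (Iff.of_eq (congrArg (·.1.2) k)).2 ⟨i, id⟩
    · exact (Iff.of_eq (congrArg (·.1.2) k)).2 ⟨P.iv_st.2 i, id⟩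
  · have j : ∀ a b, s (o a) = s (o b) ↔ a = b := fun a b =>
      ⟨fun k => (P.inv a).symm.trans ((congrArg (fun x : D => st x.1.1) k).trans (P.inv b)),
        congrArg fun x => s (o x)⟩
    exact or_congr ((j _ _).trans eq_comm) ((j _ _).trans eq_comm) |>.trans (by simp only [eq_comm])

variable {V : Type} [MulAction G V] {T : SimpleGraph V} {hd tl : E → V}

/-- the group of an edge is the stabiliser of the oriented wall -/
theorem Tr.stab (R : Tr G lt st T hd tl) (g : G) (e : E) :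
    g • hd e = hd e ∧ g • tl e = tl e ↔ g • e = e :=
  ⟨fun h => R.uniq _ _ ((R.hde g e).trans h.1) ((R.tle g e).trans h.2),
    fun h => ⟨by rw [← R.hde, h], by rw [← R.tle, h]⟩⟩

/-- the edges at an ordinary vertex -/
theorem Tr.nb (R : Tr G lt st T hd tl) (P : Poc G lt st) (e : E) (w : V) :
    T.Adj (hd e) w ↔ ∃ f, hd f = hd e ∧ w = tl f := by
  refine ⟨fun a => ?_, fun ⟨f, a, b⟩ => a ▸ b ▸ R.adj f⟩
  obtain ⟨f, ⟨a, b⟩ | ⟨a, b⟩⟩ := R.edge _ _ a
  · exact ⟨f, a.symm, b⟩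
  · have n : ¬ Iv G st f := fun i => R.tl1 f e i b
    exact ⟨st f, by rw [← R.tl0 f n, b], by rw [R.tl0 _ fun i => n (P.iv_st.1 i), P.inv, a]⟩

/-- the edges at a midpoint -/
theorem Tr.nbm (R : Tr G lt st T hd tl) {e : E} (i : Iv G st e) (w : V) :
    T.Adj (tl e) w ↔ w = hd e ∨ w = hd (st e) := by
  constructor
  · intro a
    obtain ⟨f, ⟨a, -⟩ | ⟨a, b⟩⟩ := R.edge _ _ a
    · exact absurd a.symm (R.tl1 e f i)
    · exact ((R.tl2 e f i).1 b).imp (fun k : f = e => k ▸ a) fun k : f = st e => k ▸ a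
  · rintro (rfl | rfl)
    · exact (R.adj e).symm
    · exact (R.tl2 e _ i).2 (.inr rfl) ▸ (R.adj _).symm

/-- the group of a midpoint -/
theorem Tr.stabm (R : Tr G lt st T hd tl) {e : E} (i : Iv G st e) (g : G) :
    g • tl e = tl e ↔ g • e = e ∨ g • e = st e := by
  rw [← R.tle, eq_comm, R.tl2 e _ i]

/-- the group of an ordinary vertex -/
theorem Tr.stabv (R : Tr G lt st T hd tl) (g : G) (e : E) :
    g • hd e = hd e ↔ g • e = e ∨ Nx lt (st e) (g • e) := by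
  rw [← R.hde, eq_comm, R.hdq, eq_comm]

/-- the vertex `v` lies in the half space of `e` -/
def In (T : SimpleGraph V) (hd tl : E → V) (v : V) (e : E) : Prop := Gl.side T (tl e) (hd e) v

theorem Tr.in_iff (R : Tr G lt st T hd tl) (P : Poc G lt st) (e : E) :
    (∀ f, In T hd tl (hd f) e ↔ f = e ∨ lt f e ∨ lt (st f) e) ∧
      ∀ f, Iv G st f → (In T hd tl (tl f) e ↔ lt f e ∨ lt (st f) e) := by
  let Φ : V → Prop := fun v => ∃ f, v = hd f ∧ e ∈ hs lt st f ∨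
    Iv G st f ∧ v = tl f ∧ (lt f e ∨ lt (st f) e)
  have h1 : ∀ f, Φ (hd f) ↔ e ∈ hs lt st f := fun f => by
    refine ⟨?_, fun h => ⟨f, .inl ⟨rfl, h⟩⟩⟩
    rintro ⟨x, ⟨a, b⟩ | ⟨i, a, -⟩⟩
    · exact P.hs_eq.2 ((R.hdq _ _).1 a) ▸ b
    · exact absurd a (R.tl1 x f i)
  have h2 : ∀ f, Iv G st f → (Φ (tl f) ↔ lt f e ∨ lt (st f) e) := fun f i => by
    refine ⟨?_, fun h => ⟨f, .inr ⟨i, rfl, h⟩⟩⟩
    rintro ⟨x, ⟨a, -⟩ | ⟨-, a, b⟩⟩
    · exact absurd a.symm (R.tl1 f x i)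
    · rcases (R.tl2 f x i).1 a with rfl | rfl
      · exact b
      · rw [P.inv] at b
        exact b.symm
  have h3 : ∀ f, s(hd f, tl f) ≠ s(tl e, hd e) → (Φ (hd f) ↔ Φ (tl f)) := fun f n => by
    have ne : f ≠ e := fun k => n (k ▸ Sym2.eq_swap)
    by_cases i : Iv G st f
    · rw [h1, h2 f i]
      exact or_iff_right ne
    · rw [R.tl0 f i, h1, h1]
      refine P.hs_off ne.symm fun k => n ?_
      rw [k, R.tl0 f i, R.tl0 _ fun j => i (P.iv_st.1 j), P.inv]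
  have h4 : ∀ p q, T.Adj p q → s(p, q) ≠ s(tl e, hd e) → (Φ p ↔ Φ q) := fun p q a n => by
    obtain ⟨f, ⟨rfl, rfl⟩ | ⟨rfl, rfl⟩⟩ := R.edge p q a
    · exact h3 f n
    · exact (h3 f fun k => n (Sym2.eq_swap.trans k)).symm
  have h5 : ¬ Φ (tl e) := by
    by_cases i : Iv G st e
    · rw [h2 e i]
      exact fun k => k.elim (P.irr e) (P.nst' e)
    · rw [R.tl0 e i, h1]
      exact P.hs_st e
  have h6 : ∀ v, In T hd tl v e ↔ Φ v := fun v => by
    constructor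
    · intro k
      induction k with
      | refl => exact (h1 e).2 (Poc.hs_self e)
      | tail _ a ih => exact (h4 _ _ a.1 a.2).1 ih
    · intro k
      by_contra n
      have m := (Gl.side_compl R.tree (R.adj e).symm v).2 n
      clear n
      induction m with
      | refl => exact h5 k
      | tail _ a ih => exact ih ((h4 _ _ a.1 fun c => a.2 (c.trans Sym2.eq_swap)).2 k)
  exact ⟨fun f => (h6 _).trans (h1 f), fun f i => (h6 _).trans (h2 f i)⟩

theorem Tr.in_hd (R : Tr G lt st T hd tl) (P : Poc G lt st) (f e : E) :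
    In T hd tl (hd f) e ↔ f = e ∨ lt f e ∨ lt (st f) e := (R.in_iff P e).1 f

theorem Tr.in_tl (R : Tr G lt st T hd tl) (P : Poc G lt st) {f : E} (i : Iv G st f) (e : E) :
    In T hd tl (tl f) e ↔ lt f e ∨ lt (st f) e := (R.in_iff P e).2 f i

theorem Tr.in_smul (R : Tr G lt st T hd tl) (g : G) {v : V} {e : E} (h : In T hd tl v e) :
    In T hd tl (g • v) (g • e) := by
  unfold In
  rw [R.hde, R.tle]
  exact Gl.side_smul R.act g h

/-- half spaces grow with the order -/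
theorem Tr.in_lt (R : Tr G lt st T hd tl) (P : Poc G lt st) {v : V} {e f : E} (l : lt e f)
    (h : In T hd tl v e) : In T hd tl v f := by
  obtain ⟨x, rfl | ⟨i, rfl⟩⟩ := R.all v
  · rw [R.in_hd P] at h ⊢
    rcases h with rfl | h | h
    exacts [.inr (.inl l), .inr (.inl (P.tr h l)), .inr (.inr (P.tr h l))]
  · rw [R.in_tl P i] at h ⊢
    exact h.imp (P.tr · l) (P.tr · l)

/-- opposite half spaces are disjoint -/
theorem Tr.in_not (R : Tr G lt st T hd tl) (P : Poc G lt st) {v : V} {e : E}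
    (h : In T hd tl v e) (k : In T hd tl v (st e)) : False := by
  obtain ⟨x, rfl | ⟨i, rfl⟩⟩ := R.all v
  · rw [R.in_hd P] at h k
    exact P.hs_not h k
  · rw [R.in_tl P i] at h k
    exact P.hs_not (e := x) (.inr h) (.inr k)

/-- opposite half spaces cover everything but the midpoint -/
theorem Tr.in_or (R : Tr G lt st T hd tl) (P : Poc G lt st) (v : V) (e : E) :
    In T hd tl v e ∨ In T hd tl v (st e) ∨ Iv G st e ∧ v = tl e := by
  obtain ⟨x, rfl | ⟨i, rfl⟩⟩ := R.all v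
  · rw [R.in_hd P, R.in_hd P]
    exact (P.hs_or x e).imp_right .inl
  · rw [R.in_tl P i, R.in_tl P i]
    rcases P.nest x e with rfl | rfl | h | h | h | h
    · exact .inr (.inr ⟨i, rfl⟩)
    · exact .inr (.inr ⟨P.iv_st.1 i, (R.tl2 _ _ i).2 (.inr (P.inv e).symm)⟩)
    exacts [.inl (.inl h), .inr (.inl (.inl h)), .inl (.inr h), .inr (.inl (.inr h))]

end Pool.Agent.Work.MP_3d425c_gt.Nh
end
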