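import Pool.Agent.Work.MP_3d425c_gt.Bq.Ibase
import Pool.Agent.Work.MP_3d425c_gt.Gl.Tree
import Pool.Agent.Work.MP_3d425c_gt.Bq.Dual1
import Pool.Agent.Work.MP_3d425c_gt.Bg.Rank
import Pool.Agent.Work.MP_3d425c_gt.Bg.Tf2
import Pool.Agent.Work.MP_3d425c_gt.Nh.Tree

-- merged part: Pool.Agent.Work.MP_3d425c_gt.Bq.Wall
section
/-! Walls from an action on a tree and their independence. -/

namespace Pool.Agent.Work.MP_3d425c_gt.Bq
open Set Relation MulAction Pool.Agent.Work.MP_3d425c_gt.Md Pool.Agent.Work.MP_3d425c_gt.Cy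
  Pool.Agent.Work.MP_3d425c_gt.Bg Pool.Agent.Work.MP_3d425c_gt.Gl

variable {G X0 X1 X2 X3 : Type} {V : Type*} [Group G] [MulAction G X0] [MulAction G X1]
  [MulAction G X2] [MulAction G X3] [MulAction G V] {T : Tri G X0 X1 X2 X3} {Γ : SimpleGraph V}

theorem wl_fi {X : Type} [MulAction G X] {P Q : Subgroup G} {S : Set X} (h : SmP Q S)
    (hf : (P.subgroupOf Q).FiniteIndex) : SmP P S := by
  obtain ⟨K, hK, h⟩ := h
  have : Finite (Q ⧸ P.subgroupOf Q) := Subgroup.finite_quotient_of_finiteIndex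
  refine ⟨⋃ q : Q ⧸ P.subgroupOf Q, (fun k => ((q.out : Q) : G)⁻¹ • k) '' K,
    finite_iUnion fun q => hK.image _, fun x hx => ?_⟩
  obtain ⟨k, hk, p, hp, e⟩ := h x hx
  obtain ⟨a, ha⟩ := QuotientGroup.mk_out_eq_mul (P.subgroupOf Q) (⟨p, hp⟩ : Q)⁻¹
  refine ⟨_, mem_iUnion.2 ⟨QuotientGroup.mk (⟨p, hp⟩ : Q)⁻¹, k, hk, rfl⟩, ((a : Q) : G), a.2, ?_⟩
  show x = ((a : Q) : G) • ((Quotient.out _ : Q) : G)⁻¹ • k
  rw [ha, e, ← mul_smul]
  simp

/-- a free orbit of `Q` that is finite modulo `P` -/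
theorem wl_of_orbit {X : Type} [MulAction G X] (hX : ∀ (g : G) (x : X), g • x = x → g = 1)
    {P Q : Subgroup G} (hP : P ≤ Q) (x : X) (h : SmP P {y | ∃ g ∈ Q, y = g • x}) :
    (P.subgroupOf Q).FiniteIndex := by
  obtain ⟨K, hK, h⟩ := h
  refine finiteIndex_of (G := Q) (fun g x e => Subtype.ext (hX g x e)) x K hK fun g => ?_
  obtain ⟨k, hk, p, hp, e⟩ := h _ ⟨g, g.2, rfl⟩
  exact ⟨k, hk, ⟨⟨p, hP hp⟩, hp⟩, e⟩

/-- a subgroup of the free abelian group of rank two is cyclic or of finite index -/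
theorem wl_rank {P Q : Subgroup G} (le : P ≤ Q) (i : Q ≃* Multiplicative (ℤ × ℤ))
    (hn : ¬ IsCyclic P) : (P.subgroupOf Q).FiniteIndex := by
  obtain ⟨a, b, -, id, hb⟩ := d1_basis Q P le i hn
  have ma : a ∈ Q := le ((hb a).2 ⟨1, 0, by rw [zpow_one, zpow_zero, mul_one]⟩)
  have mb : b ∈ Q := le ((hb b).2 ⟨0, 1, by rw [zpow_one, zpow_zero, one_mul]⟩)
  obtain ⟨α, hα⟩ : ∃ α, α = (i ⟨a, ma⟩).toAdd := ⟨_, rfl⟩
  obtain ⟨β, hβ⟩ : ∃ β, β = (i ⟨b, mb⟩).toAdd := ⟨_, rfl⟩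
  have key : ∀ (m n : ℤ) (x : Q), m • α + n • β = (i x).toAdd → (x : G) = a ^ m * b ^ n := by
    intro m n x e
    have : x = (⟨a, ma⟩ : Q) ^ m * (⟨b, mb⟩ : Q) ^ n := i.injective (Multiplicative.toAdd.injective
      (by rw [map_mul, map_zpow, map_zpow, toAdd_mul, toAdd_zpow, toAdd_zpow, ← hα, ← hβ, e]))
    rw [this]
    simp
  have z : ∀ m n : ℤ, m • α + n • β = 0 → m = 0 ∧ n = 0 := fun m n e =>
    id m n (key m n 1 (by rw [e, map_one, toAdd_one])).symm
  have dn : α.1 * β.2 - α.2 * β.1 ≠ 0 := fun d => by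
    have p := z β.2 (-α.2) (Prod.ext (by simp; linarith) (by simp; ring))
    have q := z β.1 (-α.1) (Prod.ext (by simp; ring) (by simp; linarith))
    exact one_ne_zero (z 0 1 (Prod.ext (by simp [q.1]) (by simp [p.1]))).2
  have fi := Subgroup.finiteIndex_range_powMonoidHom_of_fg (Multiplicative (ℤ × ℤ))
    (Int.natAbs_ne_zero.2 dn)
  have fi2 : (Subgroup.comap i.toMonoidHom (powMonoidHom (α.1 * β.2 - α.2 * β.1).natAbs :
      Multiplicative (ℤ × ℤ) →* _).range).FiniteIndex :=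
    ⟨by rw [Subgroup.index_comap_of_surjective _ i.surjective]; exact fi.1⟩
  refine Subgroup.finiteIndex_of_le (H := Subgroup.comap i.toMonoidHom
    (powMonoidHom (α.1 * β.2 - α.2 * β.1).natAbs : Multiplicative (ℤ × ℤ) →* _).range) ?_
  rintro x ⟨y, hy⟩
  have e : (i x).toAdd = ((α.1 * β.2 - α.2 * β.1).natAbs : ℤ) • y.toAdd := by
    rw [show i x = y ^ (α.1 * β.2 - α.2 * β.1).natAbs from hy.symm, toAdd_pow, natCast_zsmul]
  refine (hb x).2 ?_
  rcases Int.natAbs_eq (α.1 * β.2 - α.2 * β.1) with d | d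
  · refine ⟨y.toAdd.1 * β.2 - y.toAdd.2 * β.1, α.1 * y.toAdd.2 - α.2 * y.toAdd.1, key _ _ x ?_⟩
    rw [e, ← d]
    exact Prod.ext (by simp; ring) (by simp; ring)
  · refine ⟨-(y.toAdd.1 * β.2 - y.toAdd.2 * β.1), -(α.1 * y.toAdd.2 - α.2 * y.toAdd.1),
      key _ _ x ?_⟩
    rw [e, ← neg_eq_iff_eq_neg.2 d]
    exact Prod.ext (by simp; ring) (by simp; ring)

/-- half spaces of the complex behind the edges at `v` -/
structure Walls (T : Tri G X0 X1 X2 X3) (Γ : SimpleGraph V) (v : V) (A : V → Set X0) : Prop where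
  adj : ∀ (g : G) w, g • v = v → Γ.Adj v w → Γ.Adj v (g • w)
  smul : ∀ (g : G) w x, g • v = v → (g • x ∈ A (g • w) ↔ x ∈ A w)
  disj : ∀ w w' x, Γ.Adj v w → Γ.Adj v w' → x ∈ A w → x ∈ A w' → w = w'
  fin : ∀ w, Γ.Adj v w →
    SmP (stabilizer G v ⊓ stabilizer G w) {e | ¬ (T.d1 e 0 ∈ A w ↔ T.d1 e 1 ∈ A w)}
  inf : ∀ w, Γ.Adj v w → ¬ SmP (stabilizer G v) (A w)
  out : ∃ x, ∀ g : G, g • v = v → ∀ w, Γ.Adj v w → g • x ∉ A w

theorem side_iff (act : ∀ (g : G) p q, Γ.Adj p q → Γ.Adj (g • p) (g • q)) (g : G) (a b x : V) :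
    side Γ (g • a) (g • b) (g • x) ↔ side Γ a b x :=
  ⟨fun k => by simpa using side_smul act g⁻¹ k, side_smul act g⟩

theorem side_uniq (hT : Γ.IsTree) {v w w' y : V} (h : Γ.Adj v w) (h' : Γ.Adj v w')
    (k : side Γ v w y) (k' : side Γ v w' y) : w = w' := by
  by_contra n
  refine nested h' (fun e => ?_) (side_not hT h) (side_not hT h') k' k
  rcases Sym2.eq_iff.1 e with ⟨-, e⟩ | ⟨e, -⟩
  · exact n e.symm
  · exact h.ne e

theorem side_ex (hT : Γ.IsTree) (v y : V) : y = v ∨ ∃ w, Γ.Adj v w ∧ side Γ v w y := by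
  refine conn hT (fun y => y = v ∨ ∃ w, Γ.Adj v w ∧ side Γ v w y) ?_ (.inl rfl) y
  rintro p q k (rfl | ⟨w, hw, m⟩)
  · exact .inr ⟨q, k, .refl⟩
  · by_cases e : s(p, q) = s(v, w)
    · rcases Sym2.eq_iff.1 e with ⟨-, rfl⟩ | ⟨-, rfl⟩
      · exact .inr ⟨_, hw, .refl⟩
      · exact .inl rfl
    · exact .inr ⟨w, hw, (side_adj k e).1 m⟩

theorem sep_fin (hT : Γ.IsTree) (p q : V) :
    {c : V × V | ¬ (side Γ c.1 c.2 p ↔ side Γ c.1 c.2 q)}.Finite := by
  refine conn hT (fun q => {c : V × V | ¬ (side Γ c.1 c.2 p ↔ side Γ c.1 c.2 q)}.Finite) ?_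
    (x := p) (by simp) q
  intro x y k ih
  refine ((ih.insert (x, y)).insert (y, x)).subset fun c hc => ?_
  by_cases e : s(x, y) = s(c.1, c.2)
  · rcases Sym2.eq_iff.1 e with ⟨a, b⟩ | ⟨a, b⟩
    · exact .inr (.inl (Prod.ext a.symm b.symm))
    · exact .inl (Prod.ext b.symm a.symm)
  · exact .inr (.inr fun m => hc (m.trans (side_adj k e)))

theorem exists_equiv (T : Tri G X0 X1 X2 X3) (v : V) :
    ∃ f : X0 → V, (∀ (g : G) x, f (g • x) = g • f x) ∧ ∃ x, f x = v := by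
  have h : ∀ x : X0, ∃ g : G, g • Quotient.out (ob G x) = x := fun x =>
    ob_eq_iff.1 (ob_out (ob G x)).symm
  choose γ hγ using h
  have e : ∀ (g : G) x, γ (g • x) = g * γ x := fun g x => by
    have a := hγ (g • x)
    rw [ob_smul] at a
    have b : ((g * γ x)⁻¹ * γ (g • x)) • Quotient.out (ob G x) = Quotient.out (ob G x) := by
      rw [mul_smul, a, inv_smul_eq_iff, mul_smul, hγ]
    exact (inv_mul_eq_one.1 (T.free _ _ b)).symm
  obtain ⟨x⟩ := T.ne
  refine ⟨fun x => γ x • v, fun g x => by simp only [e, mul_smul],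
    (γ (T.d1 (T.d2 (T.d3 x 0) 0) 0))⁻¹ • T.d1 (T.d2 (T.d3 x 0) 0) 0, ?_⟩
  show γ _ • v = v
  rw [e, inv_mul_cancel, one_smul]

theorem exists_walls (hM : Mfd T) (hT : Γ.IsTree)
    (act : ∀ (g : G) p q, Γ.Adj p q → Γ.Adj (g • p) (g • q)) (v : V)
    (beh : ∀ w, Γ.Adj v w → ∃ g : G, side Γ v w (g • v))
    (hi : ∀ w, Γ.Adj v w → ¬ ((stabilizer G w).subgroupOf (stabilizer G v)).FiniteIndex) :
    ∃ A, Walls T Γ v A := by
  classical
  obtain ⟨f, hf, x₀, h₀⟩ := exists_equiv T v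
  have adj : ∀ (g : G) w, g • v = v → Γ.Adj v w → Γ.Adj v (g • w) := fun g w e k => by
    simpa only [e] using act g _ _ k
  refine ⟨fun w => {x | side Γ v w (f x)}, adj, fun g w x e => ?_,
    fun w w' x h h' k k' => side_uniq hT h h' k k', fun w hw => ?_, fun w hw => ?_,
    x₀, fun g e w hw k => ?_⟩
  · have := side_iff act g v w (f x)
    rw [e, ← hf] at this
    exact this
  · have := hM.fin1
    have ch : ∀ c : V × V, ∃ γ : G, (∃ g : G, g • c.1 = v ∧ g • c.2 = w) →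
        γ • c.1 = v ∧ γ • c.2 = w := fun c => by
      by_cases a : ∃ g : G, g • c.1 = v ∧ g • c.2 = w
      · exact a.imp fun _ k _ => k
      · exact ⟨1, fun k => absurd k a⟩
    choose γ hγ using ch
    refine ⟨⋃ o : Ob G X1, (fun c => γ c • Quotient.out o) ''
      {c : V × V | ¬ (side Γ c.1 c.2 (f (T.d1 (Quotient.out o) 0)) ↔
        side Γ c.1 c.2 (f (T.d1 (Quotient.out o) 1)))},
      finite_iUnion fun o => (sep_fin hT _ _).image _, fun e he => ?_⟩
    obtain ⟨g, hg⟩ := ob_eq_iff.1 (ob_out (ob G e)).symm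
    obtain ⟨a, b⟩ := hγ (g⁻¹ • v, g⁻¹ • w) ⟨g, smul_inv_smul _ _, smul_inv_smul _ _⟩
    refine ⟨_, mem_iUnion.2 ⟨ob G e, (g⁻¹ • v, g⁻¹ • w), fun k => he ?_, rfl⟩,
      g * (γ (g⁻¹ • v, g⁻¹ • w))⁻¹, ⟨?_, ?_⟩, ?_⟩
    · have i : ∀ j, side Γ (g⁻¹ • v) (g⁻¹ • w) (f (T.d1 (Quotient.out (ob G e)) j)) ↔
          side Γ v w (f (T.d1 e j)) := fun j => by
        rw [← side_iff act g, smul_inv_smul, smul_inv_smul, ← hf, ← T.e1, hg]
      exact (i 0).symm.trans (k.trans (i 1))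
    · show (g * _) • v = v
      rw [mul_smul, ← eq_inv_smul_iff, inv_smul_eq_iff]
      exact a.symm
    · show (g * _) • w = w
      rw [mul_smul, ← eq_inv_smul_iff, inv_smul_eq_iff]
      exact b.symm
    · show e = (g * _) • γ _ • _
      rw [mul_smul, inv_smul_smul, hg]
  · rintro ⟨K, hK, h⟩
    obtain ⟨g, hg⟩ := beh w hw
    have ne : g⁻¹ • v ≠ v := fun e => side_not hT hw (by
      rwa [← (inv_smul_eq_iff.1 e)] at hg)
    obtain ⟨w', hw', k'⟩ := (side_ex hT v (g⁻¹ • v)).resolve_left ne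
    have ch : ∀ k : X0, ∃ a : stabilizer G v, (∃ b : stabilizer G v, ∃ p ∈ stabilizer G v,
        (g * b) • x₀ = p • k) → ∃ p ∈ stabilizer G v, (g * a) • x₀ = p • k := fun k => by
      by_cases a : ∃ b : stabilizer G v, ∃ p ∈ stabilizer G v, (g * b) • x₀ = p • k
      · exact a.imp fun _ k _ => k
      · exact ⟨1, fun k => absurd k a⟩
    choose α hα using ch
    refine hi w' hw' (finiteIndex_of (G := stabilizer G v) (X := stabilizer G v)
      (fun a x e => mul_eq_right.1 e) 1 (α '' K) (hK.image _) fun b => ?_)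
    obtain ⟨k, hk, p, hp, e⟩ := h ((g * b) • x₀) (by
      show side Γ v w (f _)
      rwa [hf, h₀, mul_smul, show (b : G) • v = v from b.2])
    obtain ⟨p', hp', e'⟩ := hα k ⟨b, p, hp, e⟩
    have q : (g * b : G) = p * p'⁻¹ * (g * α k) := by
      have : ((p * p'⁻¹ * (g * α k))⁻¹ * (g * b)) • x₀ = x₀ := by
        rw [mul_smul, e, inv_smul_eq_iff, mul_smul, e', mul_smul, inv_smul_smul]
      exact (inv_mul_eq_one.1 (T.free _ _ this)).symm
    have q1 : ((b * (α k)⁻¹ : stabilizer G v) : G) = g⁻¹ * (p * p'⁻¹) * g := by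
      rw [Subgroup.coe_mul, Subgroup.coe_inv, mul_inv_eq_iff_eq_mul, mul_assoc, mul_assoc,
        eq_inv_mul_iff_mul_eq, q]
    have q2 : ((b * (α k)⁻¹ : stabilizer G v) : G) • g⁻¹ • v = g⁻¹ • v := by
      rw [q1, mul_smul, smul_inv_smul, mul_smul,
        show (p * p'⁻¹) • v = v from mul_mem hp (inv_mem hp')]
    have q3 : ((b * (α k)⁻¹ : stabilizer G v) : G) • v = v := (b * (α k)⁻¹).2
    refine ⟨α k, ⟨k, hk, rfl⟩, ⟨b * (α k)⁻¹, ?_⟩, ?_⟩
    · have := side_smul act ((b * (α k)⁻¹ : stabilizer G v) : G) k'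
      rw [q2, q3] at this
      exact side_uniq hT (adj _ _ q3 hw') hw' this k'
    · show b * 1 = b * (α k)⁻¹ * α k
      rw [mul_one, inv_mul_cancel_right]
  · have k' : side Γ v w (f (g • x₀)) := k
    rw [hf, h₀, e] at k'
    exact side_not hT hw k'

open Classical in
/-- the indicator -/
noncomputable def wi (S : Set X0) (x : X0) : ℝ := if x ∈ S then 1 else 0

/-- the coboundary of the indicator -/
noncomputable def wz (T : Tri G X0 X1 X2 X3) (S : Set X0) (e : X1) : ℝ :=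
  wi S (T.d1 e 0) - wi S (T.d1 e 1)

/-- the translates of a half space -/
def EA (E : Subgroup G) (A : V → Set X0) (w : V) : Set X0 := {x | ∃ g ∈ E, x ∈ A (g • w)}

theorem wi_pos {S : Set X0} {x : X0} (h : x ∈ S) : wi S x = 1 := if_pos h
theorem wi_neg {S : Set X0} {x : X0} (h : x ∉ S) : wi S x = 0 := if_neg h

theorem wi_congr {S S' : Set X0} {x y : X0} (h : x ∈ S ↔ y ∈ S') : wi S x = wi S' y := by
  by_cases a : x ∈ S
  · rw [wi_pos a, wi_pos (h.1 a)]
  · rw [wi_neg a, wi_neg fun b => a (h.2 b)]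

theorem wz_coc (S : Set X0) (f : X2) :
    wz T S (T.d2 f 1) = wz T S (T.d2 f 2) + wz T S (T.d2 f 0) := by
  unfold wz
  rw [sa, sb, sc']
  ring

theorem wz_ne {S : Set X0} {e : X1} (h : wz T S e ≠ 0) : ¬ (T.d1 e 0 ∈ S ↔ T.d1 e 1 ∈ S) :=
  fun k => h (sub_eq_zero.2 (wi_congr k))

/-- a function that is constant along edges is constant -/
theorem const_of (hM : Mfd T) {t : X0 → ℝ} (h : ∀ e, t (T.d1 e 0) = t (T.d1 e 1)) (x y : X0) :
    t x = t y := by
  obtain ⟨q, hq⟩ := hM.conn x y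
  induction hq with
  | nil => rfl
  | @cons a l b q c k _ ih =>
    refine Eq.trans ?_ ih
    obtain ⟨e, _ | _⟩ := l
    · rw [show b = T.d1 e 1 from k.1, show a = T.d1 e 0 from k.2, h]
    · rw [show a = T.d1 e 1 from k.1, show b = T.d1 e 0 from k.2, h]

namespace Walls
variable {v : V} {A : V → Set X0} (h : Walls T Γ v A) {E : Subgroup G}
include h

theorem wi_smul {g : G} (hg : g • v = v) (w : V) (x : X0) :
    wi (A (g • w)) (g • x) = wi (A w) x := wi_congr (h.smul g w x hg)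

theorem wz_smul {g : G} (hg : g • v = v) (w : V) (e : X1) :
    wz T (A (g • w)) (g • e) = wz T (A w) e := by
  unfold wz
  rw [T.e1, T.e1, h.wi_smul hg, h.wi_smul hg]

theorem wz_inv {g : G} (hg : g • v = v) {w : V} (hw : g • w = w) (e : X1) :
    wz T (A w) (g • e) = wz T (A w) e := by
  have := h.wz_smul hg w e
  rwa [hw] at this

theorem wz_fm {w : V} (hw : Γ.Adj v w) {P : Subgroup G}
    (hf : (P.subgroupOf (stabilizer G v ⊓ stabilizer G w)).FiniteIndex) :
    SmP P (Function.support (wz T (A w))) :=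
  (wl_fi (h.fin w hw) hf).mono fun _ k => wz_ne k

theorem EA_smul (hE : E ≤ stabilizer G v) {g : G} (hg : g ∈ E) (w : V) (x : X0) :
    g • x ∈ EA E A w ↔ x ∈ EA E A w := by
  refine ⟨fun ⟨a, ha, k⟩ => ⟨g⁻¹ * a, mul_mem (inv_mem hg) ha, ?_⟩,
    fun ⟨a, ha, k⟩ => ⟨g * a, mul_mem hg ha, ?_⟩⟩
  · rwa [← h.smul g _ _ (hE hg), ← mul_smul, mul_inv_cancel_left]
  · rwa [mul_smul, h.smul g _ _ (hE hg)]

/-- the walls are independent modulo coboundaries of functions with cofinite support -/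
theorem indep (hM : Mfd T) (hE : E ≤ stabilizer G v)
    (hi : ¬ (E.subgroupOf (stabilizer G v)).FiniteIndex) {ι : Type*} [Fintype ι] (w : ι → V)
    (hw : ∀ i, Γ.Adj v (w i)) (hne : ∀ i j, ∀ g ∈ E, g • w i = w j → i = j) (c : ι → ℝ)
    (s : X0 → ℝ) (hs : SmP E (Function.support s))
    (e : ∀ e, ∑ i, c i * wz T (EA E A (w i)) e = s (T.d1 e 0) - s (T.d1 e 1)) (i : ι) :
    c i = 0 := by
  classical
  have ct := const_of hM (t := fun x => s x - ∑ i, c i * wi (EA E A (w i)) x) fun a => by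
    have := e a
    simp only [wz, mul_sub, Finset.sum_sub_distrib] at this
    show _ - _ = _ - _
    linarith
  obtain ⟨x₀, h₀⟩ := h.out
  have z : ∃ g : G, g • v = v ∧ s (g • x₀) = 0 := by
    by_contra n
    refine hi (wl_of_orbit T.free hE x₀ (hs.mono ?_))
    rintro _ ⟨g, hg, rfl⟩ k
    exact n ⟨g, hg, k⟩
  obtain ⟨g, hg, z⟩ := z
  by_contra n
  refine h.inf (w i) (hw i) ((hs.le hE).mono fun x hx k => n ?_)
  have a := ct x (g • x₀)
  have b : ∑ j, c j * wi (EA E A (w j)) (g • x₀) = 0 := Finset.sum_eq_zero fun j _ => by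
    rw [wi_neg, mul_zero]
    exact fun ⟨a, ha, k⟩ => h₀ g hg _ (h.adj a _ (hE ha) (hw j)) k
  have d : ∑ j, c j * wi (EA E A (w j)) x = c i := by
    have u : x ∈ EA E A (w i) := ⟨1, one_mem _, by rwa [one_smul]⟩
    rw [Finset.sum_eq_single i (fun j _ m => ?_) fun m => absurd (Finset.mem_univ i) m,
      wi_pos u, mul_one]
    rw [wi_neg, mul_zero]
    exact fun ⟨a, ha, k⟩ =>
      m (hne j i a ha (h.disj _ _ x (h.adj a _ (hE ha) (hw j)) (hw i) k hx))
  simp only [b, d, z, k] at a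
  linarith

theorem mem_out (hE : E ≤ stabilizer G v) (g : E) (w : V) (x : X0) :
    g⁻¹ • x ∈ A w ↔ x ∈ A ((g : G) • w) := by
  rw [← h.smul g w _ (hE g.2)]
  show (g : G) • (g : G)⁻¹ • x ∈ _ ↔ _
  rw [smul_inv_smul]

theorem sup_sub (hE : E ≤ stabilizer G v) {w : V} (hw : Γ.Adj v w) {P : Subgroup E}
    (hP : ∀ p : E, p ∈ P ↔ (p : G) • w = w) (x : X0) :
    (Function.support fun q : E ⧸ P => wi (A w) (q.out⁻¹ • x)).Subsingleton := by
  intro q hq q' hq'
  have a : q.out⁻¹ • x ∈ A w := by_contra fun k => hq (wi_neg k)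
  have b : q'.out⁻¹ • x ∈ A w := by_contra fun k => hq' (wi_neg k)
  rw [h.mem_out hE] at a b
  have c := h.disj _ _ x (h.adj _ _ (hE q.out.2) hw) (h.adj _ _ (hE q'.out.2) hw) a b
  rw [← q.out_eq, ← q'.out_eq]
  refine QuotientGroup.eq.2 ((hP _).2 ?_)
  rw [Subgroup.coe_mul, Subgroup.coe_inv, mul_smul, ← c, inv_smul_smul]

theorem sum_wi (hE : E ≤ stabilizer G v) {w : V} (hw : Γ.Adj v w) {P : Subgroup E}
    (hP : ∀ p : E, p ∈ P ↔ (p : G) • w = w) (x : X0) :
    ∑ᶠ q : E ⧸ P, wi (A w) (q.out⁻¹ • x) = wi (EA E A w) x := by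
  by_cases a : x ∈ EA E A w
  · rw [wi_pos a]
    obtain ⟨g, hg, k⟩ := a
    obtain ⟨p, hp⟩ := QuotientGroup.mk_out_eq_mul P (⟨g, hg⟩ : E)
    have b : wi (A w) ((QuotientGroup.mk (s := P) (⟨g, hg⟩ : E)).out⁻¹ • x) = 1 := by
      refine wi_pos ((h.mem_out hE _ _ _).2 ?_)
      rwa [hp, Subgroup.coe_mul, mul_smul, (hP _).1 p.2]
    rw [finsum_eq_single _ (QuotientGroup.mk (s := P) (⟨g, hg⟩ : E)) fun q n => ?_, b]
    by_contra m
    exact n (h.sup_sub hE hw hP x m (b.trans_ne one_ne_zero))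
  · rw [wi_neg a]
    exact finsum_eq_zero_of_forall_eq_zero fun q =>
      wi_neg fun k => a ⟨_, q.out.2, (h.mem_out hE _ _ _).1 k⟩

theorem sum_wz (hE : E ≤ stabilizer G v) {w : V} (hw : Γ.Adj v w) {P : Subgroup E}
    (hP : ∀ p : E, p ∈ P ↔ (p : G) • w = w) (e : X1) :
    ∑ᶠ q : E ⧸ P, wz T (A w) (q.out⁻¹ • e) = wz T (EA E A w) e := by
  have a : ∀ (q : E ⧸ P) i, T.d1 (q.out⁻¹ • e) i = q.out⁻¹ • T.d1 e i := fun q i =>
    T.e1 ((q.out⁻¹ : E) : G) e i
  unfold wz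
  simp only [a]
  rw [finsum_sub_distrib (h.sup_sub hE hw hP _).finite (h.sup_sub hE hw hP _).finite,
    h.sum_wi hE hw hP, h.sum_wi hE hw hP]

theorem sup {w : V} (hw : Γ.Adj v w) {P : Subgroup E}
    (hP : ∀ p : E, p ∈ P ↔ (p : G) • w = w)
    (hf : (E.subgroupOf (stabilizer G v ⊓ stabilizer G w)).FiniteIndex) :
    SmP P (Function.support (wz T (A w))) := by
  have e : (E ⊓ stabilizer G w).subgroupOf (stabilizer G v ⊓ stabilizer G w) =
      E.subgroupOf (stabilizer G v ⊓ stabilizer G w) :=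
    Subgroup.ext fun x => ⟨fun k => k.1, fun k => ⟨k, x.2.2⟩⟩
  obtain ⟨K, hK, k⟩ := h.wz_fm hw (P := E ⊓ stabilizer G w) (e ▸ hf)
  refine ⟨K, hK, fun x hx => ?_⟩
  obtain ⟨y, hy, p, hp, c⟩ := k x hx
  exact ⟨y, hy, ⟨p, hp.1⟩, (hP _).2 hp.2, c⟩

theorem inv (hE : E ≤ stabilizer G v) {w : V} {P : Subgroup E}
    (hP : ∀ p : E, p ∈ P ↔ (p : G) • w = w) (p : E) (hp : p ∈ P) (e : X1) :
    wz T (A w) (p • e) = wz T (A w) e := h.wz_inv (hE p.2) ((hP p).1 hp) e

/-- independence of the sums -/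
theorem ind (hM : Mfd T) (hE : E ≤ stabilizer G v)
    (hi : ¬ (E.subgroupOf (stabilizer G v)).FiniteIndex) {ι : Type*} [Fintype ι] (w : ι → V)
    (hw : ∀ i, Γ.Adj v (w i)) (hne : ∀ i j, ∀ g ∈ E, g • w i = w j → i = j)
    (P : ι → Subgroup E) (hP : ∀ i, ∀ p : E, p ∈ P i ↔ (p : G) • w i = w i) (c : ι → ℝ)
    (s : X0 → ℝ) (hs : SmP (⊤ : Subgroup E) (Function.support s))
    (e : ∀ e, ∑ i, c i * sm0 (P i) (wz T (A (w i))) e = s (T.d1 e 0) - s (T.d1 e 1)) : c = 0 := by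
  refine funext fun i => h.indep hM hE hi w hw hne c s ?_ (fun a => ?_) i
  · obtain ⟨K, hK, k⟩ := hs
    refine ⟨K, hK, fun x hx => ?_⟩
    obtain ⟨y, hy, p, -, c⟩ := k x hx
    exact ⟨y, hy, p, p.2, c⟩
  · rw [← e a]
    exact Finset.sum_congr rfl fun j _ => congrArg _ (h.sum_wz hE (hw j) (hP j) a).symm

/-- a wall is not the coboundary of a function with support finite modulo the vertex group -/
theorem nontriv (hM : Mfd T) {w : V} (hw : Γ.Adj v w)
    (hi : ¬ ((stabilizer G w).subgroupOf (stabilizer G v)).FiniteIndex) (s : X0 → ℝ)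
    (hs : SmP (stabilizer G v ⊓ stabilizer G w) (Function.support s)) :
    ¬ ∀ e, wz T (A w) e = s (T.d1 e 0) - s (T.d1 e 1) := fun e => by
  have e1 : (stabilizer G v ⊓ stabilizer G w).subgroupOf (stabilizer G v) =
      (stabilizer G w).subgroupOf (stabilizer G v) :=
    Subgroup.ext fun x => ⟨fun k => k.2, fun k => ⟨x.2, k⟩⟩
  have e2 : EA (stabilizer G v ⊓ stabilizer G w) A w = A w := Set.ext fun x =>
    ⟨fun ⟨g, hg, k⟩ => by rwa [show g • w = w from hg.2] at k,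
      fun k => ⟨1, one_mem _, by rwa [one_smul]⟩⟩
  exact one_ne_zero (h.indep hM inf_le_left (e1 ▸ hi) (ι := Unit) (fun _ => w) (fun _ => hw)
    (fun _ _ _ _ _ => rfl) (fun _ => 1) s hs (fun a => by simp [e2, e a]) ())

theorem sup' (hE : E ≤ stabilizer G v) {w : V} (hw : Γ.Adj v w)
    (i : (stabilizer G v ⊓ stabilizer G w : Subgroup G) ≃* Multiplicative (ℤ × ℤ))
    (hn : ¬ IsCyclic (E ⊓ stabilizer G w : Subgroup G)) {P : Subgroup E}
    (hP : ∀ p : E, p ∈ P ↔ (p : G) • w = w) : SmP P (Function.support (wz T (A w))) := by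
  have e : (E ⊓ stabilizer G w).subgroupOf (stabilizer G v ⊓ stabilizer G w) =
      E.subgroupOf (stabilizer G v ⊓ stabilizer G w) :=
    Subgroup.ext fun x => ⟨fun k => k.1, fun k => ⟨k, x.2.2⟩⟩
  exact h.sup hw hP (e ▸ wl_rank (inf_le_inf_right _ hE) i hn)

/-- the wall spans -/
theorem one (hM : Mfd T) (hE : E ≤ stabilizer G v) {w : V} (hw : Γ.Adj v w)
    (hi : ¬ ((stabilizer G w).subgroupOf (stabilizer G v)).FiniteIndex)
    (i : (stabilizer G v ⊓ stabilizer G w : Subgroup G) ≃* Multiplicative (ℤ × ℤ))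
    (hn : ¬ IsCyclic (E ⊓ stabilizer G w : Subgroup G)) {P : Subgroup E}
    (hP : ∀ p : E, p ∈ P ↔ (p : G) • w = w) {y : X1 → ℝ}
    (hc : ∀ f, y (T.d2 f 1) = y (T.d2 f 2) + y (T.d2 f 0)) (yi : ∀ p ∈ P, ∀ e, y (p • e) = y e)
    (ys : SmP P (Function.support y)) :
    ∃ (c : ℝ) (s : X0 → ℝ), (∀ p ∈ P, ∀ x, s (p • x) = s x) ∧ SmP P (Function.support s) ∧
      ∀ e, y e = c * wz T (A w) e + (s (T.d1 e 0) - s (T.d1 e 1)) := by
  have le : E ⊓ stabilizer G w ≤ stabilizer G v ⊓ stabilizer G w := inf_le_inf_right _ hE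
  obtain ⟨a, b, cm, id, hb⟩ := d1_basis _ _ le i hn
  obtain ⟨c, s, si, ⟨K, hK, ss⟩, es⟩ := d1_span hM (E ⊓ stabilizer G w) cm id hb hc
    (fun p hp e => yi ⟨p, hp.1⟩ ((hP _).2 hp.2) e)
    (by
      obtain ⟨K, hK, k⟩ := ys
      refine ⟨K, hK, fun x hx => ?_⟩
      obtain ⟨y, hy, p, hp, c⟩ := k x hx
      exact ⟨y, hy, p, ⟨p.2, (hP p).1 hp⟩, c⟩)
    (wz_coc (A w)) (fun p hp e => h.wz_inv (hE hp.1) hp.2 e) (h.wz_fm hw (wl_rank le i hn))
    fun s _ hs => h.nontriv hM hw hi s (SmP.le (S := Function.support s) hs le)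
  refine ⟨c, s, fun p hp x => si p ⟨p.2, (hP p).1 hp⟩ x, ⟨K, hK, fun x hx => ?_⟩, es⟩
  obtain ⟨y, hy, p, hp, c⟩ := ss x hx
  exact ⟨y, hy, ⟨p, hp.1⟩, (hP _).2 hp.2, c⟩

end Walls

/-- the walls as one package -/
theorem exists_wz (hM : Mfd T) (hT : Γ.IsTree)
    (act : ∀ (g : G) p q, Γ.Adj p q → Γ.Adj (g • p) (g • q)) (v : V)
    (beh : ∀ w, Γ.Adj v w → ∃ g : G, side Γ v w (g • v))
    (hi : ∀ w, Γ.Adj v w → ¬ ((stabilizer G w).subgroupOf (stabilizer G v)).FiniteIndex)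
    {E : Subgroup G} (hE : E ≤ stabilizer G v)
    (hEi : ¬ (E.subgroupOf (stabilizer G v)).FiniteIndex) {ι : Type*} [Fintype ι] (w : ι → V)
    (hw : ∀ i, Γ.Adj v (w i)) (hne : ∀ i j, ∀ g ∈ E, g • w i = w j → i = j)
    (iso : ∀ i, Nonempty ((stabilizer G v ⊓ stabilizer G (w i) : Subgroup G) ≃*
      Multiplicative (ℤ × ℤ)))
    (hn : ∀ i, ¬ IsCyclic (E ⊓ stabilizer G (w i) : Subgroup G))
    (P : ι → Subgroup E) (hP : ∀ i, ∀ p : E, p ∈ P i ↔ (p : G) • w i = w i) :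
    ∃ z : ι → X1 → ℝ, (∀ i f, z i (T.d2 f 1) = z i (T.d2 f 2) + z i (T.d2 f 0)) ∧
      (∀ i, ∀ p ∈ P i, ∀ e, z i (p • e) = z i e) ∧ (∀ i, SmP (P i) (Function.support (z i))) ∧
      (∀ (c : ι → ℝ) (s : X0 → ℝ), SmP (⊤ : Subgroup E) (Function.support s) →
        (∀ e, ∑ i, c i * sm0 (P i) (z i) e = s (T.d1 e 0) - s (T.d1 e 1)) → c = 0) ∧
      ∀ i (y : X1 → ℝ), (∀ f, y (T.d2 f 1) = y (T.d2 f 2) + y (T.d2 f 0)) →
        (∀ p ∈ P i, ∀ e, y (p • e) = y e) → SmP (P i) (Function.support y) →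
        ∃ (c : ℝ) (s : X0 → ℝ), (∀ p ∈ P i, ∀ x, s (p • x) = s x) ∧
          SmP (P i) (Function.support s) ∧
          ∀ e, y e = c * z i e + (s (T.d1 e 0) - s (T.d1 e 1)) := by
  obtain ⟨A, h⟩ := exists_walls hM hT act v beh hi
  exact ⟨fun i => wz T (A (w i)), fun i => wz_coc _, fun i => h.inv hE (hP i),
    fun i => h.sup' hE (hw i) (iso i).some (hn i) (hP i), h.ind hM hE hEi w hw hne P hP,
    fun i _ => h.one hM hE (hw i) (hi _ (hw i)) (iso i).some (hn i) (hP i)⟩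

end Pool.Agent.Work.MP_3d425c_gt.Bq
end

-- merged part: Pool.Agent.Work.MP_3d425c_gt.Bq.Or
section
/-! Without real characters the quotient manifold is orientable. -/

namespace Pool.Agent.Work.MP_3d425c_gt.Bq
open Set Relation Pool.Agent.Work.MP_3d425c_gt.Md Pool.Agent.Work.MP_3d425c_gt.Cy
  Pool.Agent.Work.MP_3d425c_gt.Bg

variable {G X0 X1 X2 X3 : Type} [Group G] [MulAction G X0] [MulAction G X1] [MulAction G X2]
  [MulAction G X3] {T : Tri G X0 X1 X2 X3}

theorem or_cnt {A B : Type} [MulAction G A] [MulAction G B] [Finite (Ob G A)] [Fintype (Ob G B)]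
    (hA : ∀ (g : G) (a : A), g • a = a → g = 1) (hB : ∀ (g : G) (b : B), g • b = b → g = 1)
    {n : ℕ} (f : A → Fin n → B) (hf : ∀ (g : G) a i, f (g • a) i = g • f a i) :
    oc G A * n = ∑ q : Ob G B, Nat.card {p : A × Fin n // f p.1 p.2 = q.out} := by
  have := Fintype.ofFinite (Ob G A)
  let e : EuP A (Fin n) ≃ A × Fin n :=
    ⟨fun x => (x.c, x.i), fun p => ⟨p.1, p.2⟩, fun _ => rfl, fun _ => rfl⟩
  have fi : ∀ a : A, {x : EuP A (Fin n) | x.c = a}.Finite := fun a =>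
    (finite_range fun i : Fin n => (⟨a, i⟩ : EuP A (Fin n))).subset
      fun x hx => ⟨x.i, EuP.ext hx.symm rfl⟩
  have h1 := oc_fib hA (fun x : EuP A (Fin n) => x.c) (fun _ _ => rfl) fi
  have : Finite (Ob G (EuP A (Fin n))) := eu_fin (fun x => x.c) (fun _ _ => rfl) fi
  have hf' : ∀ (g : G) (x : EuP A (Fin n)), f (g • x).c (g • x).i = g • f x.c x.i :=
    fun g x => hf g x.c x.i
  have h2 := oc_fib hB (fun x : EuP A (Fin n) => f x.c x.i) hf' (fib_finite hB _ hf')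
  have c : ∀ a : A, Nat.card {x : EuP A (Fin n) // x.c = a} = n := fun a => by
    rw [Nat.card_congr (⟨fun x => x.1.i, fun i => ⟨⟨a, i⟩, rfl⟩,
      fun x => Subtype.ext (EuP.ext x.2.symm rfl), fun _ => rfl⟩ : _ ≃ Fin n), Nat.card_fin]
  simp only [c, Finset.sum_const, Finset.card_univ, smul_eq_mul] at h1
  rw [oc, Nat.card_eq_fintype_card, ← h1, h2]
  exact Finset.sum_congr rfl fun q _ => Nat.card_congr (e.subtypeEquiv fun _ => Iff.rfl)

theorem or_fin0 (hM : Mfd T) : Finite (Ob G X0) := by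
  have := hM.fin1
  refine Finite.of_surjective
    (fun p : Ob G X1 × Fin 2 => ob G (T.d1 (Quotient.out p.1) p.2)) fun w => ?_
  obtain ⟨v, rfl⟩ := ob_surj w
  obtain ⟨f, i, j, rfl⟩ := hM.vert v
  obtain ⟨g, hg⟩ := ob_eq_iff.1 (ob_out (ob G (T.d2 f i)))
  exact ⟨(ob G (T.d2 f i), j), by simp only [← hg, T.e1, ob_smul]⟩

theorem or_chi (hM : Mfd T) : oc G X0 + oc G X2 ≤ oc G X1 + oc G X3 := by
  have := hM.fin1
  have := T.fin2
  have := T.fin
  have := or_fin0 hM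
  have := Fintype.ofFinite (Ob G X0)
  have := Fintype.ofFinite (Ob G X2)
  have a1 := or_cnt T.free1 T.free (v1 T) (ce_v1_smul T)
  have a2 := or_cnt T.free2 T.free (v2 T) (ce_v2_smul T)
  have a3 := or_cnt T.free3 T.free (v3 T) (ce_v3_smul T)
  have a4 := or_cnt T.free3 T.free2 T.d3 T.e3
  have b : ∀ f, Nat.card {p : X3 × Fin 4 // T.d3 p.1 p.2 = f} = 2 := fun f => by
    obtain ⟨p, q, n, h⟩ := T.two f
    refine Nat.card_eq_two_iff.2 ⟨⟨p, (h p).2 (Or.inl rfl)⟩, ⟨q, (h q).2 (Or.inr rfl)⟩,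
      fun e => n (congrArg Subtype.val e), eq_univ_of_forall fun r => ?_⟩
    exact ((h r.1).1 r.2).imp Subtype.ext Subtype.ext
  have s := Finset.sum_le_sum (s := Finset.univ) fun (q : Ob G X0) _ => hM.sph q.out
  simp only [Finset.sum_add_distrib, ← a1, ← a2, ← a3, Finset.sum_const, Finset.card_univ,
    smul_eq_mul, ← Nat.card_eq_fintype_card] at s
  simp only [b, Finset.sum_const, Finset.card_univ, smul_eq_mul,
    ← Nat.card_eq_fintype_card] at a4
  simp only [oc] at *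
  omega

open Module in
theorem or_lin {A B C D : Type} [Finite A] [Finite B] [Finite C] [Finite D]
    (d0 : (A → ℝ) →ₗ[ℝ] (B → ℝ)) (d1 : (B → ℝ) →ₗ[ℝ] (C → ℝ)) (d2 : (C → ℝ) →ₗ[ℝ] (D → ℝ))
    (h0 : ∃ u, u ≠ 0 ∧ d0 u = 0) (h1 : ∀ z, d1 z = 0 → z ∈ LinearMap.range d0)
    (h2 : ∀ z, d2 (d1 z) = 0) (h3 : LinearMap.range d2 = ⊤) :
    Nat.card B + Nat.card D < Nat.card A + Nat.card C := by
  have e : ∀ (X : Type) [Finite X], finrank ℝ (X → ℝ) = Nat.card X := fun X _ => by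
    have := Fintype.ofFinite X
    rw [finrank_fintype_fun_eq_card, Nat.card_eq_fintype_card]
  have a0 := d0.finrank_range_add_finrank_ker
  have a1 := d1.finrank_range_add_finrank_ker
  have a2 := d2.finrank_range_add_finrank_ker
  rw [h3, finrank_top] at a2
  have b0 : 1 ≤ finrank ℝ (LinearMap.ker d0) := by
    obtain ⟨u, h, h'⟩ := h0
    exact Submodule.one_le_finrank_iff.2 fun k => h ((Submodule.eq_bot_iff _).1 k u h')
  have b4 : finrank ℝ ↥(LinearMap.ker d1) ≤ finrank ℝ (LinearMap.range d0) :=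
    Submodule.finrank_mono fun z hz => h1 z hz
  have b5 : finrank ℝ (LinearMap.range d1) ≤ finrank ℝ (LinearMap.ker d2) :=
    Submodule.finrank_mono fun _ ⟨z, hz⟩ => hz ▸ h2 z
  simp only [e] at a0 a1 a2
  omega

theorem or_pot (hM : Mfd T) (h0 : NoHom G) (z : X1 → ℝ) (hz : ∀ (g : G) e, z (g • e) = z e)
    (co : ∀ f, z (T.d2 f 1) = z (T.d2 f 2) + z (T.d2 f 0)) :
    ∃ s : X0 → ℝ, (∀ (g : G) v, s (g • v) = s v) ∧ ∀ e, z e = s (T.d1 e 0) - s (T.d1 e 1) := by
  obtain ⟨s, hs⟩ := T.h1 z co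
  have c : ∀ (g : G) u v, s (g • u) - s u = s (g • v) - s v := fun g u v => by
    obtain ⟨q, hq⟩ := hM.conn u v
    induction hq with
    | nil => rfl
    | @cons a l b q c h _ ih =>
      have e := (hs l.1).symm.trans ((hz g l.1).symm.trans (hs _))
      rw [T.e1, T.e1] at e
      rw [← ih]
      unfold St at h
      split_ifs at h
      · rw [h.1, h.2]; linarith
      · rw [h.1, h.2]; linarith
  refine ⟨s, fun g v => ?_, hs⟩
  let χ : G →* Multiplicative ℝ := MonoidHom.mk' (fun g => Multiplicative.ofAdd (s (g • v) - s v))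
    fun a b => by
      rw [← ofAdd_add, mul_smul, ← c a (b • v) v]
      congr 1
      ring
  exact sub_eq_zero.1 (ofAdd_eq_one.1 (DFunLike.congr_fun (h0 χ) g))

theorem or_ite {A B : Prop} [Decidable A] [Decidable B] [Decidable (A ∨ B)] (h : ¬ (A ∧ B)) :
    (if A ∨ B then (1 : ℝ) else 0) = (if A then 1 else 0) + if B then 1 else 0 := by
  by_cases a : A <;> by_cases b : B <;> simp_all

/-- the map of orbit spaces -/
def orM {A B : Type} [MulAction G A] [MulAction G B] (f : A → B)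
    (hf : ∀ (g : G) a, f (g • a) = g • f a) : Ob G A → Ob G B :=
  Quotient.map' f fun _ b ⟨g, h⟩ => ⟨g, (hf g b).symm.trans (congrArg f h)⟩

theorem exists_ori (hM : Mfd T) (h0 : NoHom G) : ∃ o : X3 → ℝ, (∀ x, o x = 1 ∨ o x = -1) ∧
    (∀ (g : G) x, o (g • x) = o x) ∧ ∀ x k y l, T.d3 x k = T.d3 y l → (x, k) ≠ (y, l) →
      o x * (-1) ^ k.val = -(o y * (-1) ^ l.val) := by
  classical
  have := hM.fin1
  have := T.fin2
  have := T.fin
  have := or_fin0 hM
  have := Fintype.ofFinite (Ob G X3)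
  let m1 := fun i => orM (fun e => T.d1 e i) fun (g : G) e => T.e1 g e i
  let m2 := fun i => orM (fun e => T.d2 e i) fun (g : G) e => T.e2 g e i
  let m3 := fun i => orM (fun e => T.d3 e i) fun (g : G) e => T.e3 g e i
  let D : (Ob G X2 → ℝ) →ₗ[ℝ] (Ob G X3 → ℝ) :=
    ∑ k : Fin 4, (-1 : ℝ) ^ k.val • LinearMap.funLeft ℝ ℝ (m3 k)
  have hD : ∀ w x, D w (ob G x) = ∑ k : Fin 4, (-1 : ℝ) ^ k.val * w (ob G (T.d3 x k)) :=
    fun w x => by simp [D, LinearMap.funLeft_apply]; rfl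
  have ne : LinearMap.range D ≠ ⊤ := fun h3 => by
    refine absurd (or_lin (LinearMap.funLeft ℝ ℝ (m1 0) - LinearMap.funLeft ℝ ℝ (m1 1))
      (LinearMap.funLeft ℝ ℝ (m2 2) + LinearMap.funLeft ℝ ℝ (m2 0) - LinearMap.funLeft ℝ ℝ (m2 1))
      D ⟨1, fun h => ?_, funext fun q => sub_self _⟩ (fun z hz => ?_)
      (fun z => funext fun q => ?_) h3) (not_lt.2 (or_chi hM))
    · obtain ⟨x⟩ := T.ne
      exact one_ne_zero (congrFun h (ob G (v3 T x 0)))
    · obtain ⟨s, s1, s2⟩ := or_pot hM h0 (fun e => z (ob G e)) (fun g e => by rw [ob_smul])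
        fun f => (sub_eq_zero.1 (congrFun hz (ob G f))).symm
      refine ⟨Quotient.lift s fun a b ⟨g, h⟩ => h ▸ s1 g b, funext fun q => ?_⟩
      obtain ⟨e, rfl⟩ := ob_surj q
      exact (s2 e).symm
    · obtain ⟨x, rfl⟩ := ob_surj q
      rw [hD, Fin.sum_univ_four]
      show _ * (z (ob G (T.d2 _ 2)) + z (ob G (T.d2 _ 0)) - z (ob G (T.d2 _ 1))) +
        _ * (z (ob G (T.d2 _ 2)) + z (ob G (T.d2 _ 0)) - z (ob G (T.d2 _ 1))) +
        _ * (z (ob G (T.d2 _ 2)) + z (ob G (T.d2 _ 0)) - z (ob G (T.d2 _ 1))) +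
        _ * (z (ob G (T.d2 _ 2)) + z (ob G (T.d2 _ 0)) - z (ob G (T.d2 _ 1))) = (0 : ℝ)
      rw [ce_e23, ce_e13, ce_e12, ce_e03, ce_e02, ce_e01]
      norm_num
      ring
  obtain ⟨φ, φ0, φ1⟩ := Submodule.exists_le_ker_of_lt_top _ (lt_top_iff_ne_top.2 ne)
  obtain ⟨c, hc⟩ : ∃ c : X3 → ℝ, ∀ x, c x = φ (Pi.single (ob G x) 1) := ⟨_, fun _ => rfl⟩
  have rel : ∀ x k y l, T.d3 x k = T.d3 y l → (x, k) ≠ (y, l) →
      c x * (-1) ^ k.val = -(c y * (-1) ^ l.val) := fun x k y l e n => by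
    obtain ⟨y', l', -, -, o⟩ := T.other x k
    have o' := (o y l e.symm).resolve_left n.symm
    have key : D (Pi.single (ob G (T.d3 x k)) 1) = (-1 : ℝ) ^ k.val • Pi.single (ob G x) 1 +
        (-1 : ℝ) ^ l.val • Pi.single (ob G y) 1 := by
      funext q
      obtain ⟨z, rfl⟩ := ob_surj q
      have t : ∀ j, (Pi.single (ob G (T.d3 x k)) 1 : Ob G X2 → ℝ) (ob G (T.d3 z j)) =
          (if j = k then (Pi.single (ob G x) 1 : Ob G X3 → ℝ) (ob G z) else 0) +
          if j = l then (Pi.single (ob G y) 1 : Ob G X3 → ℝ) (ob G z) else 0 := fun j => by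
        have i : ob G (T.d3 z j) = ob G (T.d3 x k) ↔
            (j = k ∧ ob G z = ob G x) ∨ (j = l ∧ ob G z = ob G y) := by
          constructor
          · intro h
            obtain ⟨g, hg⟩ := ob_eq_iff.1 h.symm
            rcases o (g • z) j ((T.e3 g z j).trans hg) with a | a
            · exact Or.inl ⟨(Prod.mk.inj a).2, by rw [← (Prod.mk.inj a).1, ob_smul]⟩
            · have a := Prod.mk.inj (a.trans o'.symm)
              exact Or.inr ⟨a.2, by rw [← a.1, ob_smul]⟩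
          · rintro (⟨rfl, h⟩ | ⟨rfl, h⟩)
            · exact congrArg (m3 j) h
            · rw [e]; exact congrArg (m3 j) h
        have x2 : ¬ ((j = k ∧ ob G z = ob G x) ∧ (j = l ∧ ob G z = ob G y)) := by
          rintro ⟨⟨rfl, a⟩, rfl, b⟩
          obtain ⟨g, rfl⟩ := ob_eq_iff.1 (a.symm.trans b)
          rw [T.e3] at e
          exact n (by rw [T.free2 g _ e, one_smul])
        simp only [Pi.single_apply, i, ← ite_and]
        exact or_ite x2
      rw [hD]
      simp only [t, mul_add, Finset.sum_add_distrib, mul_ite, mul_zero, Finset.sum_ite_eq',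
        Finset.mem_univ, if_true, Pi.add_apply, Pi.smul_apply, smul_eq_mul]
    have z : φ (D (Pi.single (ob G (T.d3 x k)) 1)) = 0 := φ1 ⟨_, rfl⟩
    rw [key, map_add, map_smul, map_smul, ← hc, ← hc, smul_eq_mul, smul_eq_mul] at z
    linarith
  have ab : ∀ x y, |c x| = |c y| := fun x y => by
    induction T.conn x y with
    | rel x y h =>
      obtain ⟨k, l, h⟩ := h
      by_cases n : (x, k) = (y, l)
      · rw [(Prod.mk.inj n).1]
      · simpa [abs_mul] using congrArg abs (rel x k y l h n)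
    | refl => rfl
    | symm _ _ _ ih => exact ih.symm
    | trans _ _ _ _ _ a b => exact a.trans b
  have nz : ∀ x, c x ≠ 0 := fun x hx => φ0 (LinearMap.ext fun v => by
    rw [pi_eq_sum_univ' v, map_sum]
    refine Finset.sum_eq_zero fun q _ => ?_
    obtain ⟨y, rfl⟩ := ob_surj q
    rw [map_smul, ← hc, abs_eq_zero.1 ((ab y x).trans (abs_eq_zero.2 hx)), smul_zero])
  refine ⟨fun x => c x / |c x|, fun x => ?_, fun g x => by simp only [hc, ob_smul],
    fun x k y l e n => ?_⟩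
  · beta_reduce
    rcases lt_or_gt_of_ne (nz x) with h | h
    · exact Or.inr (by rw [abs_of_neg h, div_neg, div_self h.ne])
    · exact Or.inl (by rw [abs_of_pos h, div_self h.ne'])
  · beta_reduce
    rw [ab x y, div_mul_eq_mul_div, rel x k y l e n]
    ring

theorem exists_ori' (hM : Mfd T) (h0 : NoHom G) : ∃ o : X3 → ℝ, (∀ x, o x * o x = 1) ∧
    (∀ f, isum T (fun x _ => o x) f = 0) ∧ ∀ (g : G) x, o (g • x) = o x := by
  obtain ⟨o, h1, h2, h3⟩ := exists_ori hM h0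
  refine ⟨o, fun x => by rcases h1 x with h | h <;> rw [h] <;> norm_num, fun f => ?_, h2⟩
  have := h3 _ _ _ _ ((b1_inc_d3 T f true).trans (b1_inc_d3 T f false).symm)
    fun e => absurd (Prod.mk.inj ((inc T).injective e)).2 (by decide)
  simp only [isum]
  linarith

end Pool.Agent.Work.MP_3d425c_gt.Bq
end

-- merged part: Pool.Agent.Work.MP_3d425c_gt.Jw.WallEx
section
/-! Every rank two lattice in the group has a wall, unique up to a small set. -/

namespace Pool.Agent.Work.MP_3d425c_gt.Jw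
open Set Relation Pool.Agent.Work.MP_3d425c_gt.Md Pool.Agent.Work.MP_3d425c_gt.Cy
  Pool.Agent.Work.MP_3d425c_gt.Bg Pool.Agent.Work.MP_3d425c_gt.Bq

variable {G X0 X1 X2 X3 : Type} [Group G] [MulAction G X0] [MulAction G X1] [MulAction G X2]
  [MulAction G X3] {T : Tri G X0 X1 X2 X3} {a b : G}

/-- the edges that leave `A` -/
def cut (T : Tri G X0 X1 X2 X3) (A : Set X0) : Set X1 := {e | ¬ (T.d1 e 0 ∈ A ↔ T.d1 e 1 ∈ A)}

/-- a side of a wall of the lattice generated by `a` and `b` -/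
structure IsWall (T : Tri G X0 X1 X2 X3) (a b : G) (A : Set X0) : Prop where
  ia : ∀ x, a • x ∈ A ↔ x ∈ A
  ib : ∀ x, b • x ∈ A ↔ x ∈ A
  fin : Sm2 a b (cut T A)
  big : ¬ Sm2 a b A
  big' : ¬ Sm2 a b Aᶜ

theorem we_int {o : X3 → ℝ} (ho : ∀ f, isum T (fun x _ => o x) f = 0) {u : X2 → ℝ}
    (hu : (Function.support u).Finite) : ∑ᶠ x, o x * d1_c2 T u x = 0 := by
  have hd : ∀ f, {r : X3 × Fin 4 | T.d3 r.1 r.2 = f}.Finite := fun f => by
    obtain ⟨p, q, -, h⟩ := T.two f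
    exact (toFinite {p, q}).subset fun r hr => (h r).1 hr
  have k := b1_inc_sum T (fun r => (-1 : ℝ) ^ (r.2 : ℕ) * o r.1 * u (T.d3 r.1 r.2))
    ((zb_pull hu hd).subset fun r hr => right_ne_zero_of_mul hr)
  have e : ∀ x, o x * d1_c2 T u x = ∑ k : Fin 4, (-1 : ℝ) ^ (k : ℕ) * o x * u (T.d3 x k) :=
    fun x => by
      rw [Fin.sum_univ_four]
      show _ = (-1 : ℝ) ^ 0 * _ * _ + (-1 : ℝ) ^ 1 * _ * _ + (-1 : ℝ) ^ 2 * _ * _ +
        (-1 : ℝ) ^ 3 * _ * _
      unfold d1_c2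
      ring
  rw [finsum_congr e, k]
  refine finsum_eq_zero_of_forall_eq_zero fun f => ?_
  have := ho f
  unfold isum at this
  simp only [b1_inc_d3]
  rw [← add_mul, this, zero_mul]

/-- the fundamental class with compact supports -/
theorem we_top (hM : Mfd T) (h0 : NoHom G) : ∃ δ : X3 → ℝ, (Function.support δ).Finite ∧
    (∀ g : G, ∃ u : X2 → ℝ, (Function.support u).Finite ∧ ∀ x, d1_c2 T u x = δ x - δ (g • x)) ∧
    ∀ u : X2 → ℝ, (Function.support u).Finite → ¬ ∀ x, d1_c2 T u x = δ x := by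
  classical
  obtain ⟨o, o1, ho, oi⟩ := exists_ori' hM h0
  obtain ⟨x₀, top⟩ := d1_top T
  have on : o x₀ ≠ 0 := fun e => by
    have := o1 x₀
    rw [e, mul_zero] at this
    exact zero_ne_one this
  have fs : ∀ y : X3, (Function.support fun x => if x = y then (1 : ℝ) else 0).Finite := fun y =>
    (finite_singleton y).subset fun x hx => by_contra fun k => hx (if_neg k)
  have pt : ∀ (y : X3) (c : ℝ), ∑ᶠ x, o x * (c * if x = y then 1 else 0) = o y * c := fun y c => by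
    rw [finsum_eq_single _ y fun x k => by rw [if_neg k, mul_zero, mul_zero], if_pos rfl, mul_one]
  refine ⟨fun x => if x = x₀ then 1 else 0, fs x₀, fun g => ?_, fun u hu e => on ?_⟩
  · obtain ⟨l, u, hu, e⟩ := top _ (fs (g⁻¹ • x₀))
    have k := we_int ho hu
    have e' : ∀ x, o x * d1_c2 T u x = o x * (1 * if x = g⁻¹ • x₀ then 1 else 0) -
        o x * (l * if x = x₀ then 1 else 0) := fun x => by
      have := e x
      linear_combination (-o x) * this
    rw [finsum_congr e', finsum_sub_distrib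
      ((fs _).subset fun x hx => right_ne_zero_of_mul (right_ne_zero_of_mul hx))
      ((fs _).subset fun x hx => right_ne_zero_of_mul (right_ne_zero_of_mul hx)), pt, pt, oi] at k
    have l1 : l = 1 := (mul_left_cancel₀ on (sub_eq_zero.1 k)).symm
    refine ⟨fun f => -u f, hu.subset fun f hf q => hf (neg_eq_zero.2 q), fun x => ?_⟩
    have := e x
    rw [l1] at this
    simp only [← eq_inv_smul_iff]
    unfold d1_c2 at this ⊢
    linarith
  · have k := we_int ho hu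
    rw [finsum_congr fun x => congrArg (o x * ·) ((e x).trans (one_mul _).symm), pt,
      mul_one] at k
    exact k

theorem we_tel {X : Type} [MulAction G X] {t : X → ℝ} (ht : d1_Sb a t) (x : X) :
    zb_P a (fun x => t x - t (a • x)) x = 0 := by
  have hy : d1_Sb a fun x => t x - t (a • x) := fun x => (ht x).sub (ht.shift x)
  rw [← d1_P_shift hy ht x]
  simp [zb_P]

theorem we_sub {X : Type} [MulAction G X] {y t : X → ℝ} (hy : d1_Sb a y) (ht : d1_Sb a t) (x : X) :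
    zb_P a (fun x => y x - t x) x = zb_P a y x - zb_P a t x := (hy x).tsum_sub (ht x)

theorem Fa_sub {X : Type} [MulAction G X] {y t : X → ℝ} (hy : Fa a y) (ht : Fa a t) :
    Fa a fun x => y x - t x := by
  refine (congrArg (Fa a) (funext fun e => ?_)).mp (hy.lin ht 1 (-1))
  ring

theorem Fa_c0 (hM : Mfd T) {s : X0 → ℝ} (hs : Fa a s) : Fa a (d1_c0 T s) := by
  have := hM.fin1
  have p := fun i => hs.pull (d := fun e => T.d1 e i) (fun g e => T.e1 g e i)
    (fib_finite T.free (fun e => T.d1 e i) fun g e => T.e1 g e i)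
  exact Fa_sub (p 0) (p 1)

theorem we_c10 (s : X0 → ℝ) (f : X2) : d1_c1 T (d1_c0 T s) f = 0 := by
  unfold d1_c1 d1_c0
  rw [sa, sb, sc']
  ring

/-- the generator in degree two of the quotient by one element -/
theorem we_two (hM : Mfd T) (h0 : NoHom G) (ha : ∀ n : ℤ, a ^ n = 1 → n = 0) :
    ∃ w : X2 → ℝ, Fa a w ∧ (∀ x, d1_c2 T w x = 0) ∧
      (∀ b, Commute a b → ∃ t, Fa a t ∧ ∀ f, d1_c1 T t f = w f - w (b • f)) ∧
      ∀ t, Fa a t → ¬ ∀ f, d1_c1 T t f = w f := by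
  have F1 := d1_fr ha T.free1
  have F2 := d1_fr ha T.free2
  have F3 := d1_fr ha T.free3
  obtain ⟨δ, hδ, mv, nt⟩ := we_top hM h0
  obtain ⟨u, hu, eu⟩ := mv a
  have sh : ∀ {u : X2 → ℝ} (g : G), (Function.support u).Finite →
      (Function.support fun f => u (g • f)).Finite := fun g h =>
    h.preimage (MulAction.injective g).injOn
  refine ⟨zb_P a u, Fa.of_fin hu, fun x => ?_, fun b h => ?_, fun t ht e => ?_⟩
  · rw [← d1_P2 (zb_sum F2 hu), funext eu, we_tel (zb_sum F3 hδ)]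
  · obtain ⟨u', hu', eu'⟩ := mv b
    have hq := zb_sub hu (sh b hu)
    obtain ⟨t, ht, et⟩ := hM.hc2 (fun f => u f - u (b • f) - (u' f - u' (a • f)))
      (zb_sub hq (zb_sub hu' (sh a hu'))) fun x => by
      have k1 := eu x
      have k2 := eu (b • x)
      have k3 := eu' x
      have k4 := eu' (a • x)
      rw [← mul_smul, ← h.eq, mul_smul] at k4
      unfold d1_c2 at k1 k2 k3 k4
      simp only [T.e3] at k2 k4
      linarith
    refine ⟨zb_P a t, Fa.of_fin ht, fun f => ?_⟩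
    rw [← d1_P1 (zb_sum F1 ht), show d1_c1 T t = _ from (funext et).symm,
      d1_P_shift (zb_sum F2 hq) (zb_sum F2 hu'), we_sub (zb_sum F2 hu) (zb_sum F2 (sh b hu))]
    congr 1
    exact tsum_congr fun n => by
      show u (b • a ^ n • f) = u (a ^ n • b • f)
      rw [← mul_smul, ← mul_smul, (h.zpow_left n).eq]
  · obtain ⟨y, hy, Py⟩ := zb_rep F1 ht.inv ht.sm
    obtain ⟨s, hs, es⟩ := zb_ker F2 (zb_sub hu (d1_fin1 (T := T) hy)) fun f => by
      rw [we_sub (zb_sum F2 hu) (zb_sum F2 (d1_fin1 hy)), d1_P1 (zb_sum F1 hy), funext Py, e,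
        sub_self]
    refine nt s hs fun x => (sub_eq_zero.1 (zb_zero F3 (zb_sub hδ (d1_fin2 (T := T) hs))
      (fun x => ?_) x)).symm
    have k := d1_c21 (T := T) y x
    have k1 := eu x
    unfold d1_c2 at k k1 ⊢
    simp only [T.e3]
    linarith only [k, k1, es (T.d3 x 0), es (T.d3 x 1), es (T.d3 x 2), es (T.d3 x 3)]

/-- the generator in degree one of the quotient by a rank two lattice -/
theorem we_one (hM : Mfd T) (h0 : NoHom G) (h : Commute a b)
    (ind : ∀ m n : ℤ, a ^ m * b ^ n = 1 → m = 0 ∧ n = 0) :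
    ∃ z : X1 → ℝ, (∀ f, d1_c1 T z f = 0) ∧ (∀ e, z (a • e) = z e) ∧ (∀ e, z (b • e) = z e) ∧
      Sm2 a b (Function.support z) ∧ ∀ s : X0 → ℝ, (∀ v, s (a • v) = s v) →
        (∀ v, s (b • v) = s v) → Sm2 a b (Function.support s) → ¬ ∀ e, z e = d1_c0 T s e := by
  have ha : ∀ n : ℤ, a ^ n = 1 → n = 0 := fun n k => (ind n 0 (by rw [k, zpow_zero, one_mul])).1
  have F0 := cb_fr h ind T.free
  have F1 := cb_fr h ind T.free1
  have F2 := cb_fr h ind T.free2
  obtain ⟨w, hw, -, mv, nt⟩ := we_two hM h0 ha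
  obtain ⟨t, ht, et⟩ := mv b h
  refine ⟨zb_P b t, fun f => ?_, (ht.P h).1, zb_P_smul t, (ht.P h).2, fun s sa sb ss e => ?_⟩
  · rw [← d1_P1 (ht.sb F1), funext et, we_tel (hw.sb F2)]
  · obtain ⟨y, hy, Py⟩ := d1_rep F0 sa sb ss
    obtain ⟨r, hr, er⟩ := (Fa_sub ht (Fa_c0 hM hy)).ker F1 fun x => by
      rw [we_sub (ht.sb F1) ((Fa_c0 hM hy).sb F1), d1_P0 (hy.sb F0), funext Py, e, sub_self]
    refine nt r hr fun f => (sub_eq_zero.1 ((Fa_sub hw (hr.c1 (T := T))).zero F2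
      (fun f => ?_) f)).symm
    have k := we_c10 (T := T) y f
    have k1 := et f
    unfold d1_c1 at k k1 ⊢
    simp only [T.e2]
    linarith only [k, k1, er (T.d2 f 0), er (T.d2 f 1), er (T.d2 f 2)]

theorem wz_inv {A : Set X0} {g : G} (h : ∀ x, g • x ∈ A ↔ x ∈ A) (e : X1) :
    wz T A (g • e) = wz T A e := by
  unfold wz
  rw [T.e1, T.e1, wi_congr (h _), wi_congr (h _)]

/-- the quotient by an element of infinite order has one end -/
theorem one_end (hM : Mfd T) (ha : ∀ n : ℤ, a ^ n = 1 → n = 0) {A : Set X0}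
    (hA : ∀ x, a • x ∈ A ↔ x ∈ A) (hs : Sm a (cut T A)) : Sm a A ∨ Sm a Aᶜ := by
  obtain ⟨K, hK, k⟩ := hs
  obtain ⟨s, ⟨-, K', hK', k'⟩, e⟩ := wang1 hM ha (z := wz T A)
    (fun f => sub_eq_zero.2 (wz_coc A f).symm) ⟨wz_inv hA, K, hK, fun e he => k e (wz_ne he)⟩
  have ct := const_of hM (t := fun x => wi A x - s x) fun x => by
    have := e x
    unfold wz d1_c0 at this
    linarith
  by_contra n
  rw [not_or] at n
  have p : ∀ S : Set X0, ¬ Sm a S → ∃ x ∈ S, s x = 0 := fun S hS => by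
    by_contra m
    exact hS ⟨K', hK', fun x hx => k' x fun q => m ⟨x, hx, q⟩⟩
  obtain ⟨x, hx, ex⟩ := p _ n.1
  obtain ⟨y, hy, ey⟩ := p _ n.2
  have := ct x y
  simp only [wi_pos hx, wi_neg hy, ex, ey] at this
  norm_num at this

theorem we_zp {f : X0 → ℝ} {α : ℝ} (h : ∀ x, f (a • x) = f x + α) (n : ℤ) (x : X0) :
    f (a ^ n • x) = f x + n * α := by
  induction n using Int.induction_on with
  | zero => simp
  | succ n ih =>
    rw [add_comm (n : ℤ), zpow_one_add, mul_smul, h, ih]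
    push_cast
    ring
  | pred n ih =>
    have := h (a ^ (-(n : ℤ) - 1) • x)
    rw [← mul_smul, ← zpow_one_add, add_sub_cancel, ih] at this
    push_cast at this ⊢
    linarith

theorem we_perZ (hM : Mfd T) (h : Commute a b)
    (ind : ∀ m n : ℤ, a ^ m * b ^ n = 1 → m = 0 ∧ n = 0) {f : X0 → ℝ} {α β : ℤ}
    (fa : ∀ x, f (a • x) = f x + α) (fb : ∀ x, f (b • x) = f x + β)
    (hs : Sm2 a b {e | f (T.d1 e 0) ≠ f (T.d1 e 1)}) : β = 0 := by
  by_contra hβ
  have fab : ∀ (m n : ℤ) x, f ((a ^ m * b ^ n) • x) = f x + (m * α + n * β : ℤ) := fun m n x => by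
    rw [mul_smul, we_zp fa, we_zp fb]
    push_cast
    ring
  have cp : ∀ q : ℤ, (a ^ β * b ^ (-α)) ^ q = a ^ (β * q) * b ^ (-α * q) := fun q => by
    rw [(h.zpow_zpow _ _).mul_zpow, ← zpow_mul, ← zpow_mul]
  have fc : ∀ x, f ((a ^ β * b ^ (-α)) • x) = f x := fun x => by
    rw [fab, show β * α + -α * β = 0 by ring, Int.cast_zero, add_zero]
  obtain ⟨K, hK, k⟩ := hs
  have oe := one_end hM (a := a ^ β * b ^ (-α)) (A := {x | 0 < f x})
    (fun n e => (mul_eq_zero.1 (ind _ _ ((cp n).symm.trans e)).1).resolve_left hβ)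
    (fun x => by simp only [mem_ofPred_eq, fc]) (by
      refine ⟨⋃ c ∈ K, (fun p : ℤ × ℤ => (a ^ p.1 * b ^ p.2) • c) '' (Icc (-|β|) |β| ×ˢ
        Icc (-(⌈|f (T.d1 c 0)| + |f (T.d1 c 1)|⌉ + |β| * |α|))
          (⌈|f (T.d1 c 0)| + |f (T.d1 c 1)|⌉ + |β| * |α|)),
        hK.biUnion fun c _ => ((finite_Icc _ _).prod (finite_Icc _ _)).image _, fun e he => ?_⟩
      have he' : ¬ (0 < f (T.d1 e 0) ↔ 0 < f (T.d1 e 1)) := he
      obtain ⟨c, hc, m, n, rfl⟩ := k e fun q => he' (by rw [q])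
      rw [T.e1, T.e1, fab, fab] at he'
      have b1 : |m * α + n * β| ≤ ⌈|f (T.d1 c 0)| + |f (T.d1 c 1)|⌉ := by
        refine Int.cast_le (R := ℝ).1 (le_trans ?_ (Int.le_ceil _))
        rw [Int.cast_abs, abs_le]
        have a0 := le_abs_self (f (T.d1 c 0))
        have a1 := le_abs_self (f (T.d1 c 1))
        have a2 := neg_abs_le (f (T.d1 c 0))
        have a3 := neg_abs_le (f (T.d1 c 1))
        have a4 := abs_nonneg (f (T.d1 c 0))
        have a5 := abs_nonneg (f (T.d1 c 1))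
        constructor
        · by_contra q
          exact he' ⟨fun _ => by linarith, fun _ => by linarith⟩
        · by_contra q
          exact he' ⟨fun _ => by linarith, fun _ => by linarith⟩
      have r0 := Int.emod_nonneg m hβ
      have r1 := Int.emod_lt_abs m hβ
      have dv := Int.mul_ediv_add_emod m β
      have b2 : |n + m / β * α| ≤ ⌈|f (T.d1 c 0)| + |f (T.d1 c 1)|⌉ + |β| * |α| := by
        have e1 : (n + m / β * α) * β = m * α + n * β - m % β * α := by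
          linear_combination α * dv
        have e2 : |n + m / β * α| ≤ |(n + m / β * α) * β| := by
          rw [abs_mul]
          exact le_mul_of_one_le_right (abs_nonneg _) (Int.one_le_abs hβ)
        have e3 : |m % β * α| ≤ |β| * |α| := by
          rw [abs_mul, abs_of_nonneg r0]
          exact mul_le_mul_of_nonneg_right r1.le (abs_nonneg _)
        rw [e1] at e2
        have := abs_sub (m * α + n * β) (m % β * α)
        linarith
      refine ⟨_, mem_biUnion hc ⟨(m % β, n + m / β * α), ⟨⟨?_, r1.le⟩, abs_le.1 b2⟩, rfl⟩,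
        m / β, ?_⟩
      · exact le_trans (neg_nonpos.2 (abs_nonneg β)) r0
      · show _ = _ • (a ^ (m % β) * b ^ (n + m / β * α)) • c
        rw [cp, ← mul_smul, mul_assoc, ← mul_assoc (b ^ _), ← (h.zpow_zpow _ _).eq, mul_assoc,
          ← zpow_add, ← mul_assoc, ← zpow_add, dv, show -α * (m / β) + (n + m / β * α) = n by ring])
  have bd : ∀ S : Set X0, Sm (a ^ β * b ^ (-α)) S → ∃ B : ℝ, ∀ x ∈ S, |f x| ≤ B :=
    fun S ⟨K, hK, k⟩ => by
      obtain ⟨B, hB⟩ := (hK.image fun x => |f x|).bddAbove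
      refine ⟨B, fun x hx => ?_⟩
      obtain ⟨c, hc, n, rfl⟩ := k x hx
      rw [zb_inv fc]
      exact hB ⟨c, hc, rfl⟩
  obtain ⟨x₃⟩ := T.ne
  have x := v3 T x₃ 0
  have sq : (1 : ℝ) ≤ (β : ℝ) * β := by
    have : (1 : ℤ) ≤ β * β := by
      rw [← abs_mul_abs_self]
      exact one_le_mul_of_one_le_of_one_le (Int.one_le_abs hβ) (Int.one_le_abs hβ)
    exact_mod_cast this
  have a0 := le_abs_self (f x)
  have a1 := neg_abs_le (f x)
  rcases oe with q | q
  · obtain ⟨B, hB⟩ := bd _ q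
    obtain ⟨N, hN⟩ := exists_nat_gt (|B| + |f x|)
    have e := we_zp fb (N * β) x
    have l : (N : ℝ) ≤ (N : ℝ) * (β * β) := le_mul_of_one_le_right N.cast_nonneg sq
    have b0 := le_abs_self B
    have b1 := abs_nonneg B
    push_cast at e
    have := (abs_le.1 (hB (b ^ ((N : ℤ) * β) • x) (show 0 < f _ by linarith))).2
    linarith
  · obtain ⟨B, hB⟩ := bd _ q
    obtain ⟨N, hN⟩ := exists_nat_gt (|B| + |f x|)
    have e := we_zp fb (-(N * β)) x
    have l : (N : ℝ) ≤ (N : ℝ) * (β * β) := le_mul_of_one_le_right N.cast_nonneg sq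
    have b0 := le_abs_self B
    have b1 := abs_nonneg B
    push_cast at e
    have := (abs_le.1 (hB (b ^ (-((N : ℤ) * β)) • x) (show ¬ 0 < f _ by linarith))).1
    linarith

theorem we_per (hM : Mfd T) (h : Commute a b)
    (ind : ∀ m n : ℤ, a ^ m * b ^ n = 1 → m = 0 ∧ n = 0) {f : X0 → ℝ} {α β : ℝ}
    (fa : ∀ x, f (a • x) = f x + α) (fb : ∀ x, f (b • x) = f x + β)
    (hs : Sm2 a b {e | f (T.d1 e 0) ≠ f (T.d1 e 1)}) : β = 0 := by
  refine (Module.forall_dual_apply_eq_zero_iff ℚ β).1 fun l => ?_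
  obtain ⟨K, hK, k⟩ := hs
  have d1 : (((l α).num : ℚ)) = (l α).den * l α := by rw [mul_comm, Rat.mul_den_eq_num]
  have d2 : (((l β).num : ℚ)) = (l β).den * l β := by rw [mul_comm, Rat.mul_den_eq_num]
  have := we_perZ hM h ind (f := fun x => (((l α).den * (l β).den * l (f x) : ℚ) : ℝ))
    (α := (l α).num * (l β).den) (β := (l β).num * (l α).den)
    (fun x => by
      rw [fa, map_add, ← Rat.cast_intCast, ← Rat.cast_add, Int.cast_mul, d1, Int.cast_natCast]
      congr 1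
      ring)
    (fun x => by
      rw [fb, map_add, ← Rat.cast_intCast, ← Rat.cast_add, Int.cast_mul, d2, Int.cast_natCast]
      congr 1
      ring)
    ⟨K, hK, fun e he => k e fun q => he (by simp only [q])⟩
  exact Rat.num_eq_zero.1 ((mul_eq_zero.1 this).resolve_right
    (Int.natCast_ne_zero.2 (l α).den_nz))

theorem Sm2_symm {X : Type} [MulAction G X] (h : Commute a b) {S : Set X} (hs : Sm2 a b S) :
    Sm2 b a S := by
  obtain ⟨K, hK, k⟩ := hs
  refine ⟨K, hK, fun x hx => ?_⟩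
  obtain ⟨c, hc, m, n, e⟩ := k x hx
  exact ⟨c, hc, n, m, by rw [e, (h.zpow_zpow m n).eq]⟩

theorem Sm2_mono {X : Type} [MulAction G X] {S S' : Set X} (hs : Sm2 a b S) (k : S' ⊆ S) :
    Sm2 a b S' := hs.imp fun _ h => ⟨h.1, fun x hx => h.2 x (k hx)⟩

theorem Sm2_biUnion {X ι : Type} [MulAction G X] {I : Set ι} (hI : I.Finite) {S : ι → Set X}
    (hs : ∀ i ∈ I, Sm2 a b (S i)) : Sm2 a b (⋃ i ∈ I, S i) := by
  choose! K hK k using hs
  refine ⟨⋃ i ∈ I, K i, hI.biUnion hK, fun x hx => ?_⟩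
  obtain ⟨i, hi, hx⟩ := mem_iUnion₂.1 hx
  obtain ⟨c, hc, e⟩ := k i hi x hx
  exact ⟨c, mem_biUnion hi hc, e⟩

/-- every rank two lattice has a wall -/
theorem exists_wall (hM : Mfd T) (h0 : NoHom G) (h : Commute a b)
    (ind : ∀ m n : ℤ, a ^ m * b ^ n = 1 → m = 0 ∧ n = 0) : ∃ A, IsWall T a b A := by
  obtain ⟨z, zc, za, zb, zs, nt⟩ := we_one hM h0 h ind
  obtain ⟨f, ef⟩ := T.h1 z fun f => (sub_eq_zero.1 (zc f)).symm
  obtain ⟨x₃⟩ := T.ne
  have x₀ := v3 T x₃ 0
  have per : ∀ g : G, (∀ e, z (g • e) = z e) → ∀ x, f (g • x) = f x + (f (g • x₀) - f x₀) :=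
    fun g hg x => by
      have := const_of hM (t := fun x => f (g • x) - f x) (fun e => by
        have := hg e
        rw [ef, ef, T.e1, T.e1] at this
        linarith) x x₀
      linarith
  have hs : Sm2 a b {e | f (T.d1 e 0) ≠ f (T.d1 e 1)} :=
    Sm2_mono zs fun e he q => he (sub_eq_zero.1 ((ef e).symm.trans q))
  have fb : ∀ x, f (b • x) = f x := fun x => by
    rw [per b zb, we_per hM h ind (per a za) (per b zb) hs, add_zero]
  have fa : ∀ x, f (a • x) = f x := fun x => by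
    rw [per a za, we_per hM h.symm (fun m n e => (ind n m
      (by rw [(h.zpow_zpow n m).eq, e])).symm) (per b zb) (per a za) (Sm2_symm h hs), add_zero]
  have fin : (range f).Finite := by
    obtain ⟨K, hK, k⟩ := hs
    refine (((hK.image fun e => f (T.d1 e 0)).union (hK.image fun e => f (T.d1 e 1))).insert
      (f x₀)).subset ?_
    rintro _ ⟨y, rfl⟩
    obtain ⟨q, hq⟩ := hM.conn y x₀
    have en : ∀ e, f (T.d1 e 0) ≠ f (T.d1 e 1) → ∃ c ∈ K, ∀ i, f (T.d1 c i) = f (T.d1 e i) :=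
      fun e he => by
        obtain ⟨c, hc, m, n, rfl⟩ := k e he
        exact ⟨c, hc, fun i => by rw [T.e1, mul_smul, zb_inv fa, zb_inv fb]⟩
    induction hq with
    | nil => exact .inl rfl
    | @cons u l v q c st _ ih =>
      by_cases e : f u = f v
      · rw [e]
        exact ih per
      · obtain ⟨e', _ | _⟩ := l
        · have k1 : v = T.d1 e' 1 := st.1
          have k2 : u = T.d1 e' 0 := st.2
          obtain ⟨c, hc, ec⟩ := en e' (by rwa [← k1, ← k2])
          exact .inr (.inl ⟨c, hc, by rw [k2]; exact ec 0⟩)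
        · have k1 : u = T.d1 e' 1 := st.1
          have k2 : v = T.d1 e' 0 := st.2
          obtain ⟨c, hc, ec⟩ := en e' (by rw [← k1, ← k2]; exact Ne.symm e)
          exact .inr (.inr ⟨c, hc, by rw [k1]; exact ec 1⟩)
  have nt' : ∀ r : ℝ, ¬ Sm2 a b {x | f x = r}ᶜ := fun r k =>
    nt (fun x => f x - r) (fun v => by rw [fa]) (fun v => by rw [fb])
      (Sm2_mono k fun x hx q => hx (sub_eq_zero.2 q)) fun e => by
        rw [ef]
        unfold d1_c0
        ring
  have ex : ∃ r, ¬ Sm2 a b {x | f x = r} := by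
    by_contra n
    push Not at n
    exact nt' 0 (Sm2_mono (Sm2_biUnion fin fun r _ => n r) fun x _ =>
      mem_biUnion (mem_range_self x) rfl)
  obtain ⟨r, hr⟩ := ex
  refine ⟨{x | f x = r}, fun x => by simp only [mem_ofPred_eq, fa],
    fun x => by simp only [mem_ofPred_eq, fb], Sm2_mono hs fun e he q => he ?_, hr, nt' r⟩
  simp only [mem_ofPred_eq]
  rw [q]

/-- two walls of one lattice agree up to a small set and a choice of side -/
theorem wall_uniq (hM : Mfd T) (h : Commute a b)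
    (ind : ∀ m n : ℤ, a ^ m * b ^ n = 1 → m = 0 ∧ n = 0) {A B : Set X0} (hA : IsWall T a b A)
    (hB : IsWall T a b B) :
    Sm2 a b {x | ¬ (x ∈ A ↔ x ∈ B)} ∨ Sm2 a b {x | ¬ (x ∈ A ↔ x ∉ B)} := by
  obtain ⟨c, c', hc, s, -, -, ss, es⟩ := d1_ab hM h ind (z := wz T A) (z' := wz T B)
    (fun f => sub_eq_zero.2 (wz_coc A f).symm) (wz_inv hA.ia) (wz_inv hA.ib)
    (Sm2_mono hA.fin fun _ k => wz_ne k)
    (fun f => sub_eq_zero.2 (wz_coc B f).symm) (wz_inv hB.ia) (wz_inv hB.ib)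
    (Sm2_mono hB.fin fun _ k => wz_ne k)
  have ct := const_of hM (t := fun x => c * wi A x + c' * wi B x - s x) fun x => by
    have := es x
    unfold wz d1_c0 at this
    linarith
  have p : ∀ S : Set X0, ¬ Sm2 a b S → ∃ x ∈ S, s x = 0 := fun S hS => by
    by_contra m
    exact hS (Sm2_mono ss fun x hx q => m ⟨x, hx, q⟩)
  obtain ⟨x, hx, ex⟩ := p _ hA.big
  obtain ⟨x', hx', ex'⟩ := p _ hA.big'
  obtain ⟨y, hy, ey⟩ := p _ hB.big
  obtain ⟨y', hy', ey'⟩ := p _ hB.big'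
  have c0 : c ≠ 0 := fun e => by
    have := ct y y'
    simp only [wi_pos hy, wi_neg hy', ey, ey', e] at this
    exact hc.elim (fun k => k e) fun k => k (by linarith)
  have c1 : c' ≠ 0 := fun e => by
    have := ct x x'
    simp only [wi_pos hx, wi_neg hx', ex, ex', e] at this
    exact c0 (by linarith)
  by_cases k : x ∈ B
  · refine .inl (Sm2_mono ss fun v hv q => hv ?_)
    have := ct x v
    have q' : s v = 0 := q
    by_cases v1 : v ∈ A <;> by_cases v2 : v ∈ B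
    · exact iff_of_true v1 v2
    · simp only [wi_pos hx, wi_pos k, wi_pos v1, wi_neg v2, ex, q'] at this
      exact absurd (by linarith) c1
    · simp only [wi_pos hx, wi_pos k, wi_neg v1, wi_pos v2, ex, q'] at this
      exact absurd (by linarith) c0
    · exact iff_of_false v1 v2
  · refine .inr (Sm2_mono ss fun v hv q => hv ?_)
    have := ct x v
    have q' : s v = 0 := q
    by_cases v1 : v ∈ A <;> by_cases v2 : v ∈ B
    · simp only [wi_pos hx, wi_neg k, wi_pos v1, wi_pos v2, ex, q'] at this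
      exact absurd (by linarith) c1
    · exact iff_of_true v1 v2
    · exact iff_of_false v1 (not_not.2 v2)
    · simp only [wi_pos hx, wi_neg k, wi_neg v1, wi_neg v2, ex, q'] at this
      exact absurd (by linarith) c0

end Pool.Agent.Work.MP_3d425c_gt.Jw
end

-- merged part: Pool.Agent.Work.MP_3d425c_gt.Nh.Rhm
section
/-! The tree of a nested family of half spaces: proper edge groups, hyperbolic elements,
minimality, and fixed edges. -/

namespace Pool.Agent.Work.MP_3d425c_gt.Nh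
open Set MulAction Pool.Agent.Work.MP_3d425c_gt.Md Pool.Agent.Work.MP_3d425c_gt.Bg
  Pool.Agent.Work.MP_3d425c_gt.Bq Pool.Agent.Work.MP_3d425c_gt.Gl

variable {G E V X : Type} [Group G] [MulAction G E] [MulAction G V] [MulAction G X]
  {lt : E → E → Prop} {st : E → E} {T : SimpleGraph V} {hd tl : E → V} {m : E → Set X}

/-- half spaces `m e` of the set `X` attached to a nested family -/
structure Hsp (G : Type) {E X : Type} [Group G] [MulAction G E] [MulAction G X]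
    (lt : E → E → Prop) (st : E → E) (m : E → Set X) : Prop where
  mono : ∀ {e f}, lt e f → m e ⊆ m f
  smul : ∀ (g : G) e x, g • x ∈ m (g • e) ↔ x ∈ m e
  ne : ∀ e, (m e).Nonempty
  disj : ∀ e x, x ∈ m e → x ∉ m (st e)
  lf : ∀ x y, {e | x ∈ m e ∧ y ∉ m e}.Finite

/-- finite intervals follow from local finiteness -/
theorem Hsp.fin (H : Hsp G lt st m) (e f : E) : {x | lt e x ∧ lt x f}.Finite := by
  obtain ⟨a, ha⟩ := H.ne e
  obtain ⟨b, hb⟩ := H.ne (st f)
  exact (H.lf a b).subset fun x k => ⟨H.mono k.1 ha, fun q => H.disj f b (H.mono k.2 q) hb⟩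

namespace Poc
variable (P : Poc G lt st)
include P

theorem pow_lt {w : G} {e : E} (h : lt e (w • e)) (n : ℕ) : lt e (w ^ (n + 1) • e) := by
  induction n with
  | zero => simpa using h
  | succ n ih =>
    rw [pow_succ', mul_smul]
    exact P.tr h (P.act w ih)

theorem pow_inj {w : G} {e : E} (h : lt e (w • e)) :
    Function.Injective fun n : ℕ => w ^ n • e := by
  have k : ∀ i j : ℕ, i < j → w ^ i • e ≠ w ^ j • e := fun i j l q => by
    obtain ⟨d, rfl⟩ := Nat.exists_eq_add_of_lt l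
    rw [add_assoc, pow_add, mul_smul, smul_left_cancel_iff] at q
    have := P.pow_lt h d
    rw [← q] at this
    exact P.irr e this
  intro i j q
  rcases lt_trichotomy i j with l | l | l
  exacts [absurd q (k i j l), l, absurd q.symm (k j i l)]

theorem zpow_ne {w : G} {e : E} (h : lt e (w • e)) {n : ℤ} (q : w ^ n • e = e) : n = 0 := by
  have z : ∀ k : ℕ, w ^ k • e = e → k = 0 := fun k q =>
    P.pow_inj h (show w ^ k • e = w ^ 0 • e by rw [q, pow_zero, one_smul])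
  obtain ⟨k, rfl | rfl⟩ := n.eq_nat_or_neg
  · rw [z k (by simpa using q)]
    rfl
  · rw [zpow_neg, inv_smul_eq_iff, zpow_natCast] at q
    rw [z k q.symm]
    rfl

/-- an invariant set that contains a half space moved into a larger one is everything -/
theorem hyp_univ (H : Hsp G lt st m) {w : G} {e : E} (h : lt e (w • e)) {B : Set X}
    (hB : ∀ x, w • x ∈ B ↔ x ∈ B) (s : m e ⊆ B) (y : X) : y ∈ B := by
  by_contra n
  obtain ⟨x, hx⟩ := H.ne e
  have b : ∀ (k : ℕ) z, w ^ k • z ∈ B ↔ z ∈ B := fun k => by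
    induction k with
    | zero => simp
    | succ k ih => exact fun z => by rw [pow_succ', mul_smul, hB, ih]
  refine infinite_of_injective_forall_mem (s := {e | x ∈ m e ∧ y ∉ m e}) (P.pow_inj h)
    (fun k => ⟨?_, fun q => n ?_⟩) (H.lf x y)
  · cases k with
    | zero => simpa using hx
    | succ k => exact H.mono (P.pow_lt h k) hx
  · rw [← smul_inv_smul (w ^ k) y] at q ⊢
    exact (b k _).2 (s ((H.smul _ _ _).1 q))

/-- an invariant set inside a half space moved into a larger one is empty -/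
theorem hyp_empty (H : Hsp G lt st m) {w : G} {e : E} (h : lt e (w • e)) {B : Set X}
    (hB : ∀ x, w • x ∈ B ↔ x ∈ B) (s : B ⊆ m e) (y : X) : y ∉ B := by
  refine P.hyp_univ H (w := w⁻¹) (e := st e) ?_ (B := Bᶜ) (fun x => ?_)
    (fun x hx q => H.disj e x (s q) hx) y
  · have := P.act w⁻¹ (P.anti h)
    rwa [P.ast, inv_smul_smul] at this
  · rw [mem_compl_iff, mem_compl_iff, ← hB, smul_inv_smul]

/-- HYP: an element that moves a half space into a larger one fixes no pair of sides that is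
nested with it -/
theorem hyp (H : Hsp G lt st m) {w : G} {e : E} (h : lt e (w • e)) {B B' : Set X}
    (n : B.Nonempty) (n' : B'.Nonempty) (d : ∀ x, x ∈ B → x ∉ B')
    (hB : ∀ x, w • x ∈ B ↔ x ∈ B) (hB' : ∀ x, w • x ∈ B' ↔ x ∈ B') :
    ¬ (m e ⊆ B ∨ m e ⊆ B' ∨ m (st e) ⊆ B ∨ B ⊆ m e) := by
  obtain ⟨x, hx⟩ := n
  obtain ⟨y, hy⟩ := n'
  rintro (s | s | s | s)
  · exact d y (P.hyp_univ H h hB s y) hy
  · exact d x hx (P.hyp_univ H h hB' s x)
  · refine d y (P.hyp_univ H (w := w⁻¹) (e := st e) ?_ (fun x => ?_) s y) hy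
    · have := P.act w⁻¹ (P.anti h)
      rwa [P.ast, inv_smul_smul] at this
    · rw [← hB, smul_inv_smul]
  · exact P.hyp_empty H h hB s x hx

theorem ex_nx {x e : E} (h : lt x e) : ∃ y, Nx lt y e := by
  obtain ⟨n, hn⟩ : ∃ n, {z | lt x z ∧ lt z e}.ncard = n := ⟨_, rfl⟩
  induction n using Nat.strong_induction_on generalizing x with
  | _ n ih =>
    by_cases k : Nx lt x e
    · exact ⟨x, k⟩
    obtain ⟨z, a, b⟩ : ∃ z, lt x z ∧ lt z e := by
      by_contra q
      exact k ⟨h, fun z a b => q ⟨z, a, b⟩⟩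
    refine ih _ (hn ▸ ncard_lt_ncard ⟨fun u hu => ⟨P.tr a hu.1, hu.2⟩, fun s => ?_⟩ (P.fin x e))
      b rfl
    exact P.irr z (s ⟨a, b⟩).1

theorem nx_anti {y e : E} (h : Nx lt y e) : Nx lt (st e) (st y) :=
  ⟨P.anti h.1, fun x a b => h.2 (st x) (P.antir b) (P.antil a)⟩

/-- a half space with nothing below it is finite modulo its stabiliser -/
theorem min_fin [Finite (Ob G X)] (H : Hsp G lt st m) {e : E} (h : ∀ x, ¬ lt x e) :
    SmP (stabilizer G e) (m e) := by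
  have mn : ∀ (g : G) x, ¬ lt x (g • e) := fun g x q => h (g⁻¹ • x) (by
    simpa only [inv_smul_smul] using P.act g⁻¹ q)
  have un : ∀ (g : G) x, x ∈ m e → x ∈ m (g • e) → g • e = e := fun g x a b => by
    rcases P.nest e (g • e) with q | q | q | q | q | q
    · exact q.symm
    · exact absurd a (q ▸ H.disj _ x b)
    · exact absurd q (mn g e)
    · exact absurd (H.mono q a) (H.disj _ x b)
    · exact absurd q (mn g _)
    · exact absurd (P.anti' q) (h _)
  have : Nonempty X := ⟨(H.ne e).some⟩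
  choose! r hr using fun (q : Ob G X) (k : ∃ x ∈ m e, ob G x = q) => k
  refine ⟨range r, finite_range r, fun x hx => ?_⟩
  obtain ⟨a, b⟩ := hr (ob G x) ⟨x, hx, rfl⟩
  obtain ⟨g, hg⟩ := ob_eq_iff.1 b.symm
  exact ⟨_, ⟨_, rfl⟩, g, un g x hx (hg ▸ (H.smul g e _).2 a), hg.symm⟩

end Poc

theorem Tr.hd_ne (R : Tr G lt st T hd tl) (P : Poc G lt st) (e : E) : hd e ≠ hd (st e) :=
  fun q => ((R.hdq _ _).1 q).elim (fun k => P.ne e k.symm) fun k => P.irr _ k.1

theorem Tr.tl_st (R : Tr G lt st T hd tl) (P : Poc G lt st) {e : E} (n : ¬ Iv G st e) :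
    tl (st e) = hd e := by
  rw [R.tl0 _ fun i => n (P.iv_st.1 i), P.inv]

/-- an edge starts at the head of a half space or at the midpoint of a reversed wall -/
theorem Tr.edge' (R : Tr G lt st T hd tl) (P : Poc G lt st) {u v : V} (a : T.Adj u v) :
    (∃ e, u = hd e ∧ v = tl e) ∨ ∃ e, Iv G st e ∧ u = tl e ∧ v = hd e := by
  obtain ⟨e, k | k⟩ := R.edge u v a
  · exact .inl ⟨e, k⟩
  · by_cases i : Iv G st e
    · exact .inr ⟨e, i, k.2, k.1⟩
    · exact .inl ⟨st e, k.2.trans (R.tl0 e i), k.1.trans (R.tl_st P i).symm⟩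

/-- the group of an edge is the group of a half space -/
theorem Tr.edge_grp (R : Tr G lt st T hd tl) {u v : V} (a : T.Adj u v) :
    ∃ e : E, stabilizer G u ⊓ stabilizer G v = stabilizer G e := by
  obtain ⟨e, ⟨rfl, rfl⟩ | ⟨rfl, rfl⟩⟩ := R.edge u v a
  · exact ⟨e, Subgroup.ext fun g => by
      rw [Subgroup.mem_inf, mem_stabilizer_iff, mem_stabilizer_iff, mem_stabilizer_iff, R.stab]⟩
  · exact ⟨e, Subgroup.ext fun g => by
      rw [Subgroup.mem_inf, mem_stabilizer_iff, mem_stabilizer_iff, mem_stabilizer_iff, and_comm,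
        R.stab]⟩

/-- RED: edge groups are proper in the vertex groups -/
theorem Tr.red [Finite (Ob G X)] (R : Tr G lt st T hd tl) (P : Poc G lt st) (H : Hsp G lt st m)
    (big : ∀ e, ¬ SmP (stabilizer G e) (m e))
    (rk : ∀ e f, lt e f → ¬ stabilizer G e ≤ stabilizer G f) (u v : V) (a : T.Adj u v) :
    ∃ g : G, g • u = u ∧ g • v ≠ v := by
  rcases R.edge' P a with ⟨e, rfl, rfl⟩ | ⟨e, ⟨g, hg⟩, rfl, rfl⟩
  · by_contra n
    have s : ∀ g : G, g • hd e = hd e → g • e = e := fun g k =>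
      (R.stab g e).1 ⟨k, by_contra fun q => n ⟨g, k, q⟩⟩
    refine big e (P.min_fin H fun x l => ?_)
    obtain ⟨y, hy⟩ := P.ex_nx l
    have e1 : hd e = hd (st y) := (R.hdq _ _).2 (.inr (P.nx_anti hy))
    refine rk y e hy.1 fun g k => s g ?_
    rw [e1, ← R.hde, ← P.ast, show g • y = y from k]
  · refine ⟨g, (R.stabm ⟨g, hg⟩ g).2 (.inr hg), ?_⟩
    rw [← R.hde, hg]
    exact (R.hd_ne P e).symm

/-- elements of the two vertex groups that move an edge have a hyperbolic product -/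
theorem Tr.prod_hyp (R : Tr G lt st T hd tl) (P : Poc G lt st) {e : E} {g k : G}
    (g1 : g • hd e = hd e) (g2 : g • tl e ≠ tl e) (k1 : k • tl e = tl e) (k2 : k • hd e ≠ hd e) :
    lt e ((k * g) • e) := by
  have a : lt (st e) (g • e) := (((R.stabv g e).1 g1).resolve_left fun q =>
    g2 (by rw [← R.tle, q])).1
  have b := P.act k a
  rw [← mul_smul] at b
  by_cases i : Iv G st e
  · have c : k • e = st e := ((R.stabm i k).1 k1).resolve_left fun q => k2 (by rw [← R.hde, q])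
    rwa [← P.ast, c, P.inv] at b
  · rw [R.tl0 e i] at k1
    have c := ((R.stabv k (st e)).1 k1).resolve_left fun q => k2 (by
      rw [← R.hde, ← P.inv e, ← P.ast k (st e), q])
    rw [P.inv] at c
    exact P.tr c.1 b

omit [MulAction G E] [MulAction G V] [MulAction G X] in
theorem sq_comm {a w : G} (ha : ¬ IsOfFinOrder a) (h : w * a * w⁻¹ ∈ Subgroup.zpowers a)
    (h' : w⁻¹ * a * w⁻¹⁻¹ ∈ Subgroup.zpowers a) : Commute a (w * w) := by
  obtain ⟨i, hi⟩ := h
  obtain ⟨j, hj⟩ := h'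
  have hi' : a ^ i = w * a * w⁻¹ := hi
  have hj' : a ^ j = w⁻¹ * a * w⁻¹⁻¹ := hj
  have e : a ^ (i * j) = a ^ (1 : ℤ) := by
    rw [zpow_mul, hi', conj_zpow, hj']
    group
  have e1 : i * j = 1 := injective_zpow_iff_not_isOfFinOrder.2 ha e
  have e2 : i * i = 1 := by
    rcases Int.eq_one_or_neg_one_of_mul_eq_one e1 with q | q <;> simp [q]
  have e3 : w * w * a * (w * w)⁻¹ = a := by
    calc _ = w * (w * a * w⁻¹) * w⁻¹ := by group
      _ = (w * a * w⁻¹) ^ i := by rw [conj_zpow, hi']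
      _ = a := by rw [← hi', ← zpow_mul, e2, zpow_one]
  exact (mul_inv_eq_iff_eq_mul.1 e3).symm

/-- every rank two lattice fixes a pair of sides nested with all half spaces -/
def Zw (G : Type) {E X : Type} [Group G] [MulAction G X] (st : E → E) (m : E → Set X) : Prop :=
  ∀ a b : G, Commute a b → (∀ i j : ℤ, a ^ i * b ^ j = 1 → i = 0 ∧ j = 0) →
    ∃ B B' : Set X, B.Nonempty ∧ B'.Nonempty ∧ (∀ x, x ∈ B → x ∉ B') ∧
      (∀ x, b • x ∈ B ↔ x ∈ B) ∧ (∀ x, b • x ∈ B' ↔ x ∈ B') ∧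
      ∀ e, m e ⊆ B ∨ m e ⊆ B' ∨ m (st e) ⊆ B ∨ B ⊆ m e

/-- an element that commutes with a nontrivial element of the group of `e` does not move `e` into
a larger half space -/
theorem Poc.no_hyp (P : Poc G lt st) (H : Hsp G lt st m)
    (tf : ∀ a : G, a ≠ 1 → ¬ IsOfFinOrder a) (Z : Zw G st m) {a w : G} {e : E} (a1 : a ≠ 1)
    (ae : a • e = e) (c : Commute a w) : ¬ lt e (w • e) := fun h => by
  obtain ⟨B, B', n, n', d, b, b', s⟩ := Z a w c fun i j q => by
    have f : a ^ i • e = e := (stabilizer G e).zpow_mem ae i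
    have j0 : j = 0 := P.zpow_ne h (by
      rw [← smul_left_cancel_iff (a ^ i), ← mul_smul, q, one_smul, f])
    rw [j0, zpow_zero, mul_one] at q
    exact ⟨by_contra fun z => tf a a1 (isOfFinOrder_iff_zpow_eq_one.2 ⟨i, z, q⟩), j0⟩
  exact P.hyp H h n n' d b b' (s e)

/-- MIN: no nontrivial cyclic subgroup of an edge group is normal in both vertex groups -/
theorem Tr.min (R : Tr G lt st T hd tl) (P : Poc G lt st) (H : Hsp G lt st m)
    (tf : ∀ a : G, a ≠ 1 → ¬ IsOfFinOrder a) (Z : Zw G st m)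
    (red : ∀ u v, T.Adj u v → ∃ g : G, g • u = u ∧ g • v ≠ v) (u v : V) (ad : T.Adj u v) (a : G)
    (au : a • u = u) (av : a • v = v)
    (nm : ∀ g : G, g • u = u ∨ g • v = v → g * a * g⁻¹ ∈ Subgroup.zpowers a) : a = 1 := by
  by_contra a1
  have key : ∀ e, a • hd e = hd e → a • tl e = tl e →
      ¬ ∀ g : G, g • hd e = hd e ∨ g • tl e = tl e → g * a * g⁻¹ ∈ Subgroup.zpowers a := by
    intro e ah at' nm
    obtain ⟨g, g1, g2⟩ := red _ _ (R.adj e)
    obtain ⟨k, k1, k2⟩ := red _ _ (R.adj e).symm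
    have h := R.prod_hyp P g1 g2 k1 k2
    have cj : ∀ x y : G, x * a * x⁻¹ ∈ Subgroup.zpowers a → y * a * y⁻¹ ∈ Subgroup.zpowers a →
        x * y * a * (x * y)⁻¹ ∈ Subgroup.zpowers a := by
      rintro x y hx ⟨j, hj⟩
      have : x * y * a * (x * y)⁻¹ = (x * a * x⁻¹) ^ j := by
        rw [conj_zpow, show a ^ j = _ from hj]
        group
      exact this ▸ Subgroup.zpow_mem _ hx j
    refine P.no_hyp H tf Z a1 ((R.stab a e).1 ⟨ah, at'⟩) (sq_comm (w := k * g) (tf a a1)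
      (cj k g (nm k (.inr k1)) (nm g (.inl g1))) ?_) ?_
    · rw [mul_inv_rev]
      exact cj _ _ (nm _ (.inl (inv_smul_eq_iff.2 g1.symm))) (nm _ (.inr (inv_smul_eq_iff.2 k1.symm)))
    · rw [mul_smul]
      exact P.tr h (P.act _ h)
  obtain ⟨e, ⟨rfl, rfl⟩ | ⟨rfl, rfl⟩⟩ := R.edge u v ad
  · exact key e au av nm
  · exact key e av au fun g k => nm g k.symm

/-- the first edge on the way to another vertex -/
theorem first_edge (hT : T.IsTree) (act : ∀ (g : G) u v, T.Adj u v → T.Adj (g • u) (g • v))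
    {v y : V} (n : y ≠ v) : ∃ w, T.Adj v w ∧ ∀ g : G, g • v = v → g • y = y → g • w = w := by
  obtain ⟨w, a, s⟩ := (side_ex hT v y).resolve_left n
  refine ⟨w, a, fun g k l => side_uniq hT (k ▸ act g v w a) a ?_ s⟩
  have := side_smul act g s
  rwa [k, l] at this

/-- CUSP: the elements that fix a vertex and a half space fix an edge at the vertex -/
theorem Tr.cusp (R : Tr G lt st T hd tl) (v : V) (f : E) :
    ∃ w, T.Adj v w ∧ ∀ g : G, g • v = v → g • f = f → g • w = w := by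
  by_cases k : hd f = v
  · exact ⟨tl f, k ▸ R.adj f, fun g _ q => ((R.stab g f).2 q).2⟩
  · obtain ⟨w, a, s⟩ := first_edge (G := G) R.tree R.act k
    exact ⟨w, a, fun g p q => s g p ((R.stab g f).2 q).1⟩

end Pool.Agent.Work.MP_3d425c_gt.Nh
end
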