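import Pool.Agent.Work.MP_3d425c_gt.Nh.Tree
import Pool.Agent.Work.MP_3d425c_gt.Bq.Wall
import Pool.Agent.Work.MP_3d425c_gt.Bq.Or

/-! Systems of walls: local finiteness, and the half spaces of the tree. -/

namespace Pool.Agent.Work.MP_3d425c_gt.Nh
open Set MulAction Pool.Agent.Work.MP_3d425c_gt.Md Pool.Agent.Work.MP_3d425c_gt.Cy
  Pool.Agent.Work.MP_3d425c_gt.Bg Pool.Agent.Work.MP_3d425c_gt.Bq Pool.Agent.Work.MP_3d425c_gt.Gl

variable {G X0 X1 X2 X3 E : Type} [Group G] [MulAction G X0] [MulAction G X1] [MulAction G X2]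
  [MulAction G X3] [MulAction G E] {T : Tri G X0 X1 X2 X3} {lt : E → E → Prop} {st : E → E}
  {m : E → Set X0}

/-- A nested family of half spaces `m e` of the complex, with finitely many orbits. -/
structure Sys (T : Tri G X0 X1 X2 X3) (lt : E → E → Prop) (st : E → E) (m : E → Set X0) :
    Prop where
  irr : ∀ e, ¬ lt e e
  tr : ∀ {e f g}, lt e f → lt f g → lt e g
  inv : ∀ e, st (st e) = e
  ne : ∀ e, st e ≠ e
  nst : ∀ e, ¬ lt e (st e)
  anti : ∀ {e f}, lt e f → lt (st f) (st e)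
  act : ∀ (g : G) {e f}, lt e f → lt (g • e) (g • f)
  ast : ∀ (g : G) e, st (g • e) = g • st e
  nest : ∀ e f, e = f ∨ e = st f ∨ lt e f ∨ lt e (st f) ∨ lt (st e) f ∨ lt (st e) (st f)
  mono : ∀ {e f}, lt e f → m e ⊆ m f
  eqv : ∀ (g : G) e x, g • x ∈ m (g • e) ↔ x ∈ m e
  disj : ∀ e x, x ∈ m e → x ∉ m (st e)
  cb : ∀ e, SmP (stabilizer G e) {a | ¬ (T.d1 a 0 ∈ m e ↔ T.d1 a 1 ∈ m e)}
  big : ∀ e, ¬ SmP (stabilizer G e) (m e)
  orb : Finite (Ob G E)

/-- an edge leaves finitely many half spaces -/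
theorem lf_edge (eqv : ∀ (g : G) e x, g • x ∈ m (g • e) ↔ x ∈ m e)
    (cb : ∀ e, SmP (stabilizer G e) {a | ¬ (T.d1 a 0 ∈ m e ↔ T.d1 a 1 ∈ m e)})
    (orb : Finite (Ob G E)) (a : X1) : {e | ¬ (T.d1 a 0 ∈ m e ↔ T.d1 a 1 ∈ m e)}.Finite := by
  have fr : ∀ (g : G) (b : X1), g • b = b → g = 1 := fun g b h =>
    T.free g (T.d1 b 0) (by rw [← T.e1, h])
  refine (finite_iUnion fun o : Ob G E => ((cb (Quotient.out o)).fin fr a).image
    fun q => q.out • Quotient.out o).subset fun e he => ?_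
  obtain ⟨g, hg⟩ := ob_eq_iff.1 (ob_out (ob G e)).symm
  obtain ⟨p, hp⟩ := QuotientGroup.mk_out_eq_mul (stabilizer G (Quotient.out (ob G e))) g
  have k : (QuotientGroup.mk g : G ⧸ stabilizer G (Quotient.out (ob G e))).out •
      Quotient.out (ob G e) = e := by
    rw [hp, mul_smul, show (p : G) • Quotient.out (ob G e) = _ from p.2, hg]
  refine mem_iUnion.2 ⟨ob G e, QuotientGroup.mk g, fun c => he ?_, k⟩
  rw [T.e1, T.e1, ← eqv (QuotientGroup.mk g : G ⧸ _).out, ← eqv (QuotientGroup.mk g : G ⧸ _).out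
    _ (_ • T.d1 a 1), smul_inv_smul, smul_inv_smul, k] at c
  exact c

/-- finitely many half spaces separate two vertices -/
theorem lf (hM : Mfd T) (eqv : ∀ (g : G) e x, g • x ∈ m (g • e) ↔ x ∈ m e)
    (cb : ∀ e, SmP (stabilizer G e) {a | ¬ (T.d1 a 0 ∈ m e ↔ T.d1 a 1 ∈ m e)})
    (orb : Finite (Ob G E)) (x y : X0) : {e | ¬ (x ∈ m e ↔ y ∈ m e)}.Finite := by
  obtain ⟨q, hq⟩ := hM.conn x y
  induction hq with
  | nil => simp
  | @cons a l b q c k _ ih =>
    refine ((lf_edge eqv cb orb l.1).union ih).subset fun e he => ?_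
    by_contra n
    rw [mem_union, not_or] at n
    have n1 := not_not.1 n.1
    have n2 := not_not.1 n.2
    obtain ⟨ε, _ | _⟩ := l
    · rw [show b = T.d1 ε 1 from k.1] at n2
      rw [show a = T.d1 ε 0 from k.2] at he
      exact he (n1.trans n2)
    · rw [show b = T.d1 ε 0 from k.2] at n2
      rw [show a = T.d1 ε 1 from k.1] at he
      exact he (n1.symm.trans n2)

/-- an invariant relation with finite fibres over the vertices is finite modulo stabilisers -/
theorem sm_of_fib {X : Type} [MulAction G X] (fin : Finite (Ob G X)) {r : X → E → Prop}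
    (hr : ∀ (g : G) x e, r x e → r (g • x) (g • e)) (hf : ∀ x, {e | r x e}.Finite) (e : E) :
    SmP (stabilizer G e) {x | r x e} := by
  have ch : ∀ η : E, ∃ γ : G, (∃ g : G, g • η = e) → γ • η = e := fun η => by
    by_cases a : ∃ g : G, g • η = e
    · exact a.imp fun _ k _ => k
    · exact ⟨1, fun k => absurd k a⟩
  choose γ hγ using ch
  refine ⟨⋃ o : Ob G X, (fun η => γ η • Quotient.out o) '' {η | r (Quotient.out o) η},
    finite_iUnion fun o => (hf _).image _, fun x hx => ?_⟩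
  obtain ⟨g, hg⟩ := ob_eq_iff.1 (ob_out (ob G x)).symm
  have a := hγ (g⁻¹ • e) ⟨g, smul_inv_smul _ _⟩
  refine ⟨_, mem_iUnion.2 ⟨ob G x, g⁻¹ • e, ?_, rfl⟩, g * (γ (g⁻¹ • e))⁻¹, ?_, ?_⟩
  · have := hr g⁻¹ _ _ hx
    rwa [show g⁻¹ • x = Quotient.out (ob G x) from inv_smul_eq_iff.2 hg.symm] at this
  · show (g * _) • e = e
    rw [mul_smul, ← eq_inv_smul_iff, inv_smul_eq_iff]
    exact a.symm
  · show x = (g * _) • γ _ • _
    rw [mul_smul, inv_smul_smul, hg]

/-- the edges at a set that is finite modulo `P` -/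
theorem sm_star (hM : Mfd T) {P : Subgroup G} {S : Set X0} (h : SmP P S) (i : Fin 2) :
    SmP P {a | T.d1 a i ∈ S} := by
  obtain ⟨K, hK, h⟩ := h
  refine ⟨⋃ k ∈ K, {a | T.d1 a i = k}, hK.biUnion fun k _ => hM.edges_finite k i, fun a ha => ?_⟩
  obtain ⟨k, hk, p, hp, e⟩ := h _ ha
  exact ⟨p⁻¹ • a, mem_biUnion hk (by rw [mem_ofPred_eq, T.e1, e, inv_smul_smul]), p, hp,
    (smul_inv_smul _ _).symm⟩

namespace Sys
variable (S : Sys T lt st m)
include S

theorem nonempty (e : E) : (m e).Nonempty :=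
  nonempty_iff_ne_empty.2 fun h => S.big e (h ▸ SmP.empty)

theorem sepfin (hM : Mfd T) (x y : X0) : {e | ¬ (x ∈ m e ↔ y ∈ m e)}.Finite :=
  lf hM S.eqv S.cb S.orb x y

/-- intervals are finite -/
theorem poc (hM : Mfd T) : Poc G lt st := by
  refine ⟨S.irr, S.tr, S.inv, S.ne, S.nst, S.anti, S.act, S.ast, S.nest, fun e f => ?_⟩
  obtain ⟨x, hx⟩ := S.nonempty e
  obtain ⟨y, hy⟩ := S.nonempty (st f)
  exact (S.sepfin hM x y).subset fun η h k => S.disj f y (S.mono h.2 (k.1 (S.mono h.1 hx))) hy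

theorem stab_st (e : E) : stabilizer G (st e) = stabilizer G e := by
  ext g
  rw [mem_stabilizer_iff, mem_stabilizer_iff, ← S.ast]
  exact ⟨fun h => by simpa only [S.inv] using congrArg st h, congrArg st⟩

/-- a vertex of the complex lies in almost the same half spaces as the head of `e` -/
theorem hs_fin (hM : Mfd T) (x : X0) (e : E) : {η | ¬ (x ∈ m η ↔ η ∈ hs lt st e)}.Finite := by
  obtain ⟨y, hy⟩ := S.nonempty e
  obtain ⟨z, hz⟩ := S.nonempty (st e)
  have k : ∀ η ∈ hs lt st e, y ∈ m η ∨ z ∈ m η := by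
    rintro η (rfl | a | a)
    exacts [.inl hy, .inl (S.mono a hy), .inr (S.mono a hz)]
  refine ((S.sepfin hM x y).union (S.sepfin hM x z)).subset fun η h => ?_
  by_contra n
  rw [mem_union, not_or] at n
  have n1 := not_not.1 n.1
  have n2 := not_not.1 n.2
  refine h ⟨fun a => ((S.poc hM).hs_or e η).resolve_right fun b => ?_,
    fun a => (k η a).elim n1.2 n2.2⟩
  exact (k _ b).elim (S.disj _ _ (n1.1 a)) (S.disj _ _ (n2.1 a))

theorem chain {g : G} {e : E} (h : lt (g • e) e) {i j : ℕ} (k : i < j) :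
    lt (g ^ j • e) (g ^ i • e) := by
  have one : ∀ n : ℕ, lt (g ^ (n + 1) • e) (g ^ n • e) := fun n => by
    simpa only [pow_succ, mul_smul] using S.act (g ^ n) h
  induction k with
  | refl => exact one i
  | step _ ih => exact S.tr (one _) ih

theorem chain_inj {g : G} {e : E} (h : lt (g • e) e) : Function.Injective fun n : ℕ => g ^ n • e :=
  fun i j k => by
    by_contra n
    have k' : g ^ i • e = g ^ j • e := k
    rcases lt_or_gt_of_ne n with c | c
    · exact S.irr _ (k' ▸ S.chain h c)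
    · exact S.irr _ (k' ▸ S.chain h c)

/-- a strictly decreasing chain of translates has empty intersection -/
theorem cap (hM : Mfd T) {g : G} {e : E} (h : lt (g • e) e) (x : X0) :
    ∃ n : ℕ, x ∉ m (g ^ n • e) := by
  obtain ⟨y, hy⟩ := S.nonempty (st e)
  by_contra n
  refine infinite_of_injective_forall_mem (s := {e | ¬ (x ∈ m e ↔ y ∈ m e)}) (S.chain_inj h)
    (fun i k => ?_) (S.sepfin hM x y)
  have a := k.1 (not_not.1 fun c => n ⟨i, c⟩)
  rcases i.eq_zero_or_pos with rfl | c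
  · exact S.disj e y (by simpa using a) hy
  · exact S.disj e y (by simpa using S.mono (S.chain h c) a) hy

/-- a strictly increasing chain of translates covers the complex -/
theorem cup (hM : Mfd T) {g : G} {e : E} (h : lt (g • e) e) (x : X0) :
    ∃ n : ℕ, g ^ n • x ∈ m e := by
  obtain ⟨y, hy⟩ := S.nonempty e
  have up : ∀ i : ℕ, y ∈ m ((g ^ i)⁻¹ • e) := fun i => by
    rcases i.eq_zero_or_pos with rfl | c
    · simpa using hy
    · exact S.mono (by simpa using S.act (g ^ i)⁻¹ (S.chain h c)) hy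
  have inj : Function.Injective fun n : ℕ => (g ^ n)⁻¹ • e := fun i j k => S.chain_inj h (by
    have k' : (g ^ i)⁻¹ • e = (g ^ j)⁻¹ • e := k
    have := congrArg (fun z => (g ^ i * g ^ j) • z) k'
    rw [mul_smul (g ^ i), mul_smul (g ^ i), smul_inv_smul, ← mul_smul (g ^ i),
      pow_mul_comm, mul_smul, smul_inv_smul] at this
    exact this.symm)
  by_contra n
  refine infinite_of_injective_forall_mem (s := {e | ¬ (x ∈ m e ↔ y ∈ m e)}) inj
    (fun i k => n ⟨i, ?_⟩) (S.sepfin hM x y)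
  have a := (S.eqv (g ^ i) _ x).2 (k.2 (up i))
  rwa [smul_inv_smul] at a

end Sys

variable {V : Type} [MulAction G V] {Γ : SimpleGraph V} {hd tl : E → V}

/-- the sides of an edge of the tree, read in the family -/
theorem Tr.side_both (R : Tr G lt st Γ hd tl) (P : Poc G lt st) (e η : E) :
    (side Γ (tl e) (hd e) (hd η) ↔ e ∈ hs lt st η) ∧
      (Iv G st η → (side Γ (tl e) (hd e) (tl η) ↔ lt η e ∨ lt (st η) e)) :=
  ⟨R.in_hd P η e, fun i => R.in_tl P i e⟩

theorem Tr.side_hd (R : Tr G lt st Γ hd tl) (P : Poc G lt st) (e η : E) :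
    side Γ (tl e) (hd e) (hd η) ↔ η = e ∨ lt η e ∨ lt (st η) e := (R.side_both P e η).1

theorem Tr.side_tl (R : Tr G lt st Γ hd tl) (P : Poc G lt st) (e : E) {η : E} (i : Iv G st η) :
    side Γ (tl e) (hd e) (tl η) ↔ lt η e ∨ lt (st η) e := (R.side_both P e η).2 i

theorem Tr.stab_eq (R : Tr G lt st Γ hd tl) (e : E) :
    stabilizer G (hd e) ⊓ stabilizer G (tl e) = stabilizer G e :=
  Subgroup.ext fun g => R.stab g e

/-- the fibres of an equivariant map are finite modulo the stabilisers -/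
theorem fib_sm (hM : Mfd T) {f : X0 → V} (hf : ∀ (g : G) x, f (g • x) = g • f x) (v : V) :
    SmP (stabilizer G v) {x | f x = v} :=
  sm_of_fib (or_fin0 hM) (r := fun x v => f x = v) (fun g x _ h => by rw [hf, h])
    (fun x => (finite_singleton (f x)).subset fun _ h => Eq.symm h) v

namespace Sys
variable (S : Sys T lt st m) (hM : Mfd T) (R : Tr G lt st Γ hd tl) {f : X0 → V}
  (hf : ∀ (g : G) x, f (g • x) = g • f x)
include S hM R

theorem side_fin (x : X0) (v : V) : {η | ¬ (x ∈ m η ↔ side Γ (tl η) (hd η) v)}.Finite := by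
  obtain ⟨e, rfl | ⟨i, rfl⟩⟩ := R.all v
  · exact (S.hs_fin hM x e).subset fun η h k =>
      h (k.trans (R.side_both (S.poc hM) η e).1.symm)
  · refine ((S.hs_fin hM x e).insert e).subset fun η h => ?_
    by_cases c : e = η
    · exact .inl c.symm
    · exact .inr fun k => h (k.trans ((or_iff_right c).trans (R.side_tl (S.poc hM) η i).symm))

include hf

/-- the half space of the tree differs from `m e` by a set finite modulo the stabiliser -/
theorem half_diff (e : E) :
    SmP (stabilizer G e) {x | ¬ (x ∈ m e ↔ side Γ (tl e) (hd e) (f x))} :=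
  sm_of_fib (or_fin0 hM) (r := fun x e => ¬ (x ∈ m e ↔ side Γ (tl e) (hd e) (f x)))
    (fun g x e h k => h (by rwa [S.eqv, R.tle, R.hde, hf, side_iff R.act] at k))
    (fun x => S.side_fin hM R x (f x)) e

theorem half_cb (e : E) : SmP (stabilizer G e)
    {a | ¬ (side Γ (tl e) (hd e) (f (T.d1 a 0)) ↔ side Γ (tl e) (hd e) (f (T.d1 a 1)))} := by
  have d := S.half_diff hM R hf e
  refine (((S.cb e).union (sm_star hM d 0)).union (sm_star hM d 1)).mono fun a h => ?_
  by_contra n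
  simp only [mem_union, mem_ofPred_eq, not_or, not_not] at n
  exact h (n.1.2.symm.trans (n.1.1.trans n.2))

theorem half_big (e : E) : ¬ SmP (stabilizer G e) {x | side Γ (tl e) (hd e) (f x)} := fun h =>
  S.big e ((h.union (S.half_diff hM R hf e)).mono fun _ hx =>
    (em _).imp_right fun n k => n (k.1 hx))

theorem half_big' (e : E) : ¬ SmP (stabilizer G e) {x | side Γ (tl e) (hd e) (f x)}ᶜ := fun h =>
  S.big (st e) (S.stab_st e ▸ (h.union (S.half_diff hM R hf e)).mono fun x hx =>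
    (em' _).imp_right fun n k => S.disj e x (k.2 n) hx)

/-- every dart of the tree is essential -/
theorem ess {u v : V} (a : Γ.Adj u v) :
    ¬ SmP (stabilizer G u ⊓ stabilizer G v) {x | side Γ u v (f x)} ∧
      ¬ SmP (stabilizer G u ⊓ stabilizer G v) {x | side Γ u v (f x)}ᶜ := by
  obtain ⟨e, ⟨rfl, rfl⟩ | ⟨rfl, rfl⟩⟩ := R.edge _ _ a
  · have c : {x | side Γ (hd e) (tl e) (f x)} = {x | side Γ (tl e) (hd e) (f x)}ᶜ :=
      Set.ext fun x => side_compl R.tree a.symm _
    rw [R.stab_eq, c, compl_compl]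
    exact ⟨S.half_big' hM R hf e, S.half_big hM R hf e⟩
  · rw [inf_comm, R.stab_eq]
    exact ⟨S.half_big hM R hf e, S.half_big' hM R hf e⟩

end Sys

/-- a vertex whose group fixes a neighbour has a second neighbour -/
theorem Sys.leaf (S : Sys T lt st m) (hM : Mfd T) (R : Tr G lt st Γ hd tl) {u v : V}
    (a : Γ.Adj u v) (h : ∀ g : G, g • v = v → g • u = u) : ∃ w, Γ.Adj v w ∧ w ≠ u := by
  obtain ⟨f, hf, -⟩ := exists_equiv T v
  by_contra n
  refine (S.ess hM R hf a).1 (((fib_sm hM hf v).le (Q := stabilizer G u ⊓ stabilizer G v)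
    fun g k => ⟨h g k, k⟩).mono fun x hx => ?_)
  have k : ∀ y, side Γ u v y → y = v := fun y k => by
    induction k with
    | refl => rfl
    | tail _ b ih =>
      subst ih
      exact absurd ⟨_, b.1, fun c => b.2 (c ▸ Sym2.eq_swap)⟩ n
  exact k _ hx

end Pool.Agent.Work.MP_3d425c_gt.Nh
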